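import Pool.Agent.Q120.MG.D5

/-!
# Windows with few numbers without small prime factors
-/

set_option autoImplicit false

namespace Pool.Agent.Q120.CL

open Finset Filter Topology Pool.Agent.Q120.MG

theorem Wf_add (z a s t : ℕ) : Wf z a (s + t) = Wf z a s + Wf z (a + s) t := by
  classical
  unfold Wf
  rw [← card_union_of_disjoint]
  · congr 1
    rw [← filter_union]
    congr 1
    ext n
    simp only [mem_union, mem_Ioc]
    omega
  · rw [Finset.disjoint_left]
    intro n hn hn'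
    rw [mem_filter, mem_Ioc] at hn hn'
    omega

theorem Wf_mono (z a : ℕ) {s t : ℕ} (h : s ≤ t) : Wf z a s ≤ Wf z a t := by
  obtain ⟨r, rfl⟩ := Nat.exists_eq_add_of_le h
  rw [Wf_add]
  omega

theorem Wf_anti {z w : ℕ} (h : z ≤ w) (a t : ℕ) : Wf w a t ≤ Wf z a t := by
  classical
  unfold Wf
  apply card_le_card
  intro n hn
  rw [mem_filter] at hn ⊢
  exact ⟨hn.1, fun p hp hpz => hn.2 p hp (by omega)⟩

theorem Wf_zero (z a : ℕ) : Wf z a 0 = 0 := by
  unfold Wf
  simp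

theorem Vf_le_one (z : ℕ) : Vf z ≤ 1 := by
  unfold Vf
  refine prod_le_one (fun p hp => ?_) (fun p hp => ?_)
  · have h1 : (1 : ℝ) < p := by exact_mod_cast (mem_filter.1 hp).2.one_lt
    have h2 : 1 / (p : ℝ) < 1 := by rw [div_lt_one (by linarith)]; exact h1
    linarith
  · have : 0 ≤ 1 / (p : ℝ) := by positivity
    linarith

theorem le_Vf (z : ℕ) : 1 / ((z : ℝ) + 1) ≤ Vf (z + 2) := by
  induction z with
  | zero =>
    have h1 : Vf 2 = 1 := by
      unfold Vf
      have : (range 2).filter Nat.Prime = ∅ := by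
        ext p
        simp only [mem_filter, mem_range, notMem_empty, iff_false, not_and]
        intro h1 h2
        have := h2.two_le
        omega
      rw [this, prod_empty]
    rw [zero_add, h1]
    norm_num
  | succ z ih =>
    have h1 : Vf (z + 2) * (1 - 1 / ((z : ℝ) + 2)) ≤ Vf (z + 1 + 2) := by
      have h2 : (range (z + 1 + 2)).filter Nat.Prime =
          (if (z + 2).Prime then insert (z + 2) ((range (z + 2)).filter Nat.Prime) else (range (z + 2)).filter Nat.Prime) := by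
        rw [show z + 1 + 2 = (z + 2) + 1 by ring, range_add_one, filter_insert]
      unfold Vf
      rw [h2]
      have hp := Vf_pos (z + 2)
      unfold Vf at hp
      split_ifs with h3
      · rw [prod_insert (by simp)]
        push_cast
        rw [mul_comm]
      · have h4 : 0 ≤ 1 / ((z : ℝ) + 2) := by positivity
        nlinarith
    refine le_trans ?_ h1
    have h3 : 0 < (z : ℝ) + 1 := by positivity
    have h4 : 0 < (z : ℝ) + 2 := by positivity
    have h5 : 0 ≤ 1 - 1 / ((z : ℝ) + 2) := by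
      rw [sub_nonneg, div_le_one h4]
      linarith
    refine le_trans (le_of_eq ?_) (mul_le_mul_of_nonneg_right ih h5)
    push_cast
    field_simp
    ring

theorem le_Vf' {z : ℕ} (hz : 1 ≤ z) : 1 / (z : ℝ) ≤ Vf z := by
  rcases Nat.lt_or_ge z 2 with h | h
  · have h1 : z = 1 := by omega
    subst h1
    have h2 : Vf 1 = 1 := by
      unfold Vf
      have : (range 1).filter Nat.Prime = ∅ := by
        ext p
        simp only [mem_filter, mem_range, notMem_empty, iff_false, not_and]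
        intro h1 h2
        have := h2.two_le
        omega
      rw [this, prod_empty]
    rw [h2]
    norm_num
  · obtain ⟨w, rfl⟩ := Nat.exists_eq_add_of_le' h
    refine le_trans ?_ (le_Vf w)
    apply one_div_le_one_div_of_le
    · positivity
    · push_cast
      linarith

/-- The product of the primes below `z`. -/
def PQ (z : ℕ) : ℕ := ∏ p ∈ (range z).filter Nat.Prime, p

theorem PQ_pos (z : ℕ) : 0 < PQ z := prod_pos (fun p hp => (mem_filter.1 hp).2.pos)

theorem rough_add (z n : ℕ) : (∀ p : ℕ, p.Prime → p < z → ¬ p ∣ n + PQ z) ↔ (∀ p : ℕ, p.Prime → p < z → ¬ p ∣ n) := by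
  refine forall_congr' (fun p => forall_congr' (fun hp => forall_congr' (fun hpz => ?_)))
  have h1 : p ∣ PQ z := dvd_prod_of_mem _ (mem_filter.2 ⟨mem_range.2 hpz, hp⟩)
  rw [Nat.dvd_add_left h1]

theorem Wf_period (z a t : ℕ) : Wf z (a + PQ z) t = Wf z a t := by
  classical
  unfold Wf
  symm
  refine card_bij (fun n _ => n + PQ z) ?_ ?_ ?_
  · intro n hn
    rw [mem_filter, mem_Ioc] at hn ⊢
    exact ⟨by omega, (rough_add z n).2 hn.2⟩
  · intro n _ m _ h
    exact Nat.add_right_cancel h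
  · intro m hm
    rw [mem_filter, mem_Ioc] at hm
    refine ⟨m - PQ z, ?_, by omega⟩
    rw [mem_filter, mem_Ioc]
    refine ⟨by omega, ?_⟩
    have h1 : m - PQ z + PQ z = m := by omega
    rw [← rough_add, h1]
    exact hm.2

theorem Wf_period' (z a t j : ℕ) : Wf z (a + PQ z * j) t = Wf z a t := by
  induction j with
  | zero => rw [mul_zero, add_zero]
  | succ j ih =>
    rw [show a + PQ z * (j + 1) = (a + PQ z * j) + PQ z by ring, Wf_period, ih]

theorem Wf_mod (z a t : ℕ) : Wf z (a % PQ z) t = Wf z a t := by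
  have h1 := Wf_period' z (a % PQ z) t (a / PQ z)
  rw [Nat.mod_add_div] at h1
  exact h1.symm

theorem Wf_full (z a m : ℕ) : (Wf z a (PQ z * m) : ℝ) = Vf z * (PQ z * m : ℕ) := by
  have h1 := Wf_add z 0 a (PQ z * m)
  have h2 := Wf_add z 0 (PQ z * m) a
  have h3 := Wf_period' z 0 a m
  rw [zero_add] at h1 h2 h3
  rw [h3, add_comm (PQ z * m) a] at h2
  have h4 : Wf z a (PQ z * m) = Wf z 0 (PQ z * m) := by omega
  rw [h4]
  exact period z m

/-- A lower bound from the complete periods. -/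
theorem per_low (z a t : ℕ) : Vf z * ((t : ℝ) - PQ z) ≤ Wf z a t := by
  have h1 : PQ z * (t / PQ z) ≤ t := Nat.mul_div_le t (PQ z)
  have h2 : (Wf z a (PQ z * (t / PQ z)) : ℝ) ≤ Wf z a t := by exact_mod_cast Wf_mono z a h1
  refine le_trans ?_ h2
  rw [Wf_full]
  refine mul_le_mul_of_nonneg_left ?_ (Vf_pos z).le
  have h3 : t < PQ z * (t / PQ z) + PQ z := by
    have := Nat.lt_mul_div_succ t (PQ_pos z)
    linarith
  have h4 : (t : ℝ) < ((PQ z * (t / PQ z) + PQ z : ℕ) : ℝ) := by exact_mod_cast h3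
  push_cast at h4 ⊢
  linarith

/-- Averaging over consecutive windows. -/
theorem exists_window (z t N : ℕ) (hN : 0 < N) {M : ℝ} (h : (Wf z 0 (t * N) : ℝ) ≤ M * N) : ∃ a : ℕ, (Wf z a t : ℝ) ≤ M := by
  by_contra hcon
  push Not at hcon
  have h1 : ∀ N : ℕ, 0 < N → M * N < (Wf z 0 (t * N) : ℝ) := by
    intro N hN
    induction N with
    | zero => omega
    | succ N ih =>
      rw [mul_add, mul_one, Wf_add, zero_add]
      push_cast
      have h2 := hcon (t * N)
      rcases Nat.eq_zero_or_pos N with h3 | h3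
      · subst h3
        rw [mul_zero] at h2 ⊢
        rw [Wf_zero]
        push_cast
        linarith
      · have h4 := ih h3
        linarith
  linarith [h1 N hN]

theorem exists_avg (z t : ℕ) : ∃ a : ℕ, (Wf z a t : ℝ) ≤ Vf z * t := by
  refine exists_window z t (PQ z) (PQ_pos z) ?_
  have h1 := Wf_full z 0 t
  rw [mul_comm (PQ z) t] at h1
  rw [h1]
  push_cast
  linarith

theorem exists_sub {z x t : ℕ} {κ : ℝ} (hκ : 0 < κ) (hκ1 : κ < 1) (hx : (Wf z 0 x : ℝ) ≤ (1 - κ) * (Vf z * x)) (ht : 0 < t)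
    (htx : (t : ℝ) ≤ κ / 2 * x) : ∃ a : ℕ, (Wf z a t : ℝ) ≤ (1 - κ / 2) * (Vf z * t) := by
  have ht0 : (0 : ℝ) < t := by exact_mod_cast ht
  have hx0 : (0 : ℝ) < x := by nlinarith
  have hxN : 0 < x := by exact_mod_cast hx0
  have htxN : t ≤ x := by
    have : (t : ℝ) ≤ x := by nlinarith
    exact_mod_cast this
  have hN : 0 < x / t := Nat.div_pos htxN ht
  refine exists_window z t (x / t) hN ?_
  have h1 : t * (x / t) ≤ x := Nat.mul_div_le x t
  have h2 : (Wf z 0 (t * (x / t)) : ℝ) ≤ Wf z 0 x := by exact_mod_cast Wf_mono z 0 h1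
  refine h2.trans (hx.trans ?_)
  have h3 : (x : ℝ) - t ≤ t * ((x / t : ℕ) : ℝ) := by
    have h4 : x < t * (x / t) + t := by
      have := Nat.lt_mul_div_succ x ht
      linarith
    have h5 : (x : ℝ) < ((t * (x / t) + t : ℕ) : ℝ) := by exact_mod_cast h4
    push_cast at h5
    push_cast
    linarith
  have h4 : (1 - κ) * x ≤ (1 - κ / 2) * ((x : ℝ) - t) := by nlinarith
  have hV := (Vf_pos z).le
  calc (1 - κ) * (Vf z * x) = Vf z * ((1 - κ) * x) := by ring
    _ ≤ Vf z * ((1 - κ / 2) * ((x : ℝ) - t)) := mul_le_mul_of_nonneg_left h4 hV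
    _ ≤ Vf z * ((1 - κ / 2) * (t * ((x / t : ℕ) : ℝ))) := by
      refine mul_le_mul_of_nonneg_left (mul_le_mul_of_nonneg_left h3 (by linarith)) hV
    _ = (1 - κ / 2) * (Vf z * t) * ((x / t : ℕ) : ℝ) := by ring

/-- The linear sieve for all levels. -/
theorem low' (low : LOW) {s : ℝ} (hs : 2 < s) : ∃ c : ℝ, 0 < c ∧ ∃ Y : ℕ, ∀ z a y : ℕ, (z : ℝ) ^ s ≤ y → Y ≤ y →
    c * (Vf z * y) ≤ Wf z a y := by
  obtain ⟨c, hc, z₀, h⟩ := low s hs
  refine ⟨c * Vf z₀, mul_pos hc (Vf_pos z₀), ⌈(z₀ : ℝ) ^ s⌉₊, fun z a y hzy hY => ?_⟩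
  have hy0 : (0 : ℝ) ≤ y := Nat.cast_nonneg y
  rcases Nat.lt_or_ge z z₀ with h1 | h1
  · have h2 := h z₀ le_rfl a y ((Nat.le_ceil _).trans (by exact_mod_cast hY))
    have h3 : (Wf z₀ a y : ℝ) ≤ Wf z a y := by exact_mod_cast Wf_anti h1.le a y
    refine le_trans ?_ (h2.trans h3)
    have h4 : Vf z * y ≤ y := mul_le_of_le_one_left hy0 (Vf_le_one z)
    have h5 : 0 ≤ c * Vf z₀ := (mul_pos hc (Vf_pos z₀)).le
    calc c * Vf z₀ * (Vf z * y) ≤ c * Vf z₀ * y := mul_le_mul_of_nonneg_left h4 h5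
      _ = c * (Vf z₀ * y) := by ring
  · refine le_trans ?_ (h z h1 a y hzy)
    have h4 : c * Vf z₀ ≤ c := mul_le_of_le_one_right hc.le (Vf_le_one z₀)
    exact mul_le_mul_of_nonneg_right h4 (mul_nonneg (Vf_pos z).le hy0)

/-- The length of the longest window with at most `M` numbers without prime factors below `z`. -/
noncomputable def TT (z : ℕ) (M : ℝ) : ℕ := sSup {t : ℕ | ∃ a : ℕ, (Wf z a t : ℝ) ≤ M}

theorem TT_bdd (z : ℕ) (M : ℝ) : BddAbove {t : ℕ | ∃ a : ℕ, (Wf z a t : ℝ) ≤ M} := by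
  obtain ⟨B, hB⟩ := exists_nat_ge (M / Vf z + PQ z)
  refine ⟨B, ?_⟩
  rintro t ⟨a, ha⟩
  have h1 := (per_low z a t).trans ha
  have h2 : (t : ℝ) - PQ z ≤ M / Vf z := by
    rw [le_div_iff₀ (Vf_pos z)]
    linarith
  have h3 : (t : ℝ) ≤ B := by linarith
  exact_mod_cast h3

theorem TT_ge {z t a : ℕ} {M : ℝ} (h : (Wf z a t : ℝ) ≤ M) : t ≤ TT z M := le_csSup (TT_bdd z M) ⟨a, h⟩

theorem TT_mem {z : ℕ} {M : ℝ} (hM : 0 ≤ M) : ∃ a : ℕ, (Wf z a (TT z M) : ℝ) ≤ M := by
  have h1 : TT z M ∈ {t : ℕ | ∃ a : ℕ, (Wf z a t : ℝ) ≤ M} := by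
    refine Nat.sSup_mem ⟨0, 0, ?_⟩ (TT_bdd z M)
    rw [Wf_zero]
    exact_mod_cast hM
  exact h1

theorem TT_lt {z t a : ℕ} {M : ℝ} (h : TT z M < t) : M < (Wf z a t : ℝ) := by
  by_contra hcon
  exact absurd (TT_ge (not_lt.1 hcon)) (not_le.2 h)

/-- The budget of the block `k`. -/
noncomputable def bud (k : ℕ) : ℝ := ((k : ℝ) * Real.log 2) ^ 2

/-- The predicted maximal gap in the block `k` at the level `z`. -/
noncomputable def Tk (z k : ℕ) : ℕ := TT z (Vf z * bud k)

theorem bud_nonneg (k : ℕ) : 0 ≤ bud k := sq_nonneg _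

theorem le_Tk (z k : ℕ) : bud k < Tk z k + 1 := by
  obtain ⟨a, ha⟩ := exists_avg z ⌊bud k⌋₊
  have h1 : (Wf z a ⌊bud k⌋₊ : ℝ) ≤ Vf z * bud k :=
    ha.trans (mul_le_mul_of_nonneg_left (Nat.floor_le (bud_nonneg k)) (Vf_pos z).le)
  have h2 := TT_ge h1
  have h3 := Nat.lt_floor_add_one (bud k)
  have h4 : ((⌊bud k⌋₊ : ℕ) : ℝ) ≤ Tk z k := by exact_mod_cast h2
  linarith

end Pool.Agent.Q120.CL
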