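import Pool.Agent.Q120.CL.C1
import Pool.Agent.W89.Sv.Mert

/-!
# The predicted maximal gap: bounds
-/

set_option autoImplicit false

namespace Pool.Agent.Q120.CL

open Finset Filter Topology Pool.Agent.Q120.MG

theorem log2_sq : (1 : ℝ) / 4 ≤ Real.log 2 ^ 2 ∧ Real.log 2 ^ 2 ≤ 1 := by
  have h1 := Real.log_two_gt_d9
  have h2 := Real.log_two_lt_d9
  constructor <;> nlinarith

theorem bud_lower (k : ℕ) : (k : ℝ) ^ 2 / 4 ≤ bud k := by
  unfold bud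
  rw [mul_pow]
  nlinarith [log2_sq.1, sq_nonneg (k : ℝ)]

theorem bud_upper (k : ℕ) : bud k ≤ (k : ℝ) ^ 2 := by
  unfold bud
  rw [mul_pow]
  nlinarith [log2_sq.2, sq_nonneg (k : ℝ)]

theorem hcast : Tendsto (fun k : ℕ => (k : ℝ)) atTop atTop := tendsto_natCast_atTop_atTop

theorem bud_tendsto : Tendsto bud atTop atTop := by
  refine tendsto_atTop_mono (fun k => bud_lower k) ?_
  exact Tendsto.atTop_div_const (by norm_num) ((tendsto_pow_atTop (by norm_num)).comp hcast)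

theorem pow_small {a C : ℝ} (ha : a < 2) : ∀ᶠ k : ℕ in atTop, C * (k : ℝ) ^ a ≤ bud k := by
  have h1 : Tendsto (fun k : ℕ => (k : ℝ) ^ (2 - a)) atTop atTop := (tendsto_rpow_atTop (by linarith)).comp hcast
  filter_upwards [h1.eventually_ge_atTop (4 * C), eventually_gt_atTop 0] with k hk hk0
  have hk0' : (0 : ℝ) < k := by exact_mod_cast hk0
  refine le_trans ?_ (bud_lower k)
  have h2 : (k : ℝ) ^ 2 = (k : ℝ) ^ (2 - a) * (k : ℝ) ^ a := by
    rw [← Real.rpow_add hk0', ← Real.rpow_natCast]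
    norm_num
  have h3 : 0 ≤ (k : ℝ) ^ a := by positivity
  rw [h2]
  nlinarith

/-- Small levels. -/
theorem Tk_small {ε : ℝ} (hε : 0 < ε) : ∃ δ : ℝ, 0 < δ ∧ ∀ᶠ k : ℕ in atTop, ∀ z : ℕ, (z : ℝ) ≤ (k : ℝ) ^ δ →
    (Tk z k : ℝ) ≤ (1 + ε) * bud k := by
  obtain ⟨κ, hκ⟩ : ∃ κ, κ = min (1 / 2) (ε / 2) := ⟨_, rfl⟩
  have hκ0 : 0 < κ := by rw [hκ]; exact lt_min (by norm_num) (by linarith)
  have hκ1 : κ ≤ 1 / 2 := by rw [hκ]; exact min_le_left _ _
  have hκ2 : κ ≤ ε / 2 := by rw [hκ]; exact min_le_right _ _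
  obtain ⟨s, hs, z₀, hz₀, hf⟩ := fund hκ0 (by linarith)
  have hs1 : (1 : ℝ) ≤ s := by exact_mod_cast hs
  obtain ⟨B, hB⟩ : ∃ B : ℕ, ∀ z : ℕ, z < z₀ → PQ z ≤ B :=
    ⟨(range z₀).sup PQ, fun z hz => Finset.le_sup (f := PQ) (mem_range.2 hz)⟩
  refine ⟨1 / s, by positivity, ?_⟩
  filter_upwards [bud_tendsto.eventually_ge_atTop (B / ε), pow_small (a := 1) (C := 1) (by norm_num), eventually_gt_atTop 0]
    with k h1 h2 hk0 z hz
  have hk0' : (0 : ℝ) < k := by exact_mod_cast hk0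
  have hb := bud_nonneg k
  obtain ⟨a, ha⟩ := TT_mem (z := z) (M := Vf z * bud k) (mul_nonneg (Vf_pos z).le hb)
  have hT : TT z (Vf z * bud k) = Tk z k := rfl
  rw [hT] at ha
  have hV := Vf_pos z
  rcases Nat.lt_or_ge z z₀ with h3 | h3
  · have h4 := (per_low z a (Tk z k)).trans ha
    have h5 : (Tk z k : ℝ) - PQ z ≤ bud k := le_of_mul_le_mul_left h4 hV
    have h6 : (PQ z : ℝ) ≤ B := by exact_mod_cast hB z h3
    rw [div_le_iff₀ hε] at h1
    linarith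
  · rcases Nat.lt_or_ge (Tk z k) (z ^ s) with h4 | h4
    · have h5 : ((Tk z k : ℕ) : ℝ) ≤ (z : ℝ) ^ s := by exact_mod_cast h4.le
      have h6 : (z : ℝ) ^ s ≤ ((k : ℝ) ^ ((1 : ℝ) / s)) ^ s := pow_le_pow_left₀ (Nat.cast_nonneg z) hz s
      rw [← Real.rpow_natCast ((k : ℝ) ^ ((1 : ℝ) / s)) s, ← Real.rpow_mul hk0'.le, one_div_mul_cancel (by positivity)] at h6
      rw [one_mul, Real.rpow_one] at h2
      rw [Real.rpow_one] at h6
      nlinarith
    · have h5 := (hf z h3).2 a (Tk z k) h4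
      have h6 := (abs_le.1 h5).1
      have hTn : (0 : ℝ) ≤ Tk z k := Nat.cast_nonneg _
      have h7 : κ / s * (Vf z * Tk z k) ≤ κ * (Vf z * Tk z k) := by
        refine mul_le_mul_of_nonneg_right (div_le_self hκ0.le hs1) (mul_nonneg hV.le hTn)
      have h8 : Vf z * ((1 - κ) * Tk z k) ≤ Vf z * bud k := by nlinarith
      have h9 : (1 - κ) * Tk z k ≤ bud k := le_of_mul_le_mul_left h8 hV
      have h10 : (Tk z k : ℝ) ≤ (1 + 2 * κ) * ((1 - κ) * Tk z k) := by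
        have h11 : 1 ≤ (1 + 2 * κ) * (1 - κ) := by nlinarith
        calc (Tk z k : ℝ) ≤ ((1 + 2 * κ) * (1 - κ)) * Tk z k := le_mul_of_one_le_left hTn h11
          _ = (1 + 2 * κ) * ((1 - κ) * Tk z k) := by ring
      calc (Tk z k : ℝ) ≤ (1 + 2 * κ) * ((1 - κ) * Tk z k) := h10
        _ ≤ (1 + 2 * κ) * bud k := mul_le_mul_of_nonneg_left h9 (by linarith)
        _ ≤ (1 + ε) * bud k := mul_le_mul_of_nonneg_right (by linarith) hb

/-- Levels which are a power of `k`. -/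
theorem Tk_large {δ : ℝ} (hδ : 0 < δ) : ∃ c : ℝ, 0 < c ∧ ∀ᶠ k : ℕ in atTop, ∀ z : ℕ, (k : ℝ) ^ δ ≤ z →
    (1 + c) * bud k ≤ (Tk z k : ℝ) := by
  obtain ⟨S, κ, hκ0, hκ1, z₀, h⟩ := def_holds (max 1 (3 / δ)) (le_max_left _ _)
  refine ⟨κ / 4, by linarith, ?_⟩
  have e1 : Tendsto (fun k : ℕ => (k : ℝ) ^ δ) atTop atTop := (tendsto_rpow_atTop hδ).comp hcast
  filter_upwards [e1.eventually_ge_atTop (z₀ : ℝ), e1.eventually_ge_atTop 1, bud_tendsto.eventually_ge_atTop (4 / κ),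
    eventually_gt_atTop 0, hcast.eventually_ge_atTop (4 / κ), bud_tendsto.eventually_ge_atTop 1] with k h1 h2 h3 hk0 h4 h5 z hz
  have hk0' : (0 : ℝ) < k := by exact_mod_cast hk0
  have hk1 : (1 : ℝ) ≤ k := by exact_mod_cast hk0
  have hzz₀ : z₀ ≤ z := by exact_mod_cast h1.trans hz
  obtain ⟨x, hx1, _, hx3⟩ := h z hzz₀
  have hz1 : (1 : ℝ) ≤ z := h2.trans hz
  have hx : (k : ℝ) ^ 3 ≤ x := by
    refine le_trans ?_ hx1
    calc (k : ℝ) ^ 3 = ((k : ℝ) ^ δ) ^ (3 / δ) := by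
          rw [← Real.rpow_mul hk0'.le, mul_div_cancel₀ _ hδ.ne']
          norm_cast
      _ ≤ (z : ℝ) ^ (3 / δ) := Real.rpow_le_rpow (by positivity) hz (by positivity)
      _ ≤ (z : ℝ) ^ (max 1 (3 / δ)) := Real.rpow_le_rpow_of_exponent_le hz1 (le_max_right _ _)
  have hb := bud_nonneg k
  obtain ⟨t, ht⟩ : ∃ t, t = ⌊bud k / (1 - κ / 2)⌋₊ := ⟨_, rfl⟩
  have hden : 1 / 2 ≤ 1 - κ / 2 := by linarith
  have hden0 : 0 < 1 - κ / 2 := by linarith
  have ht1 : (t : ℝ) ≤ bud k / (1 - κ / 2) := by rw [ht]; exact Nat.floor_le (by positivity)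
  have ht2 : bud k / (1 - κ / 2) < t + 1 := by rw [ht]; exact Nat.lt_floor_add_one _
  have hge : (1 + κ / 2) * bud k ≤ bud k / (1 - κ / 2) := by
    rw [le_div_iff₀ hden0]
    nlinarith [mul_nonneg (sq_nonneg κ) hb]
  have h1c : 1 ≤ κ / 4 * bud k := by
    rw [div_le_iff₀ hκ0] at h3
    linarith
  have htpos : 0 < t := by
    have : (0 : ℝ) < t := by nlinarith
    exact_mod_cast this
  have hxk : κ / 2 * x ≥ 2 * (k : ℝ) ^ 2 := by
    rw [div_le_iff₀ hκ0] at h4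
    have h6 : (k : ℝ) ^ 3 = k * k ^ 2 := by ring
    have h7 : 0 ≤ (k : ℝ) ^ 2 := sq_nonneg _
    have h8 : κ / 2 * ((k : ℝ) * k ^ 2) ≤ κ / 2 * x := mul_le_mul_of_nonneg_left (by rw [← h6]; exact hx) (by linarith)
    nlinarith
  have htx : (t : ℝ) ≤ κ / 2 * x := by
    refine ht1.trans (le_trans ?_ hxk)
    rw [div_le_iff₀ hden0]
    have := bud_upper k
    nlinarith [sq_nonneg (k : ℝ)]
  obtain ⟨a, ha⟩ := exists_sub hκ0 hκ1 hx3 htpos htx
  have ha' : (Wf z a t : ℝ) ≤ Vf z * bud k := by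
    refine ha.trans ?_
    have h6 : (1 - κ / 2) * t ≤ bud k := by
      rw [le_div_iff₀ hden0] at ht1
      linarith
    have := (Vf_pos z).le
    calc (1 - κ / 2) * (Vf z * t) = Vf z * ((1 - κ / 2) * t) := by ring
      _ ≤ Vf z * bud k := mul_le_mul_of_nonneg_left h6 this
  have h6 : ((t : ℕ) : ℝ) ≤ Tk z k := by exact_mod_cast TT_ge ha'
  have e2 : (1 + κ / 4) * bud k = (1 + κ / 2) * bud k - κ / 4 * bud k := by ring
  rw [e2]
  linarith

/-- The upper bound from the linear sieve. -/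
theorem Tk_bound (low : LOW) {η : ℝ} (hη : 0 < η) : ∃ C : ℝ, 1 ≤ C ∧ ∀ᶠ k : ℕ in atTop, ∀ z : ℕ, (z : ℝ) ≤ (k : ℝ) ^ (1 - η) →
    (Tk z k : ℝ) ≤ C * bud k := by
  obtain ⟨c, hc, Y, h⟩ := low' low (s := 2 + 2 * η) (by linarith)
  refine ⟨max 1 (1 / c), le_max_left _ _, ?_⟩
  have hexp : (1 - η) * (2 + 2 * η) < 2 := by nlinarith
  filter_upwards [bud_tendsto.eventually_ge_atTop (Y : ℝ), pow_small (C := 1) hexp, eventually_gt_atTop 0] with k h1 h2 hk0 z hz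
  have hk0' : (0 : ℝ) < k := by exact_mod_cast hk0
  have hb := bud_nonneg k
  obtain ⟨a, ha⟩ := TT_mem (z := z) (M := Vf z * bud k) (mul_nonneg (Vf_pos z).le hb)
  have hT : TT z (Vf z * bud k) = Tk z k := rfl
  rw [hT] at ha
  have hbC : bud k ≤ max 1 (1 / c) * bud k := le_mul_of_one_le_left hb (le_max_left _ _)
  have hzs : (z : ℝ) ^ (2 + 2 * η) ≤ bud k := by
    rw [one_mul] at h2
    refine le_trans ?_ h2
    rw [Real.rpow_mul hk0'.le]
    exact Real.rpow_le_rpow (Nat.cast_nonneg z) hz (by linarith)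
  rcases le_or_gt ((z : ℝ) ^ (2 + 2 * η)) (Tk z k) with h3 | h3
  · rcases Nat.lt_or_ge (Tk z k) Y with h4 | h4
    · have h5 : ((Tk z k : ℕ) : ℝ) ≤ Y := by exact_mod_cast h4.le
      linarith
    · have h5 := (h z a (Tk z k) h3 h4).trans ha
      have h6 : Vf z * (c * Tk z k) ≤ Vf z * bud k := by linarith
      have h7 : c * Tk z k ≤ bud k := le_of_mul_le_mul_left h6 (Vf_pos z)
      calc (Tk z k : ℝ) ≤ 1 / c * bud k := by
            rw [one_div, ← div_eq_inv_mul, le_div_iff₀ hc]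
            linarith
        _ ≤ max 1 (1 / c) * bud k := mul_le_mul_of_nonneg_right (le_max_right _ _) hb
  · linarith

/-- The theorem of Mertens for `Vf`. -/
theorem Vf_lim : Tendsto (fun z : ℕ => Vf z * Real.log z) atTop (𝓝 (Real.exp (-Real.eulerMascheroniConstant))) := by
  have h1 := Pool.Agent.W89.Sv.V_lim 1 one_ne_zero
  have h2 : Pool.Agent.W89.Sv.cV 1 = Real.exp (-Real.eulerMascheroniConstant) := by
    unfold Pool.Agent.W89.Sv.cV Pool.Agent.W89.Sv.cM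
    simp
  rw [h2] at h1
  refine h1.congr (fun z => ?_)
  congr 1
  unfold Pool.Agent.W89.Sv.VZ Vf
  refine prod_congr ?_ (fun _ _ => rfl)
  ext p
  rw [Pool.Agent.W89.Sv.mem_PP, mem_filter, mem_range]
  constructor
  · rintro ⟨h3, h4, _⟩
    exact ⟨h3, h4⟩
  · rintro ⟨h3, h4⟩
    exact ⟨h3, h4, fun h5 => h4.one_lt.ne' (Nat.dvd_one.1 h5)⟩

end Pool.Agent.Q120.CL
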