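import Pool.Agent.Q120.CL.C6

/-!
# The constant of Cramér
-/

set_option autoImplicit false

namespace Pool.Agent.Q120.CL

open Finset Filter Topology MeasureTheory Pool.Agent.Q120.MG Pool.Agent.Q120.GM

/-- The upper limit of `(p_(n+1) - p_n) / (log p_n)²` over the elements `p_n` of `S`. -/
noncomputable def LL (S : Set ℕ) : EReal :=
  limsup (fun n : ℕ => (((((Nat.nth (· ∈ S) (n + 1) : ℕ) : ℝ) - ((Nat.nth (· ∈ S) n : ℕ) : ℝ)) /
    (Real.log ((Nat.nth (· ∈ S) n : ℕ) : ℝ)) ^ 2 : ℝ) : EReal)) atTop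

/-- The predicted constant. -/
noncomputable def Lz (z : ℕ → ℕ) : EReal := limsup (fun k : ℕ => (((Tk (z k) k : ℝ) / bud k : ℝ) : EReal)) atTop

/-- The maximal gap in the block `[2 ^ k, 2 ^ (k + 1))` is asymptotic to `Tk (z k) k`. -/
def BlockLaw (S : Set ℕ) (z : ℕ → ℕ) : Prop := ∀ ε : ℝ, 0 < ε → ε < 1 → ∀ᶠ k : ℕ in atTop,
  (∀ n : ℕ, 2 ^ k ≤ n → n < 2 ^ (k + 1) → ∃ m ∈ S, n < m ∧ (m : ℝ) ≤ n + (1 + ε) * Tk (z k) k) ∧
    ∃ n : ℕ, 2 ^ k ≤ n ∧ (n : ℝ) + (1 - ε) * Tk (z k) k < 2 ^ (k + 1) ∧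
      ∀ m ∈ S, n < m → (n : ℝ) + (1 - ε) * Tk (z k) k < m

theorem nth_next {S : Set ℕ} (hS : S.Infinite) {n m : ℕ} (hm : m ∈ S) (h : Nat.nth (· ∈ S) n < m) : Nat.nth (· ∈ S) (n + 1) ≤ m := by
  classical
  have hS' : ({n | n ∈ S}).Infinite := hS
  have h1 : Nat.nth (· ∈ S) (Nat.count (· ∈ S) m) = m := Nat.nth_count hm
  rw [← h1]
  apply (Nat.nth_strictMono hS').monotone
  have h2 : Nat.count (· ∈ S) (Nat.nth (· ∈ S) n) = n := Nat.count_nth_of_infinite hS' n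
  have h3 := Nat.count_strict_mono (p := (· ∈ S)) (Nat.nth_mem_of_infinite hS' n) h
  omega

theorem block_infinite {S : Set ℕ} {z : ℕ → ℕ} (h : BlockLaw S z) : S.Infinite := by
  rw [Set.infinite_iff_exists_gt]
  intro a
  obtain ⟨K, hK⟩ := eventually_atTop.1 (h (1 / 2) (by norm_num) (by norm_num))
  obtain ⟨k, hk⟩ : ∃ k, k = max K a := ⟨_, rfl⟩
  have h1 := (hK k (by rw [hk]; exact le_max_left _ _)).1 (2 ^ k) le_rfl (Nat.pow_lt_pow_right (by norm_num) (by omega))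
  obtain ⟨m, hm, h2, _⟩ := h1
  refine ⟨m, hm, ?_⟩
  have h3 : k < 2 ^ k := Nat.lt_two_pow_self
  have h4 : a ≤ k := by rw [hk]; exact le_max_right _ _
  omega

theorem Lz_nonneg (z : ℕ → ℕ) : 0 ≤ Lz z := by
  unfold Lz
  refine le_limsup_of_frequently_le' (Frequently.of_forall (fun k => ?_))
  have h1 : 0 ≤ (Tk (z k) k : ℝ) / bud k := div_nonneg (Nat.cast_nonneg _) (bud_nonneg k)
  exact_mod_cast h1

theorem block_le {S : Set ℕ} {z : ℕ → ℕ} (h : BlockLaw S z) : LL S ≤ Lz z := by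
  classical
  have hS : S.Infinite := block_infinite h
  have hS' : ({n | n ∈ S}).Infinite := hS
  rw [← EReal.le_of_forall_lt_iff_le]
  intro c hc
  obtain ⟨c', h1, h2⟩ := EReal.lt_iff_exists_real_btwn.1 hc
  have h2' : c' < c := by exact_mod_cast h2
  have hc'0 : 0 < c' := by
    have h3 := lt_of_le_of_lt (Lz_nonneg z) h1
    exact_mod_cast h3
  obtain ⟨ε, hε⟩ : ∃ ε, ε = min (1 / 2) ((c - c') / c') := ⟨_, rfl⟩
  have hε0 : 0 < ε := by
    rw [hε]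
    exact lt_min (by norm_num) (div_pos (by linarith) hc'0)
  have hε1 : ε < 1 := by
    have h4 : ε ≤ 1 / 2 := by rw [hε]; exact min_le_left _ _
    linarith
  have hεc : (1 + ε) * c' ≤ c := by
    have h3 : ε ≤ (c - c') / c' := by rw [hε]; exact min_le_right _ _
    rw [le_div_iff₀ hc'0] at h3
    linarith
  have h3 : ∀ᶠ k : ℕ in atTop, (Tk (z k) k : ℝ) / bud k < c' := by
    have h4 := eventually_lt_of_limsup_lt h1
    filter_upwards [h4] with k hk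
    exact_mod_cast hk
  obtain ⟨K, hK⟩ := eventually_atTop.1 ((h ε hε0 hε1).and (h3.and (eventually_ge_atTop 1)))
  have hnth : Tendsto (fun n => Nat.nth (· ∈ S) n) atTop atTop := (Nat.nth_strictMono hS').tendsto_atTop
  unfold LL
  refine limsup_le_of_le (by isBoundedDefault) ?_
  filter_upwards [hnth.eventually_ge_atTop (2 ^ K)] with n hn
  obtain ⟨p, hp⟩ : ∃ p, p = Nat.nth (· ∈ S) n := ⟨_, rfl⟩
  obtain ⟨p', hp'⟩ : ∃ p', p' = Nat.nth (· ∈ S) (n + 1) := ⟨_, rfl⟩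
  rw [← hp] at hn ⊢
  rw [← hp']
  have hp0 : p ≠ 0 := by
    have : 0 < 2 ^ K := by positivity
    omega
  obtain ⟨k, hk⟩ : ∃ k, k = Nat.log 2 p := ⟨_, rfl⟩
  have hk1 : 2 ^ k ≤ p := by rw [hk]; exact Nat.pow_log_le_self 2 hp0
  have hk2 : p < 2 ^ (k + 1) := by rw [hk]; exact Nat.lt_pow_succ_log_self (by norm_num) p
  have hkK : K ≤ k := by
    rw [hk]
    exact Nat.le_log_of_pow_le (by norm_num) hn
  obtain ⟨⟨h5, _⟩, h6, h7⟩ := hK k hkK
  obtain ⟨m, hm, hm1, hm2⟩ := h5 p hk1 hk2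
  have h8 : p' ≤ m := by
    rw [hp']
    exact nth_next hS hm (by rw [← hp]; exact hm1)
  have h8' : (p' : ℝ) ≤ m := by exact_mod_cast h8
  have hk0 : (0 : ℝ) < k := by exact_mod_cast h7
  have hl2 : 0 < Real.log 2 := Real.log_pos (by norm_num)
  have hb : 0 < bud k := by unfold bud; positivity
  obtain ⟨_, hl1, _⟩ := log_block hk1 hk2
  have hlp : bud k ≤ Real.log (p : ℝ) ^ 2 := by
    unfold bud
    exact pow_le_pow_left₀ (by positivity) hl1 2
  rw [div_lt_iff₀ hb] at h6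
  have h9 : ((p' : ℝ) - p) / Real.log (p : ℝ) ^ 2 ≤ c := by
    rw [div_le_iff₀ (by linarith)]
    have hc0 : 0 < c := by linarith
    calc (p' : ℝ) - p ≤ (1 + ε) * Tk (z k) k := by linarith
      _ ≤ (1 + ε) * (c' * bud k) := mul_le_mul_of_nonneg_left h6.le (by linarith)
      _ = ((1 + ε) * c') * bud k := by ring
      _ ≤ c * bud k := mul_le_mul_of_nonneg_right hεc hb.le
      _ ≤ c * Real.log (p : ℝ) ^ 2 := mul_le_mul_of_nonneg_left hlp hc0.le
  exact_mod_cast h9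

/-- Lower bounds from long empty windows. -/
theorem LL_ge {S : Set ℕ} (hS : S.Infinite) {c : ℝ} {t : ℕ → ℝ}
    (h : ∃ᶠ k : ℕ in atTop, c * (((k : ℝ) + 1) * Real.log 2) ^ 2 ≤ t k ∧ ∃ n : ℕ, 2 ^ k ≤ n ∧ n < 2 ^ (k + 1) ∧
      ∀ m ∈ S, n < m → (n : ℝ) + t k < m) (hc : 0 ≤ c) : (c : EReal) ≤ LL S := by
  classical
  have hS' : ({n | n ∈ S}).Infinite := hS
  unfold LL
  refine le_limsup_of_frequently_le' ?_
  rw [frequently_atTop]
  intro N
  obtain ⟨k, hkN, h1, n', hn1, hn2, hn3⟩ := frequently_atTop.1 h (Nat.nth (· ∈ S) (N + 2))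
  have hlt : k < 2 ^ k := Nat.lt_two_pow_self
  -- the last element up to n'
  obtain ⟨i, hi⟩ : ∃ i, i = Nat.count (· ∈ S) (n' + 1) := ⟨_, rfl⟩
  have hi1 : N + 3 ≤ i := by
    rw [hi]
    have h2 : Nat.count (· ∈ S) (Nat.nth (· ∈ S) (N + 2) + 1) = N + 3 := by
      rw [Nat.count_succ, Nat.count_nth_of_infinite hS', if_pos (Nat.nth_mem_of_infinite hS' _)]
    rw [← h2]
    exact Nat.count_monotone _ (by omega)
  obtain ⟨j, hj⟩ : ∃ j, i = j + 1 := ⟨i - 1, by omega⟩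
  refine ⟨j, by omega, ?_⟩
  have hlow : Nat.nth (· ∈ S) j < n' + 1 := by
    by_contra hcon
    have h3 := Nat.count_monotone (· ∈ S) (not_lt.1 hcon)
    rw [Nat.count_nth_of_infinite hS', ← hi] at h3
    omega
  have hup : n' + 1 ≤ Nat.nth (· ∈ S) (j + 1) := by
    by_contra hcon
    have h3 := Nat.count_monotone (· ∈ S) (show Nat.nth (· ∈ S) (j + 1) + 1 ≤ n' + 1 by omega)
    rw [Nat.count_succ, Nat.count_nth_of_infinite hS', if_pos (Nat.nth_mem_of_infinite hS' _), ← hi] at h3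
    omega
  obtain ⟨p, hp⟩ : ∃ p, p = Nat.nth (· ∈ S) j := ⟨_, rfl⟩
  obtain ⟨p', hp'⟩ : ∃ p', p' = Nat.nth (· ∈ S) (j + 1) := ⟨_, rfl⟩
  rw [← hp] at hlow ⊢
  rw [← hp'] at hup ⊢
  have hp'S : p' ∈ S := by rw [hp']; exact Nat.nth_mem_of_infinite hS' _
  have h4 := hn3 p' hp'S (by omega)
  have hpj : j ≤ p := by rw [hp]; exact (Nat.nth_strictMono hS').id_le j
  have hp2 : (2 : ℝ) ≤ p := by
    have : 2 ≤ p := by omega
    exact_mod_cast this
  have hlp0 : 0 < Real.log (p : ℝ) := Real.log_pos (by linarith)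
  have hpn : (p : ℝ) ≤ n' := by
    have : p ≤ n' := by omega
    exact_mod_cast this
  have hlp : Real.log (p : ℝ) ≤ ((k : ℝ) + 1) * Real.log 2 :=
    (Real.log_le_log (by linarith) hpn).trans (log_block hn1 hn2).2.2
  have h5 : c ≤ ((p' : ℝ) - p) / Real.log (p : ℝ) ^ 2 := by
    rw [le_div_iff₀ (by positivity)]
    calc c * Real.log (p : ℝ) ^ 2 ≤ c * (((k : ℝ) + 1) * Real.log 2) ^ 2 :=
          mul_le_mul_of_nonneg_left (pow_le_pow_left₀ hlp0.le hlp 2) hc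
      _ ≤ t k := h1
      _ ≤ (p' : ℝ) - p := by linarith
  exact_mod_cast h5

/-- The blocks `[2 ^ k, 2 ^ (k + 1))` have gaps asymptotically at least `Tk (z k) k`. -/
def LongLaw (S : Set ℕ) (z : ℕ → ℕ) : Prop := ∀ ε : ℝ, 0 < ε → ε < 1 → ∀ᶠ k : ℕ in atTop,
  ∃ n : ℕ, 2 ^ k ≤ n ∧ (n : ℝ) + (1 - ε) * Tk (z k) k < 2 ^ (k + 1) ∧
    ∀ m ∈ S, n < m → (n : ℝ) + (1 - ε) * Tk (z k) k < m

theorem long_ge {S : Set ℕ} {z : ℕ → ℕ} (hS : S.Infinite) (h : LongLaw S z) : Lz z ≤ LL S := by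
  rw [← EReal.ge_of_forall_gt_iff_ge]
  intro c hc
  rcases le_or_gt c 0 with h0 | h0
  · have h1 : (c : EReal) ≤ ((0 : ℝ) : EReal) := by exact_mod_cast h0
    refine h1.trans ?_
    unfold LL
    refine le_limsup_of_frequently_le' (Frequently.of_forall (fun n => ?_))
    have hS' : ({n | n ∈ S}).Infinite := hS
    have h2 : Nat.nth (· ∈ S) n ≤ Nat.nth (· ∈ S) (n + 1) := (Nat.nth_strictMono hS').monotone (Nat.le_succ n)
    have h3 : ((Nat.nth (· ∈ S) n : ℕ) : ℝ) ≤ ((Nat.nth (· ∈ S) (n + 1) : ℕ) : ℝ) := by exact_mod_cast h2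
    have h4 : 0 ≤ (((Nat.nth (· ∈ S) (n + 1) : ℕ) : ℝ) - ((Nat.nth (· ∈ S) n : ℕ) : ℝ)) /
        (Real.log ((Nat.nth (· ∈ S) n : ℕ) : ℝ)) ^ 2 := div_nonneg (by linarith) (sq_nonneg _)
    exact_mod_cast h4
  obtain ⟨c', h1, h2⟩ := EReal.lt_iff_exists_real_btwn.1 hc
  have h1' : c < c' := by exact_mod_cast h1
  have hc' : 0 < c' := by linarith
  obtain ⟨ε, hε⟩ : ∃ ε, ε = (c' - c) / (2 * c') := ⟨_, rfl⟩
  have hε0 : 0 < ε := by rw [hε]; exact div_pos (by linarith) (by positivity)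
  have hε1 : ε < 1 := by
    rw [hε, div_lt_one (by positivity)]
    linarith
  have hεc : (1 - ε) * c' = (c' + c) / 2 := by
    rw [hε]
    field_simp
    ring
  have h3 := frequently_lt_of_lt_limsup (by isBoundedDefault) h2
  have hratio : ∀ᶠ k : ℕ in atTop, c * (((k : ℝ) + 1) * Real.log 2) ^ 2 ≤ (1 - ε) * (c' * bud k) := by
    have h4 : Tendsto (fun k : ℕ => (1 + 1 / (k : ℝ)) ^ 2) atTop (𝓝 1) := by
      have h5 : Tendsto (fun k : ℕ => 1 / (k : ℝ)) atTop (𝓝 0) := tendsto_const_nhds.div_atTop hcast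
      have h6 := (h5.const_add 1).pow 2
      norm_num at h6 ⊢
      exact h6
    have h5 : (1 : ℝ) < (c' + c) / 2 / c := by
      rw [lt_div_iff₀ h0]
      linarith
    filter_upwards [h4.eventually (ge_mem_nhds h5), eventually_gt_atTop 0] with k hk hk0
    have hk0' : (0 : ℝ) < k := by exact_mod_cast hk0
    have e1 : (((k : ℝ) + 1) * Real.log 2) ^ 2 = (1 + 1 / (k : ℝ)) ^ 2 * bud k := by
      unfold bud
      field_simp
    have hb := bud_nonneg k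
    rw [e1]
    calc c * ((1 + 1 / (k : ℝ)) ^ 2 * bud k) ≤ c * ((c' + c) / 2 / c * bud k) :=
          mul_le_mul_of_nonneg_left (mul_le_mul_of_nonneg_right hk hb) h0.le
      _ = (1 - ε) * (c' * bud k) := by
        rw [← mul_assoc (1 - ε), hεc]
        field_simp
  refine LL_ge hS (t := fun k => (1 - ε) * Tk (z k) k) ?_ h0.le
  refine (h3.and_eventually ((h ε hε0 hε1).and (hratio.and (eventually_gt_atTop 0)))).mono ?_
  rintro k ⟨hk1, ⟨n, hn1, hn2, hn3⟩, hk2, hk0⟩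
  have hk0' : (0 : ℝ) < k := by exact_mod_cast hk0
  have hl2 : 0 < Real.log 2 := Real.log_pos (by norm_num)
  have hb : 0 < bud k := by unfold bud; positivity
  have hk1' : c' < (Tk (z k) k : ℝ) / bud k := by exact_mod_cast hk1
  rw [lt_div_iff₀ hb] at hk1'
  refine ⟨?_, n, hn1, ?_, hn3⟩
  · refine hk2.trans ?_
    exact mul_le_mul_of_nonneg_left hk1'.le (by linarith)
  · have h5 : (n : ℝ) < 2 ^ (k + 1) := by
      have : 0 ≤ (1 - ε) * (Tk (z k) k : ℝ) := mul_nonneg (by linarith) (Nat.cast_nonneg _)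
      linarith
    exact_mod_cast h5

theorem block_long {S : Set ℕ} {z : ℕ → ℕ} (h : BlockLaw S z) : LongLaw S z := by
  intro ε hε hε1
  filter_upwards [h ε hε hε1] with k hk
  exact hk.2

theorem block_law {S : Set ℕ} {z : ℕ → ℕ} (h : BlockLaw S z) : S.Infinite ∧ LL S = Lz z :=
  ⟨block_infinite h, le_antisymm (block_le h) (long_ge (block_infinite h) (block_long h))⟩

end Pool.Agent.Q120.CL
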