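import Pool.Agent.Q120.CL.C4

/-!
# Monotonicity in the level
-/

set_option autoImplicit false

namespace Pool.Agent.Q120.CL

open Finset Filter Topology Pool.Agent.Q120.MG

theorem Wf_rough (z a t : ℕ) : ∀ (d : DecidablePred (Rough z)), Wf z a t = ((Ioc a (a + t)).filter (Rough z)).card := by
  intro d
  unfold Wf
  congr

open Classical in
theorem Wf_shift (z a t s : ℕ) : Wf z (a + s) t = ((Ioc a (a + t)).filter (fun n => Rough z (n + s))).card := by
  rw [Wf_rough z (a + s) t (Classical.decPred _)]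
  symm
  refine card_bij (fun n _ => n + s) ?_ ?_ ?_
  · intro n hn
    rw [mem_filter, mem_Ioc] at hn ⊢
    exact ⟨by omega, hn.2⟩
  · intro n _ m _ h
    exact Nat.add_right_cancel h
  · intro m hm
    rw [mem_filter, mem_Ioc] at hm
    refine ⟨m - s, ?_, by omega⟩
    rw [mem_filter, mem_Ioc]
    have h1 : m - s + s = m := by omega
    rw [h1]
    exact ⟨by omega, hm.2⟩

theorem rough_succ_prime {p n : ℕ} (hp : p.Prime) : Rough (p + 1) n ↔ Rough p n ∧ ¬ p ∣ n := by
  constructor
  · intro h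
    exact ⟨fun q hq hqp => h q hq (by omega), h p hp (by omega)⟩
  · rintro ⟨h1, h2⟩ q hq hqp
    rcases Nat.lt_or_ge q p with h3 | h3
    · exact h1 q hq h3
    · have : q = p := by omega
      rw [this]
      exact h2

theorem rough_succ {z n : ℕ} (hz : ¬ z.Prime) : Rough (z + 1) n ↔ Rough z n := by
  constructor
  · intro h q hq hqz
    exact h q hq (by omega)
  · intro h q hq hqz
    refine h q hq ?_
    rcases Nat.lt_or_ge q z with h3 | h3
    · exact h3
    · have : q = z := by omega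
      rw [this] at hq
      exact absurd hq hz

theorem Vf_succ_prime {p : ℕ} (hp : p.Prime) : Vf (p + 1) = Vf p * (1 - 1 / (p : ℝ)) := by
  unfold Vf
  rw [range_add_one, filter_insert, if_pos hp, prod_insert (by simp), mul_comm]

theorem Vf_succ {z : ℕ} (hz : ¬ z.Prime) : Vf (z + 1) = Vf z := by
  unfold Vf
  rw [range_add_one, filter_insert, if_neg hz]

theorem exists_shift {p : ℕ} (hp : p.Prime) (n : ℕ) : ∃ j < p, p ∣ n + PQ p * j := by
  haveI := Fact.mk hp
  have h1 : ¬ p ∣ PQ p := by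
    intro h
    unfold PQ at h
    obtain ⟨q, hq, hpq⟩ := (Prime.dvd_finsetProd_iff hp.prime _).1 h
    rw [mem_filter, mem_range] at hq
    have := Nat.le_of_dvd hq.2.pos hpq
    omega
  have h2 : ((PQ p : ℕ) : ZMod p) ≠ 0 := by
    rw [Ne, ZMod.natCast_eq_zero_iff]
    exact h1
  refine ⟨(-(n : ZMod p) * ((PQ p : ℕ) : ZMod p)⁻¹).val, ZMod.val_lt _, ?_⟩
  rw [← ZMod.natCast_eq_zero_iff]
  push_cast
  rw [ZMod.natCast_zmod_val]
  field_simp
  ring

theorem mono_step (z a t : ℕ) : ∃ a' : ℕ, (Wf (z + 1) a' t : ℝ) * Vf z ≤ Wf z a t * Vf (z + 1) := by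
  classical
  by_cases hz : z.Prime
  swap
  · refine ⟨a, ?_⟩
    rw [Vf_succ hz, Wf_rough z a t (Classical.decPred _), Wf_rough (z + 1) a t (Classical.decPred _)]
    rw [filter_congr (fun n _ => rough_succ hz)]
  by_contra hcon
  push Not at hcon
  rw [Vf_succ_prime hz] at hcon
  have hV := Vf_pos z
  have hz0 : (0 : ℝ) < z := by exact_mod_cast hz.pos
  have h1 : ∀ j ∈ range z, (Wf z a t : ℝ) * (1 - 1 / (z : ℝ)) < Wf (z + 1) (a + PQ z * j) t := by
    intro j _
    have h2 := hcon (a + PQ z * j)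
    have h3 : ((Wf z a t : ℝ) * (1 - 1 / (z : ℝ))) * Vf z < (Wf (z + 1) (a + PQ z * j) t : ℝ) * Vf z := by linarith
    exact lt_of_mul_lt_mul_right h3 hV.le
  have h2 := sum_lt_sum_of_nonempty ⟨0, mem_range.2 hz.pos⟩ h1
  rw [sum_const, card_range, nsmul_eq_mul] at h2
  have h3 : (z : ℝ) * ((Wf z a t : ℝ) * (1 - 1 / (z : ℝ))) = Wf z a t * ((z : ℝ) - 1) := by field_simp
  rw [h3] at h2
  have h4 : ∑ j ∈ range z, Wf (z + 1) (a + PQ z * j) t ≤ Wf z a t * (z - 1) := by
    have h5 : ∀ j ∈ range z, Wf (z + 1) (a + PQ z * j) t =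
        ∑ n ∈ (Ioc a (a + t)).filter (Rough z), (if ¬ z ∣ n + PQ z * j then 1 else 0) := by
      intro j _
      rw [Wf_shift, card_filter, sum_filter]
      refine sum_congr rfl (fun n _ => ?_)
      have h6 : Rough z (n + PQ z * j) ↔ Rough z n := by
        have : ∀ j : ℕ, Rough z (n + PQ z * j) ↔ Rough z n := by
          intro j
          induction j with
          | zero => rw [mul_zero, add_zero]
          | succ j ih =>
            rw [show n + PQ z * (j + 1) = (n + PQ z * j) + PQ z by ring, ← ih]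
            exact rough_add z _
        exact this j
      by_cases h7 : Rough z n
      · rw [if_pos h7]
        by_cases h8 : z ∣ n + PQ z * j
        · rw [if_neg (fun h => ((rough_succ_prime hz).1 h).2 h8), if_neg (fun h => h h8)]
        · rw [if_pos ((rough_succ_prime hz).2 ⟨h6.2 h7, h8⟩), if_pos h8]
      · rw [if_neg h7, if_neg (fun h => h7 (h6.1 ((rough_succ_prime hz).1 h).1))]
    rw [sum_congr rfl h5, sum_comm]
    have h6 : ∀ n ∈ (Ioc a (a + t)).filter (Rough z), ∑ j ∈ range z, (if ¬ z ∣ n + PQ z * j then 1 else 0) ≤ z - 1 := by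
      intro n _
      obtain ⟨j, hj, hjn⟩ := exists_shift hz n
      rw [← card_filter]
      have h7 : (range z).filter (fun j => ¬ z ∣ n + PQ z * j) ⊆ (range z).erase j := by
        intro i hi
        rw [mem_filter] at hi
        rw [mem_erase]
        refine ⟨?_, hi.1⟩
        rintro rfl
        exact hi.2 hjn
      refine (card_le_card h7).trans ?_
      rw [card_erase_of_mem (mem_range.2 hj), card_range]
    refine (sum_le_sum h6).trans ?_
    rw [sum_const, smul_eq_mul, Wf_rough z a t (Classical.decPred _)]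
  have h5 : (∑ j ∈ range z, (Wf (z + 1) (a + PQ z * j) t : ℝ)) ≤ Wf z a t * ((z : ℝ) - 1) := by
    have h6 : ((∑ j ∈ range z, Wf (z + 1) (a + PQ z * j) t : ℕ) : ℝ) ≤ ((Wf z a t * (z - 1) : ℕ) : ℝ) := by exact_mod_cast h4
    push_cast at h6
    rw [Nat.cast_sub hz.one_le] at h6
    push_cast at h6
    exact h6
  linarith

/-- A window at a lower level gives a window at a higher level. -/
theorem mono_min {z w : ℕ} (h : z ≤ w) (a t : ℕ) : ∃ a' : ℕ, (Wf w a' t : ℝ) * Vf z ≤ Wf z a t * Vf w := by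
  induction w, h using Nat.le_induction with
  | base => exact ⟨a, le_rfl⟩
  | succ w _ ih =>
    obtain ⟨b, hb⟩ := ih
    obtain ⟨a', ha'⟩ := mono_step w b t
    refine ⟨a', ?_⟩
    have hz := Vf_pos z
    have hw := Vf_pos w
    have hw1 := Vf_pos (w + 1)
    have h1 : (Wf (w + 1) a' t : ℝ) * Vf w * Vf z ≤ Wf w b t * Vf (w + 1) * Vf z := mul_le_mul_of_nonneg_right ha' hz.le
    have h2 : (Wf w b t : ℝ) * Vf z * Vf (w + 1) ≤ Wf z a t * Vf w * Vf (w + 1) := mul_le_mul_of_nonneg_right hb hw1.le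
    have h3 : ((Wf (w + 1) a' t : ℝ) * Vf z) * Vf w ≤ (Wf z a t * Vf (w + 1)) * Vf w := by linarith
    exact le_of_mul_le_mul_right h3 hw

theorem Tk_mono {z w : ℕ} (h : z ≤ w) (k : ℕ) : Tk z k ≤ Tk w k := by
  have hz := Vf_pos z
  have hw := Vf_pos w
  obtain ⟨a, ha⟩ := TT_mem (z := z) (M := Vf z * bud k) (mul_nonneg hz.le (bud_nonneg k))
  have hTT : TT z (Vf z * bud k) = Tk z k := rfl
  rw [hTT] at ha
  obtain ⟨a', ha'⟩ := mono_min h a (Tk z k)
  refine TT_ge (a := a') ?_
  have h1 := mul_le_mul_of_nonneg_right ha hw.le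
  have h2 : (Wf w a' (Tk z k) : ℝ) * Vf z ≤ (Vf w * bud k) * Vf z := by linarith
  exact le_of_mul_le_mul_right h2 hz

end Pool.Agent.Q120.CL
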