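import Pool.Agent.Q120.CL.C7
import Pool.Agent.Q120.CL.Mono

/-!
# The law of the maximal gaps, and the size of the constant
-/

set_option autoImplicit false

namespace Pool.Agent.Q120.CL

open Finset Filter Topology MeasureTheory Pool.Agent.Q120.MG Pool.Agent.Q120.GM

/-- Slightly shorter windows have a definite proportion of rough numbers less. -/
theorem sub_block (low : LOW) {η ε : ℝ} (hη : 0 < η) (hη1 : η ≤ 1) (hε : 0 < ε) (hε1 : ε < 1) : ∃ e : ℝ, 0 < e ∧ e < 1 ∧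
    ∀ᶠ k : ℕ in atTop, ∀ z : ℕ, (z : ℝ) ≤ (k : ℝ) ^ (1 - η) →
      ∃ a : ℕ, (Wf z a ⌊(1 - ε) * Tk z k⌋₊ : ℝ) ≤ (1 - e) * (Vf z * bud k) := by
  obtain ⟨c, hc, h⟩ := win_low low hη hη1
  obtain ⟨e, he⟩ : ∃ e, e = min (c * ε / 2) (1 / 2) := ⟨_, rfl⟩
  have he0 : 0 < e := by rw [he]; exact lt_min (by positivity) (by norm_num)
  have he1 : e ≤ 1 / 2 := by rw [he]; exact min_le_right _ _
  have hec : e ≤ c * ε / 2 := by rw [he]; exact min_le_left _ _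
  refine ⟨e, he0, by linarith, ?_⟩
  filter_upwards [h (ε / 2) (by linarith), bud_tendsto.eventually_ge_atTop 2, eventually_gt_atTop 0] with k h1 h2 hk0 z hz
  have hk0' : (0 : ℝ) < k := by exact_mod_cast hk0
  have hV := Vf_pos z
  have hb := bud_nonneg k
  obtain ⟨a, ha⟩ := TT_mem (z := z) (M := Vf z * bud k) (mul_nonneg hV.le hb)
  have hTT : TT z (Vf z * bud k) = Tk z k := rfl
  rw [hTT] at ha
  have hT := le_Tk z k
  obtain ⟨T, hTd⟩ : ∃ T, T = Tk z k := ⟨_, rfl⟩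
  rw [← hTd] at ha hT ⊢
  have hT0 : (0 : ℝ) ≤ T := Nat.cast_nonneg T
  obtain ⟨t, ht⟩ : ∃ t, t = ⌊(1 - ε) * (T : ℝ)⌋₊ := ⟨_, rfl⟩
  rw [← ht]
  have ht1 : (t : ℝ) ≤ (1 - ε) * T := by
    rw [ht]
    exact Nat.floor_le (mul_nonneg (by linarith) hT0)
  have htT : t ≤ T := by
    have : (t : ℝ) ≤ T := by nlinarith
    exact_mod_cast this
  obtain ⟨r, hr⟩ := Nat.exists_eq_add_of_le htT
  have hr' : (T : ℝ) = t + r := by exact_mod_cast hr
  have hr1 : ε / 2 * bud k ≤ r := by nlinarith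
  have hz' : (z : ℝ) ≤ ((k : ℝ) + 1) ^ (1 - η) := hz.trans (Real.rpow_le_rpow hk0'.le (by linarith) (by linarith))
  have h3 := h1 z hz' (a + t) r hr1
  have h4 : (Wf z a T : ℝ) = Wf z a t + Wf z (a + t) r := by
    rw [hr, Wf_add]
    push_cast
    rfl
  refine ⟨a, ?_⟩
  have h5 : c * (Vf z * (ε / 2 * bud k)) ≤ c * (Vf z * r) :=
    mul_le_mul_of_nonneg_left (mul_le_mul_of_nonneg_left hr1 hV.le) hc.le
  have h6 : e * (Vf z * bud k) ≤ c * ε / 2 * (Vf z * bud k) := mul_le_mul_of_nonneg_right hec (mul_nonneg hV.le hb)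
  have h7 : c * (Vf z * (ε / 2 * bud k)) = c * ε / 2 * (Vf z * bud k) := by ring
  linarith

variable {Ω : Type*} [MeasurableSpace Ω] {μ : Measure Ω} [IsProbabilityMeasure μ] {A : Ω → Set ℕ} {z : ℕ → ℕ}

/-- **Long gaps**, also from lower levels. -/
theorem long_ae (low : LOW) (hA : IsModel μ (pr z) A) {η : ℝ} (hη : 0 < η) (hη1 : η ≤ 1)
    (hz : Tendsto (fun k : ℕ => (z k : ℝ) / k) atTop (𝓝 0)) {w : ℕ → ℕ} (hwz : ∀ᶠ k : ℕ in atTop, w k ≤ z k)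
    (hw : ∀ᶠ k : ℕ in atTop, (w k : ℝ) ≤ (k : ℝ) ^ (1 - η)) : ∀ᵐ ω ∂μ, LongLaw (A ω) w := by
  obtain ⟨C, hC, hCk⟩ := Tk_bound low hη
  have hlow : ∀ j : ℕ, ∀ᵐ ω ∂μ, ∀ᶠ k : ℕ in atTop,
      ∃ n : ℕ, 2 ^ k ≤ n ∧ n + ⌊(1 - 1 / ((j : ℝ) + 2)) * Tk (w k) k⌋₊ < 2 ^ (k + 1) ∧
        ∀ m ∈ A ω, n < m → n + ⌊(1 - 1 / ((j : ℝ) + 2)) * Tk (w k) k⌋₊ < m := by
    intro j
    have hj : (0 : ℝ) < (j : ℝ) + 2 := by positivity
    have hj0 : (0 : ℝ) < 1 / ((j : ℝ) + 2) := by positivity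
    have hj1 : 1 / ((j : ℝ) + 2) < 1 := by
      rw [div_lt_one hj]
      linarith [(Nat.cast_nonneg j : (0 : ℝ) ≤ j)]
    obtain ⟨e, he0, he1, h⟩ := sub_block low hη hη1 hj0 hj1
    have ht : ∀ᶠ k : ℕ in atTop, ((⌊(1 - 1 / ((j : ℝ) + 2)) * Tk (w k) k⌋₊ : ℕ) : ℝ) ≤ C * (k : ℝ) ^ 2 := by
      filter_upwards [hCk, hw] with k h1 h2
      have h3 := h1 (w k) h2
      have hT : (0 : ℝ) ≤ Tk (w k) k := Nat.cast_nonneg _
      refine (Nat.floor_le (mul_nonneg (by linarith) hT)).trans ?_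
      have h4 := bud_upper k
      have h5 : C * bud k ≤ C * (k : ℝ) ^ 2 := mul_le_mul_of_nonneg_left h4 (by linarith)
      nlinarith
    filter_upwards [lower hA hz he0 he1 ht] with ω hω
    filter_upwards [hω, h, hw, hwz] with k h1 h2 h3 h4
    obtain ⟨a, ha⟩ := h2 (w k) h3
    obtain ⟨a', ha'⟩ := mono_min h4 a ⌊(1 - 1 / ((j : ℝ) + 2)) * Tk (w k) k⌋₊
    refine h1 ⟨a', ?_⟩
    have hVw := Vf_pos (w k)
    have hVz := Vf_pos (z k)
    have h5 := mul_le_mul_of_nonneg_right ha hVz.le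
    have h6 : (Wf (z k) a' ⌊(1 - 1 / ((j : ℝ) + 2)) * Tk (w k) k⌋₊ : ℝ) * Vf (w k) ≤ ((1 - e) * (Vf (z k) * bud k)) * Vf (w k) := by
      refine ha'.trans (h5.trans (le_of_eq ?_))
      ring
    exact le_of_mul_le_mul_right h6 hVw
  filter_upwards [ae_all_iff.2 hlow] with ω h2
  intro ε hε hε1
  obtain ⟨j, hj⟩ := exists_nat_gt (1 / ε)
  have hj2 : (0 : ℝ) < (j : ℝ) + 2 := by positivity
  obtain ⟨d, hd⟩ : ∃ d, d = 1 / ((j : ℝ) + 2) := ⟨_, rfl⟩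
  have hdε : d < ε := by
    rw [hd, div_lt_iff₀ hj2]
    rw [div_lt_iff₀ hε] at hj
    nlinarith
  filter_upwards [h2 j, bud_tendsto.eventually_ge_atTop (1 / (ε - d) + 1)] with k h4 h5
  rw [← hd] at h4
  have hT := le_Tk (w k) k
  have hT0 : (0 : ℝ) ≤ Tk (w k) k := Nat.cast_nonneg _
  have hTd : 1 ≤ (ε - d) * (Tk (w k) k : ℝ) := by
    have h6 : 1 / (ε - d) ≤ (Tk (w k) k : ℝ) := by linarith
    rw [div_le_iff₀ (by linarith)] at h6
    linarith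
  obtain ⟨n, hn1, hn2, hn3⟩ := h4
  obtain ⟨t, ht⟩ : ∃ t, t = ⌊(1 - d) * (Tk (w k) k : ℝ)⌋₊ := ⟨_, rfl⟩
  rw [← ht] at hn2 hn3
  have ht1 : (1 - d) * (Tk (w k) k : ℝ) < t + 1 := by rw [ht]; exact Nat.lt_floor_add_one _
  have ht2 : (1 - ε) * (Tk (w k) k : ℝ) ≤ t := by linarith
  refine ⟨n, hn1, ?_, fun m hm hnm => ?_⟩
  · have h6 : ((n + t : ℕ) : ℝ) < ((2 ^ (k + 1) : ℕ) : ℝ) := by exact_mod_cast hn2
    push_cast at h6
    linarith
  · have h6 : ((n + t : ℕ) : ℝ) < m := by exact_mod_cast hn3 m hm hnm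
    push_cast at h6
    linarith

/-- **The law of the maximal gaps.** -/
theorem block_ae (low : LOW) (hA : IsModel μ (pr z) A) {η : ℝ} (hη : 0 < η) (hη1 : η ≤ 1)
    (hz : ∀ᶠ k : ℕ in atTop, (z k : ℝ) ≤ (k : ℝ) ^ (1 - η)) : ∀ᵐ ω ∂μ, BlockLaw (A ω) z := by
  have hup : ∀ j : ℕ, ∀ᵐ ω ∂μ, ∀ᶠ k : ℕ in atTop, ∀ n : ℕ, 2 ^ k ≤ n → n < 2 ^ (k + 1) →
      ∃ m ∈ A ω, n < m ∧ m ≤ n + tu (1 / ((j : ℝ) + 2)) (z k) k := by
    intro j
    have hj : (0 : ℝ) < (j : ℝ) + 2 := by positivity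
    refine upper low hA hη hη1 hz (by positivity) ?_
    rw [div_le_one hj]
    linarith [(Nat.cast_nonneg j : (0 : ℝ) ≤ j)]
  filter_upwards [ae_all_iff.2 hup, long_ae low hA hη hη1 (growth hη hz) (Eventually.of_forall (fun _ => le_rfl)) hz]
    with ω h1 h2
  intro ε hε hε1
  obtain ⟨j, hj⟩ := exists_nat_gt (1 / ε)
  have hj2 : (0 : ℝ) < (j : ℝ) + 2 := by positivity
  obtain ⟨d, hd⟩ : ∃ d, d = 1 / ((j : ℝ) + 2) := ⟨_, rfl⟩
  have hdε : d < ε := by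
    rw [hd, div_lt_iff₀ hj2]
    rw [div_lt_iff₀ hε] at hj
    nlinarith
  filter_upwards [h1 j, h2 ε hε hε1] with k h3 h4
  rw [← hd] at h3
  refine ⟨fun n hn1 hn2 => ?_, h4⟩
  obtain ⟨m, hm, hm1, hm2⟩ := h3 n hn1 hn2
  refine ⟨m, hm, hm1, ?_⟩
  have hT0 : (0 : ℝ) ≤ Tk (z k) k := Nat.cast_nonneg _
  have h6 : (m : ℝ) ≤ n + tu d (z k) k := by exact_mod_cast hm2
  have hd0 : 0 < d := by rw [hd]; positivity
  have h7 : (tu d (z k) k : ℝ) ≤ (1 + d) * Tk (z k) k := Nat.floor_le (by positivity)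
  nlinarith

theorem bud_pos {k : ℕ} (hk : 0 < k) : 0 < bud k := by
  have hk0 : (0 : ℝ) < k := by exact_mod_cast hk
  have hl2 : 0 < Real.log 2 := Real.log_pos (by norm_num)
  unfold bud
  positivity

theorem Lz_ge {z : ℕ → ℕ} {c : ℝ} (h : ∃ᶠ k : ℕ in atTop, c * bud k ≤ Tk (z k) k) : (c : EReal) ≤ Lz z := by
  unfold Lz
  refine le_limsup_of_frequently_le' ?_
  refine (h.and_eventually (eventually_gt_atTop 0)).mono ?_
  rintro k ⟨hk, hk0⟩
  have h1 : c ≤ (Tk (z k) k : ℝ) / bud k := by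
    rw [le_div_iff₀ (bud_pos hk0)]
    exact hk
  exact_mod_cast h1

theorem Lz_le {z : ℕ → ℕ} {c : ℝ} (h : ∀ᶠ k : ℕ in atTop, (Tk (z k) k : ℝ) ≤ c * bud k) : Lz z ≤ (c : EReal) := by
  unfold Lz
  refine limsup_le_of_le (by isBoundedDefault) ?_
  filter_upwards [h, eventually_gt_atTop 0] with k hk hk0
  have h1 : (Tk (z k) k : ℝ) / bud k ≤ c := by
    rw [div_le_iff₀ (bud_pos hk0)]
    exact hk
  exact_mod_cast h1

theorem one_le_Lz (z : ℕ → ℕ) : 1 ≤ Lz z := by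
  rw [← EReal.ge_of_forall_gt_iff_ge]
  intro c hc
  have hc' : c < 1 := by exact_mod_cast hc
  refine Lz_ge (Eventually.frequently ?_)
  filter_upwards [bud_tendsto.eventually_ge_atTop (1 / (1 - c))] with k hk
  rw [div_le_iff₀ (by linarith)] at hk
  have := le_Tk (z k) k
  linarith

theorem Lz_mono {z w : ℕ → ℕ} (h : ∀ᶠ k : ℕ in atTop, z k ≤ w k) : Lz z ≤ Lz w := by
  unfold Lz
  refine limsup_le_limsup ?_ (by isBoundedDefault) (by isBoundedDefault)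
  filter_upwards [h] with k hk
  have h1 : (Tk (z k) k : ℝ) ≤ Tk (w k) k := by exact_mod_cast Tk_mono hk k
  have h2 : (Tk (z k) k : ℝ) / bud k ≤ (Tk (w k) k : ℝ) / bud k := div_le_div_of_nonneg_right h1 (bud_nonneg k)
  exact_mod_cast h2

theorem Lz_small {ε : ℝ} (hε : 0 < ε) : ∃ δ : ℝ, 0 < δ ∧ ∀ z : ℕ → ℕ, (∀ᶠ k : ℕ in atTop, (z k : ℝ) ≤ (k : ℝ) ^ δ) →
    Lz z ≤ ((1 + ε : ℝ) : EReal) := by
  obtain ⟨δ, hδ, h⟩ := Tk_small hε
  refine ⟨δ, hδ, fun z hz => Lz_le ?_⟩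
  filter_upwards [h, hz] with k h1 h2
  exact h1 (z k) h2

theorem Lz_large {δ : ℝ} (hδ : 0 < δ) : ∃ c : ℝ, 0 < c ∧ ∀ z : ℕ → ℕ, (∃ᶠ k : ℕ in atTop, (k : ℝ) ^ δ ≤ z k) →
    ((1 + c : ℝ) : EReal) ≤ Lz z := by
  obtain ⟨c, hc, h⟩ := Tk_large hδ
  refine ⟨c, hc, fun z hz => Lz_ge ?_⟩
  refine (hz.and_eventually h).mono ?_
  rintro k ⟨h1, h2⟩
  exact h2 (z k) h1

theorem Lz_top (low : LOW) {η : ℝ} (hη : 0 < η) {z : ℕ → ℕ} (hz : ∀ᶠ k : ℕ in atTop, (z k : ℝ) ≤ (k : ℝ) ^ (1 - η)) :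
    Lz z < ⊤ := by
  obtain ⟨C, _, h⟩ := Tk_bound low hη
  have h1 : Lz z ≤ (C : EReal) := by
    refine Lz_le ?_
    filter_upwards [h, hz] with k h1 h2
    exact h1 (z k) h2
  exact lt_of_le_of_lt h1 (EReal.coe_lt_top C)

theorem Lz_iff (z : ℕ → ℕ) : Lz z = 1 ↔ Tendsto (fun k : ℕ => Real.log (z k) / Real.log k) atTop (𝓝 0) := by
  have hnn : ∀ k : ℕ, 0 ≤ Real.log (z k) / Real.log k := fun k =>
    div_nonneg (Real.log_natCast_nonneg _) (Real.log_natCast_nonneg _)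
  constructor
  · intro h
    rw [Metric.tendsto_atTop]
    intro δ hδ
    obtain ⟨c, hc, h1⟩ := Lz_large (show 0 < δ / 2 by linarith)
    have h2 : ¬ ∃ᶠ k : ℕ in atTop, (k : ℝ) ^ (δ / 2) ≤ z k := by
      intro hcon
      have h3 := h1 z hcon
      rw [h] at h3
      have h4 : (1 + c : ℝ) ≤ 1 := by exact_mod_cast h3
      linarith
    rw [not_frequently] at h2
    obtain ⟨K, hK⟩ := eventually_atTop.1 (h2.and (eventually_ge_atTop 2))
    refine ⟨K, fun k hk => ?_⟩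
    obtain ⟨h3, h4⟩ := hK k hk
    have hk2 : (2 : ℝ) ≤ k := by exact_mod_cast h4
    have hlk : 0 < Real.log (k : ℝ) := Real.log_pos (by linarith)
    rw [Real.dist_eq, sub_zero, abs_of_nonneg (hnn k), div_lt_iff₀ hlk]
    rcases Nat.eq_zero_or_pos (z k) with h5 | h5
    · rw [h5]
      simp only [Nat.cast_zero, Real.log_zero]
      positivity
    · have h6 : (0 : ℝ) < z k := by exact_mod_cast h5
      have h7 := Real.log_le_log h6 (not_le.1 h3).le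
      rw [Real.log_rpow (by linarith)] at h7
      nlinarith
  · intro h
    apply le_antisymm _ (one_le_Lz z)
    rw [← EReal.le_of_forall_lt_iff_le]
    intro c hc
    have hc' : 1 < c := by exact_mod_cast hc
    obtain ⟨δ, hδ, h1⟩ := Lz_small (show 0 < c - 1 by linarith)
    have h2 := h1 z (by
      filter_upwards [h.eventually (ge_mem_nhds hδ), eventually_ge_atTop 2] with k hk hk2
      have hk2' : (2 : ℝ) ≤ k := by exact_mod_cast hk2
      have hlk : 0 < Real.log (k : ℝ) := Real.log_pos (by linarith)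
      rw [div_le_iff₀ hlk] at hk
      rcases Nat.eq_zero_or_pos (z k) with h5 | h5
      · rw [h5]
        simp only [Nat.cast_zero]
        positivity
      · have h6 : (0 : ℝ) < z k := by exact_mod_cast h5
        rw [← Real.log_rpow (by linarith)] at hk
        exact (Real.log_le_log_iff h6 (by positivity)).1 hk)
    have h3 : ((1 + (c - 1) : ℝ) : EReal) = (c : EReal) := by
      congr 1
      ring
    rw [h3] at h2
    exact h2

theorem floor_two {ε : ℝ} (hε : 0 < ε) (hε1 : ε < 1) (k : ℕ) :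
    ((⌊gr * (1 - ε) * bud k⌋₊ : ℕ) : ℝ) ≤ gr * (1 - ε) * bud k := by
  refine Nat.floor_le ?_
  have h1 := gr_pos
  have h2 := bud_nonneg k
  have h3 : 0 ≤ 1 - ε := by linarith
  positivity

theorem Lz_gran {ε : ℝ} (hε : 0 < ε) : ∃ δ : ℝ, δ < 1 ∧ ∀ z : ℕ → ℕ, (∀ᶠ k : ℕ in atTop, (z k : ℝ) ≤ k) →
    (∃ᶠ k : ℕ in atTop, (k : ℝ) ^ δ ≤ z k) → ((gr - ε : ℝ) : EReal) ≤ Lz z := by
  obtain ⟨e, he⟩ : ∃ e, e = min (ε / 4) (1 / 2) := ⟨_, rfl⟩
  have he0 : 0 < e := by rw [he]; exact lt_min (by linarith) (by norm_num)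
  have he1 : e < 1 := by
    have : e ≤ 1 / 2 := by rw [he]; exact min_le_right _ _
    linarith
  have heε : e ≤ ε / 4 := by rw [he]; exact min_le_left _ _
  obtain ⟨δ, _, hδ1, h⟩ := gran he0 he1
  refine ⟨δ, hδ1, fun z hz1 hz2 => Lz_ge ?_⟩
  refine (hz2.and_eventually (h.and (hz1.and (bud_tendsto.eventually_ge_atTop (2 / ε))))).mono ?_
  rintro k ⟨h1, h2, h3, h4⟩
  have h5 := h2 (z k) h1 h3
  have hb := bud_nonneg k
  have hV := Vf_pos (z k)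
  have h6 : (Wf (z k) 0 ⌊gr * (1 - e) * bud k⌋₊ : ℝ) ≤ Vf (z k) * bud k := by
    refine h5.trans ?_
    have : 0 ≤ Vf (z k) * bud k := mul_nonneg hV.le hb
    nlinarith
  have h7 : ((⌊gr * (1 - e) * bud k⌋₊ : ℕ) : ℝ) ≤ Tk (z k) k := by exact_mod_cast TT_ge h6
  have h8 := Nat.lt_floor_add_one (gr * (1 - e) * bud k)
  rw [div_le_iff₀ hε] at h4
  have h9 : gr * e ≤ ε / 2 := by nlinarith [gr_le, gr_pos]
  nlinarith

/-- The random set is infinite. -/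
theorem infinite_ae (hA : IsModel μ (pr z) A) (hz : Tendsto (fun k : ℕ => (z k : ℝ) / k) atTop (𝓝 0)) :
    ∀ᵐ ω ∂μ, (A ω).Infinite := by
  obtain ⟨B, hB⟩ : ∃ B : ℕ → Set Ω, B = fun k => free A (Ioc (2 ^ k - 1) (2 ^ k - 1 + 2 ^ k)) := ⟨_, rfl⟩
  have hbound : ∀ᶠ k : ℕ in atTop, μ.real (B k) ≤ (Real.exp (-1)) ^ k := by
    have g1 := (q_small hz).eventually (ge_mem_nhds zero_lt_one)
    have g2 := hz.eventually (ge_mem_nhds (show (0 : ℝ) < 1 / 4 by norm_num))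
    have g3 := ev_two 2 0 (show (0 : ℝ) < 1 / 2 by norm_num)
    have g4 := ev_two 4 2 (show (0 : ℝ) < 1 by norm_num)
    filter_upwards [g1, g2, g3, g4, eventually_ge_atTop 1] with k h1 h2 h3 h4 hk1
    have hk0 : (0 : ℝ) < k := by exact_mod_cast hk1
    have hk1' : (1 : ℝ) ≤ k := by exact_mod_cast hk1
    have hl2 : 0 < Real.log 2 := Real.log_pos (by norm_num)
    have hl21 : Real.log 2 ≤ 1 := by linarith [Real.log_two_lt_d9]
    have hV := Vf_pos (z k)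
    have hpos : 0 < 2 ^ k := by positivity
    obtain ⟨a, ha⟩ : ∃ a, a = 2 ^ k - 1 := ⟨_, rfl⟩
    have e2 := free_le hA hk1 (by
      rw [div_le_one (by positivity)] at h1
      exact h1) (a := a) (t := 2 ^ k) (by omega) (by
      rw [pow_succ]
      omega)
    rw [hB]
    simp only []
    rw [← ha]
    refine e2.trans ?_
    rw [← Real.exp_nat_mul, Real.exp_le_exp]
    have e3 := per_low (z k) a (2 ^ k)
    obtain ⟨X, hX⟩ : ∃ X : ℝ, X = 2 ^ k := ⟨_, rfl⟩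
    have hX0 : 0 < X := by rw [hX]; positivity
    have hX1 : 1 ≤ X := by rw [hX]; exact one_le_pow₀ (by norm_num)
    rw [← hX, pow_zero, mul_one] at h3
    rw [← hX, Real.rpow_one] at h4
    have e4 : (PQ (z k) : ℝ) ≤ X ^ ((1 : ℝ) / 2) := by
      have e5 : (PQ (z k) : ℝ) ≤ (4 : ℝ) ^ (z k) := by exact_mod_cast PQ_le (z k)
      refine e5.trans ?_
      rw [div_le_iff₀ hk0] at h2
      have e6 : (4 : ℝ) ^ (z k) = Real.exp ((z k) * Real.log 4) := by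
        rw [← Real.rpow_natCast, Real.rpow_def_of_pos (by norm_num)]
        congr 1
        ring
      have e7 : Real.log 4 = 2 * Real.log 2 := by
        rw [show (4 : ℝ) = 2 ^ 2 by norm_num, Real.log_pow]
        norm_num
      have hlX : Real.log X = k * Real.log 2 := by rw [hX, Real.log_pow]
      rw [e6, Real.rpow_def_of_pos hX0, Real.exp_le_exp, hlX, e7]
      nlinarith
    have e8 : X ^ ((1 : ℝ) / 2) ≤ X / 2 := by
      have e9 : X ^ ((1 : ℝ) / 2) * X ^ ((1 : ℝ) / 2) = X := by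
        rw [← Real.rpow_add hX0]
        norm_num
      have e10 : 0 < X ^ ((1 : ℝ) / 2) := by positivity
      nlinarith
    have e11 : Vf (z k) * (X / 2) ≤ Wf (z k) a (2 ^ k) := by
      refine le_trans ?_ e3
      refine mul_le_mul_of_nonneg_left ?_ hV.le
      push_cast
      rw [← hX]
      linarith
    have e12 : (k : ℝ) ≤ (Wf (z k) a (2 ^ k) : ℝ) / (Vf (z k) * (((k : ℝ) + 1) * Real.log 2)) := by
      rw [le_div_iff₀ (by positivity)]
      refine le_trans ?_ e11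
      have e13 : (k : ℝ) * (((k : ℝ) + 1) * Real.log 2) ≤ X / 2 := by
        have e14 : ((k : ℝ) + 1) * Real.log 2 ≤ 2 * k := by nlinarith
        nlinarith
      calc (k : ℝ) * (Vf (z k) * (((k : ℝ) + 1) * Real.log 2)) = Vf (z k) * (k * (((k : ℝ) + 1) * Real.log 2)) := by ring
        _ ≤ Vf (z k) * (X / 2) := mul_le_mul_of_nonneg_left e13 hV.le
    linarith
  have hsm : Summable (fun k : ℕ => (Real.exp (-1)) ^ k) := by
    refine summable_geometric_of_lt_one (Real.exp_pos _).le ?_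
    rw [Real.exp_lt_one_iff]
    norm_num
  filter_upwards [bc hsm hbound] with ω hω
  rw [Set.infinite_iff_exists_gt]
  intro a
  obtain ⟨k, hk, hka⟩ := (hω.and (eventually_ge_atTop (a + 1))).exists
  rw [hB] at hk
  have hk' : ¬ ∀ n ∈ Ioc (2 ^ k - 1) (2 ^ k - 1 + 2 ^ k), n ∉ A ω := hk
  push Not at hk'
  obtain ⟨n, hn, hnA⟩ := hk'
  rw [mem_Ioc] at hn
  have : k < 2 ^ k := Nat.lt_two_pow_self
  exact ⟨n, hnA, by omega⟩

/-- **The lower bound of Granville** for all levels `k ^ (1 - o(1))` and `o(k)`. -/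
theorem gran_ae (hA : IsModel μ (pr z) A) (hz : Tendsto (fun k : ℕ => (z k : ℝ) / k) atTop (𝓝 0))
    (hz2 : ∀ δ : ℝ, δ < 1 → ∃ᶠ k : ℕ in atTop, (k : ℝ) ^ δ ≤ z k) : ∀ᵐ ω ∂μ, (gr : EReal) ≤ LL (A ω) := by
  have hall : ∀ j : ℕ, ∀ᵐ ω ∂μ, ((gr * (1 - 2 / ((j : ℝ) + 3)) : ℝ) : EReal) ≤ LL (A ω) := by
    intro j
    obtain ⟨ε, hε⟩ : ∃ ε, ε = 1 / ((j : ℝ) + 3) := ⟨_, rfl⟩
    have hj : (0 : ℝ) ≤ j := Nat.cast_nonneg j
    have hε0 : 0 < ε := by rw [hε]; positivity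
    have hε1 : ε ≤ 1 / 3 := by
      rw [hε]
      exact one_div_le_one_div_of_le (by norm_num) (by linarith)
    have he2 : 2 / ((j : ℝ) + 3) = 2 * ε := by rw [hε]; ring
    rw [he2]
    obtain ⟨δ, _, hδ1, h⟩ := gran hε0 (by linarith)
    have hgp := gr_pos
    have hg2 := gr_le
    have ht : ∀ᶠ k : ℕ in atTop, ((⌊gr * (1 - ε) * bud k⌋₊ : ℕ) : ℝ) ≤ 2 * (k : ℝ) ^ 2 := by
      filter_upwards with k
      have h1 := floor_two hε0 (by linarith) k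
      have h2 := bud_upper k
      have h3 : gr * (1 - ε) ≤ 2 := by nlinarith
      have h4 := bud_nonneg k
      calc ((⌊gr * (1 - ε) * bud k⌋₊ : ℕ) : ℝ) ≤ gr * (1 - ε) * bud k := h1
        _ ≤ 2 * bud k := mul_le_mul_of_nonneg_right h3 h4
        _ ≤ 2 * (k : ℝ) ^ 2 := by linarith
    filter_upwards [lower hA hz (show 0 < ε / 2 by linarith) (by linarith) ht, infinite_ae hA hz] with ω h1 h2
    refine LL_ge h2 (t := fun k => ((⌊gr * (1 - ε) * bud k⌋₊ : ℕ) : ℝ)) ?_ (by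
      have : 0 ≤ 1 - 2 * ε := by linarith
      positivity)
    have hzk : ∀ᶠ k : ℕ in atTop, (z k : ℝ) ≤ k := by
      filter_upwards [hz.eventually (ge_mem_nhds zero_lt_one), eventually_gt_atTop 0] with k h3 h4
      have h5 : (0 : ℝ) < k := by exact_mod_cast h4
      rw [div_le_iff₀ h5] at h3
      linarith
    have hratio : ∀ᶠ k : ℕ in atTop, gr * (1 - 2 * ε) * (((k : ℝ) + 1) * Real.log 2) ^ 2 ≤ ((⌊gr * (1 - ε) * bud k⌋₊ : ℕ) : ℝ) := by
      have h4 : Tendsto (fun k : ℕ => (1 + 1 / (k : ℝ)) ^ 2) atTop (𝓝 1) := by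
        have h5 : Tendsto (fun k : ℕ => 1 / (k : ℝ)) atTop (𝓝 0) := tendsto_const_nhds.div_atTop hcast
        have h6 := (h5.const_add 1).pow 2
        norm_num at h6 ⊢
        exact h6
      filter_upwards [h4.eventually (ge_mem_nhds (show (1 : ℝ) < 1 + ε / 2 by linarith)), eventually_gt_atTop 0,
        bud_tendsto.eventually_ge_atTop (2 / (gr * ε))] with k hk hk0 hbk
      have hk0' : (0 : ℝ) < k := by exact_mod_cast hk0
      have e1 : (((k : ℝ) + 1) * Real.log 2) ^ 2 = (1 + 1 / (k : ℝ)) ^ 2 * bud k := by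
        unfold bud
        field_simp
      have hb := bud_nonneg k
      have h5 := Nat.lt_floor_add_one (gr * (1 - ε) * bud k)
      rw [div_le_iff₀ (by positivity)] at hbk
      rw [e1]
      have h6 : gr * (1 - 2 * ε) * ((1 + 1 / (k : ℝ)) ^ 2 * bud k) ≤ gr * (1 - 2 * ε) * ((1 + ε / 2) * bud k) := by
        refine mul_le_mul_of_nonneg_left (mul_le_mul_of_nonneg_right hk hb) ?_
        have : 0 ≤ 1 - 2 * ε := by linarith
        positivity
      have h7 : (1 - 2 * ε) * (1 + ε / 2) ≤ 1 - 3 * ε / 2 := by nlinarith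
      have h8 : gr * (1 - 2 * ε) * ((1 + ε / 2) * bud k) ≤ gr * (1 - 3 * ε / 2) * bud k := by
        have : 0 ≤ gr * bud k := by positivity
        calc gr * (1 - 2 * ε) * ((1 + ε / 2) * bud k) = ((1 - 2 * ε) * (1 + ε / 2)) * (gr * bud k) := by ring
          _ ≤ (1 - 3 * ε / 2) * (gr * bud k) := mul_le_mul_of_nonneg_right h7 this
          _ = gr * (1 - 3 * ε / 2) * bud k := by ring
      nlinarith
    refine ((hz2 δ hδ1).and_eventually (h.and (hzk.and (hratio.and h1)))).mono ?_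
    rintro k ⟨g1, g2, g3, g4, g5⟩
    refine ⟨g4, ?_⟩
    obtain ⟨n, hn1, hn2, hn3⟩ := g5 ⟨0, g2 (z k) g1 g3⟩
    refine ⟨n, hn1, by omega, fun m hm hnm => ?_⟩
    exact_mod_cast hn3 m hm hnm
  filter_upwards [ae_all_iff.2 hall] with ω hω
  rw [← EReal.ge_of_forall_gt_iff_ge]
  intro c hc
  have hc' : c < gr := by exact_mod_cast hc
  obtain ⟨j, hj⟩ := exists_nat_gt (2 * gr / (gr - c))
  refine le_trans ?_ (hω j)
  have hgp := gr_pos
  have hj3 : (0 : ℝ) < (j : ℝ) + 3 := by positivity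
  have h1 : c ≤ gr * (1 - 2 / ((j : ℝ) + 3)) := by
    rw [div_lt_iff₀ (by linarith)] at hj
    have h2 : gr * (1 - 2 / ((j : ℝ) + 3)) = gr - 2 * gr / ((j : ℝ) + 3) := by ring
    rw [h2, le_sub_iff_add_le, ← le_sub_iff_add_le', div_le_iff₀ hj3]
    nlinarith
  exact_mod_cast h1

end Pool.Agent.Q120.CL
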