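import Pool.Agent.Q120.CL.C6
import Pool.Agent.Q120.MG.D6
import Pool.Agent.Q112.LE.Expo

/-!
# Counts in windows longer than `log² x`
-/

set_option autoImplicit false

namespace Pool.Agent.Q120.CL

open Finset Filter Topology MeasureTheory Pool.Agent.Q120.MG Pool.Agent.Q120.GM

theorem exists_window_ge (z t N : ℕ) (hN : 0 < N) {M : ℝ} (h : M * N ≤ (Wf z 0 (t * N) : ℝ)) : ∃ a : ℕ, M ≤ (Wf z a t : ℝ) := by
  by_contra hcon
  push Not at hcon
  have h1 : ∀ N : ℕ, 0 < N → (Wf z 0 (t * N) : ℝ) < M * N := by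
    intro N hN
    induction N with
    | zero => omega
    | succ N ih =>
      rw [mul_add, mul_one, Wf_add, zero_add]
      push_cast
      have h2 := hcon (t * N)
      rcases Nat.eq_zero_or_pos N with h3 | h3
      · subst h3
        rw [mul_zero] at h2 ⊢
        rw [Wf_zero]
        push_cast
        linarith
      · have h4 := ih h3
        linarith
  linarith [h1 N hN]

theorem exists_over {z x t : ℕ} {κ : ℝ} (hκ : 0 < κ) (hκ1 : κ < 1) (hx : (1 + κ) * (Vf z * x) ≤ (Wf z 0 x : ℝ)) (ht : 0 < t)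
    (htx : (t : ℝ) ≤ κ / 4 * x) : ∃ a : ℕ, (1 + κ / 2) * (Vf z * t) ≤ (Wf z a t : ℝ) := by
  have ht0 : (0 : ℝ) < t := by exact_mod_cast ht
  have hx0 : (0 : ℝ) < x := by nlinarith
  refine exists_window_ge z t (x / t + 1) (Nat.succ_pos _) ?_
  have h1 : x ≤ t * (x / t + 1) := by
    have := Nat.lt_mul_div_succ x ht
    omega
  have h2 : (Wf z 0 x : ℝ) ≤ Wf z 0 (t * (x / t + 1)) := by exact_mod_cast Wf_mono z 0 h1
  refine le_trans ?_ (hx.trans h2)
  have h3 : (t : ℝ) * ((x / t + 1 : ℕ) : ℝ) ≤ x + t := by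
    have h4 : t * (x / t + 1) ≤ x + t := by
      have := Nat.mul_div_le x t
      rw [mul_add, mul_one]
      omega
    exact_mod_cast h4
  have hV := (Vf_pos z).le
  have h4 : (1 + κ / 2) * ((x : ℝ) + t) ≤ (1 + κ) * x := by nlinarith [mul_pos hκ hx0, mul_pos (mul_pos hκ hκ) hx0]
  calc (1 + κ / 2) * (Vf z * t) * ((x / t + 1 : ℕ) : ℝ) = Vf z * ((1 + κ / 2) * (t * ((x / t + 1 : ℕ) : ℝ))) := by ring
    _ ≤ Vf z * ((1 + κ / 2) * ((x : ℝ) + t)) := by
      refine mul_le_mul_of_nonneg_left (mul_le_mul_of_nonneg_left h3 (by linarith)) hV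
    _ ≤ Vf z * ((1 + κ) * x) := mul_le_mul_of_nonneg_left h4 hV
    _ = (1 + κ) * (Vf z * x) := by ring

/-- Both kinds of irregular windows, at every length up to a power of `z`. -/
theorem irregular {u : ℝ} (hu : 1 ≤ u) : ∃ κ : ℝ, 0 < κ ∧ κ < 1 ∧ ∃ z₀ : ℕ, ∀ z : ℕ, z₀ ≤ z → ∀ t : ℕ, 0 < t →
    (t : ℝ) ≤ κ * (z : ℝ) ^ u →
      (∃ a : ℕ, (Wf z a t : ℝ) ≤ (1 - κ) * (Vf z * t)) ∧ ∃ a : ℕ, (1 + κ) * (Vf z * t) ≤ (Wf z a t : ℝ) := by
  obtain ⟨_, κ₁, h1, h1', z₁, h₁⟩ := def_holds u hu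
  obtain ⟨_, κ₂, h2, h2', z₂, h₂⟩ := exc_holds u hu
  obtain ⟨κ, hκ⟩ : ∃ κ, κ = min κ₁ κ₂ / 4 := ⟨_, rfl⟩
  have hκ0 : 0 < κ := by
    rw [hκ]
    have := lt_min h1 h2
    linarith
  have hκ1 : 4 * κ ≤ κ₁ := by rw [hκ]; linarith [min_le_left κ₁ κ₂]
  have hκ2 : 4 * κ ≤ κ₂ := by rw [hκ]; linarith [min_le_right κ₁ κ₂]
  refine ⟨κ, hκ0, by linarith, max z₁ z₂, fun z hz t ht htu => ⟨?_, ?_⟩⟩
  · obtain ⟨x, hx1, _, hx3⟩ := h₁ z (le_trans (le_max_left _ _) hz)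
    obtain ⟨a, ha⟩ := exists_sub h1 h1' hx3 ht (by
      have : κ * (z : ℝ) ^ u ≤ κ * x := mul_le_mul_of_nonneg_left hx1 hκ0.le
      have hx0 : (0 : ℝ) ≤ x := Nat.cast_nonneg x
      nlinarith)
    refine ⟨a, ha.trans ?_⟩
    exact mul_le_mul_of_nonneg_right (by linarith) (mul_nonneg (Vf_pos z).le (Nat.cast_nonneg t))
  · obtain ⟨x, hx1, _, hx3⟩ := h₂ z (le_trans (le_max_right _ _) hz)
    obtain ⟨a, ha⟩ := exists_over h2 h2' hx3 ht (by
      have : κ * (z : ℝ) ^ u ≤ κ * x := mul_le_mul_of_nonneg_left hx1 hκ0.le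
      have hx0 : (0 : ℝ) ≤ x := Nat.cast_nonneg x
      nlinarith)
    refine ⟨a, le_trans ?_ ha⟩
    exact mul_le_mul_of_nonneg_right (by linarith) (mul_nonneg (Vf_pos z).le (Nat.cast_nonneg t))

/-- An upper bound from the complete periods. -/
theorem per_up (z a t : ℕ) : (Wf z a t : ℝ) ≤ Vf z * ((t : ℝ) + PQ z) := by
  have h1 : t ≤ PQ z * (t / PQ z + 1) := by
    have := Nat.lt_mul_div_succ t (PQ_pos z)
    omega
  have h2 : (Wf z a t : ℝ) ≤ Wf z a (PQ z * (t / PQ z + 1)) := by exact_mod_cast Wf_mono z a h1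
  refine h2.trans ?_
  rw [Wf_full]
  refine mul_le_mul_of_nonneg_left ?_ (Vf_pos z).le
  have h3 : PQ z * (t / PQ z + 1) ≤ t + PQ z := by
    have := Nat.mul_div_le t (PQ z)
    rw [mul_add, mul_one]
    omega
  exact_mod_cast h3

theorem Wf_le (z a t : ℕ) : Wf z a t ≤ t := by
  classical
  unfold Wf
  refine (card_le_card (filter_subset _ _)).trans ?_
  rw [Nat.card_Ioc]
  omega

/-- The fundamental lemma for all levels and lengths. -/
theorem wf_all {κ : ℝ} (hκ : 0 < κ) (hκ1 : κ ≤ 1) : ∃ s B : ℕ, 1 ≤ s ∧ ∀ z a t : ℕ,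
    |(Wf z a t : ℝ) - Vf z * t| ≤ κ * (Vf z * t) + ((z : ℝ) ^ s + B) := by
  obtain ⟨s, hs, z₀, _, hf⟩ := fund hκ hκ1
  obtain ⟨B, hB⟩ : ∃ B : ℕ, ∀ z : ℕ, z < z₀ → PQ z ≤ B :=
    ⟨(range z₀).sup PQ, fun z hz => Finset.le_sup (f := PQ) (mem_range.2 hz)⟩
  refine ⟨s, B, hs, fun z a t => ?_⟩
  have hs1 : (1 : ℝ) ≤ s := by exact_mod_cast hs
  have hV := Vf_pos z
  have hV1 := Vf_le_one z
  have ht0 : (0 : ℝ) ≤ t := Nat.cast_nonneg t
  have hVt : 0 ≤ Vf z * t := mul_nonneg hV.le ht0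
  have hB0 : (0 : ℝ) ≤ B := Nat.cast_nonneg B
  have hzs : 0 ≤ (z : ℝ) ^ s := by positivity
  rcases Nat.lt_or_ge z z₀ with h1 | h1
  · have h2 := per_low z a t
    have h3 := per_up z a t
    have h4 : (PQ z : ℝ) ≤ B := by exact_mod_cast hB z h1
    have h5 : Vf z * PQ z ≤ B := by
      have : (0 : ℝ) ≤ PQ z := Nat.cast_nonneg _
      nlinarith
    rw [abs_le]
    constructor <;> nlinarith [mul_nonneg hκ.le hVt]
  · rcases Nat.lt_or_ge t (z ^ s) with h2 | h2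
    · have h3 : (t : ℝ) ≤ (z : ℝ) ^ s := by exact_mod_cast h2.le
      have h4 : (Wf z a t : ℝ) ≤ t := by exact_mod_cast Wf_le z a t
      have h5 : (0 : ℝ) ≤ Wf z a t := Nat.cast_nonneg _
      have h6 : Vf z * t ≤ t := mul_le_of_le_one_left ht0 hV1
      rw [abs_le]
      constructor <;> nlinarith [mul_nonneg hκ.le hVt]
    · have h3 := (hf z h1).2 a t h2
      have h4 : κ / s * (Vf z * t) ≤ κ * (Vf z * t) := mul_le_mul_of_nonneg_right (div_le_self hκ.le hs1) hVt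
      linarith

theorem exp_gamma : (1 : ℝ) / 2 < Real.exp (-Real.eulerMascheroniConstant) := by
  have h1 := Real.eulerMascheroniConstant_lt_two_thirds
  have h2 := Real.log_two_gt_d9
  rw [← Real.log_lt_iff_lt_exp (by norm_num), one_div, Real.log_inv]
  linarith

/-- A lower bound for the density. -/
theorem Vf_ge : ∃ C : ℝ, 0 < C ∧ ∀ᶠ k : ℕ in atTop, ∀ z : ℕ, z ≤ k → 1 / Vf z ≤ C * Real.log k := by
  have h1 : ∀ᶠ z : ℕ in atTop, (1 : ℝ) / 4 ≤ Vf z * Real.log z := by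
    refine Vf_lim.eventually (le_mem_nhds ?_)
    have h2 := exp_gamma
    linarith
  obtain ⟨z₀, hz₀⟩ := eventually_atTop.1 h1
  refine ⟨max 4 (1 / Vf (max z₀ 2)), lt_of_lt_of_le (by norm_num) (le_max_left _ _), ?_⟩
  filter_upwards [eventually_ge_atTop 3] with k hk z hz
  have hk3 : (3 : ℝ) ≤ k := by exact_mod_cast hk
  have hlk : 1 ≤ Real.log (k : ℝ) := by
    have h3 := Real.exp_one_lt_d9
    rw [← Real.log_exp 1]
    exact Real.log_le_log (Real.exp_pos 1) (by linarith)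
  have hV := Vf_pos z
  rcases Nat.lt_or_ge z (max z₀ 2) with h2 | h2
  · have h3 : Vf (max z₀ 2) ≤ Vf z := by
      unfold Vf
      refine prod_le_prod_of_subset_of_le_one ?_ ?_ ?_
      · exact filter_subset_filter _ (range_subset_range.2 h2.le)
      · intro p hp
        have h4 : (1 : ℝ) < p := by exact_mod_cast (mem_filter.1 hp).2.one_lt
        have h5 : 1 / (p : ℝ) < 1 := by rw [div_lt_one (by linarith)]; exact h4
        linarith
      · intro p _ _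
        have : 0 ≤ 1 / (p : ℝ) := by positivity
        linarith
    have h4 : 1 / Vf z ≤ 1 / Vf (max z₀ 2) := one_div_le_one_div_of_le (Vf_pos _) h3
    have h5 : 1 / Vf (max z₀ 2) ≤ max 4 (1 / Vf (max z₀ 2)) := le_max_right _ _
    have h6 : 0 < max (4 : ℝ) (1 / Vf (max z₀ 2)) := lt_of_lt_of_le (by norm_num) (le_max_left _ _)
    nlinarith
  · have h3 := hz₀ z (le_trans (le_max_left _ _) h2)
    have hz2 : 2 ≤ z := le_trans (le_max_right _ _) h2
    have hz0 : (0 : ℝ) < z := by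
      have : 0 < z := by omega
      exact_mod_cast this
    have h4 : Real.log z ≤ Real.log k := Real.log_le_log hz0 (by exact_mod_cast hz)
    rw [div_le_iff₀ hV]
    have h5 : (1 : ℝ) / 4 ≤ Vf z * Real.log k := h3.trans (mul_le_mul_of_nonneg_left h4 hV.le)
    have h6 : (4 : ℝ) ≤ max 4 (1 / Vf (max z₀ 2)) := le_max_left _ _
    have h7 : 0 ≤ Vf z * Real.log k := by linarith
    nlinarith

end Pool.Agent.Q120.CL
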