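import Pool.Agent.Q120.CL.M1

/-!
# Concentration of the counts
-/

set_option autoImplicit false

namespace Pool.Agent.Q120.CL

open Finset Filter Topology MeasureTheory Pool.Agent.Q120.MG Pool.Agent.Q120.GM Pool.Agent.Q112.LE

open Classical in
/-- The number of the elements of `S` in `(n, n + t]`. -/
noncomputable def cnt (S : Set ℕ) (n t : ℕ) : ℕ := ((Ioc n (n + t)).filter (· ∈ S)).card

/-- The expected number of elements in `(n, n + t]`. -/
noncomputable def ex (z : ℕ → ℕ) (n t : ℕ) : ℝ := ∑ m ∈ Ioc n (n + t), pr z m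

theorem cnt_add (S : Set ℕ) (n s t : ℕ) : cnt S n (s + t) = cnt S n s + cnt S (n + s) t := by
  classical
  unfold cnt
  rw [← card_union_of_disjoint]
  · congr 1
    rw [← filter_union]
    congr 1
    ext m
    simp only [mem_union, mem_Ioc]
    omega
  · rw [Finset.disjoint_left]
    intro m hm hm'
    rw [mem_filter, mem_Ioc] at hm hm'
    omega

theorem ex_add (z : ℕ → ℕ) (n s t : ℕ) : ex z n (s + t) = ex z n s + ex z (n + s) t := by
  unfold ex
  rw [← sum_union]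
  · congr 1
    ext m
    simp only [mem_union, mem_Ioc]
    omega
  · rw [Finset.disjoint_left]
    intro m hm hm'
    rw [mem_Ioc] at hm hm'
    omega

variable {Ω : Type*} [MeasurableSpace Ω] {μ : Measure Ω} [IsProbabilityMeasure μ] {A : Ω → Set ℕ} {z : ℕ → ℕ}

omit [MeasurableSpace Ω] in
theorem num_cnt (A : Ω → Set ℕ) (n t : ℕ) (ω : Ω) : num (Ioc n (n + t)) (fun m => {ω | m ∈ A ω}) ω = cnt (A ω) n t := by
  classical
  unfold num cnt
  rw [card_filter]
  push_cast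
  refine sum_congr rfl (fun m _ => ?_)
  by_cases h : m ∈ A ω
  · rw [Set.indicator_of_mem (show ω ∈ {ω | m ∈ A ω} from h), if_pos h]
  · rw [Set.indicator_of_notMem (show ω ∉ {ω | m ∈ A ω} from h), if_neg h]

theorem mutual_single {p : ℕ → ℝ} (hA : IsModel μ p A) (J : Finset ℕ) : Mutual μ J (fun m => {ω | m ∈ A ω}) := by
  intro T _
  have h1 := real_all hA T
  have h2 : all A T = ⋂ a ∈ T, {ω | a ∈ A ω} := by
    ext ω
    simp [all]
  rw [← h2, h1]
  exact prod_congr rfl (fun i _ => (hA.prob i).symm)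

/-- Deviations of the count in one window. -/
theorem dev_window {p : ℕ → ℝ} (hA : IsModel μ p A) (n t : ℕ) {B T : ℝ} (hB : 0 < B) (hT : 0 ≤ T) (hTB : T ≤ 2 * B)
    (hM : ∑ m ∈ Ioc n (n + t), p m ≤ B) :
    μ.real {ω | T < |(cnt (A ω) n t : ℝ) - ∑ m ∈ Ioc n (n + t), p m|} ≤ 2 * Real.exp (-(T ^ 2 / (4 * B))) := by
  obtain ⟨M, hMd⟩ : ∃ M, M = ∑ m ∈ Ioc n (n + t), p m := ⟨_, rfl⟩
  obtain ⟨l, hl⟩ : ∃ l, l = T / (2 * B) := ⟨_, rfl⟩
  have hl0 : 0 ≤ l := by rw [hl]; positivity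
  have hl1 : l ≤ 1 := by
    rw [hl, div_le_one (by positivity)]
    exact hTB
  have hG : ∀ j ∈ Ioc n (n + t), MeasurableSet ((fun m => {ω | m ∈ A ω}) j) := fun j _ => hA.meas j
  have hm := mutual_single hA (Ioc n (n + t))
  have hsum : ∑ a ∈ Ioc n (n + t), μ.real ((fun m => {ω | m ∈ A ω}) a) = M := by
    rw [hMd]
    exact sum_congr rfl (fun i _ => hA.prob i)
  have h1 := tail_up hG hm (l := l) hl0 (M + T)
  have h2 := tail_down hG hm (l := l) hl0 (M - T)
  rw [hsum] at h1 h2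
  rw [← hMd] at hM ⊢
  have hM0 : 0 ≤ M := by rw [hMd]; exact sum_nonneg (fun i _ => p_nonneg hA i)
  have e1 : Real.exp l - 1 - l ≤ l ^ 2 :=
    (le_abs_self _).trans (Real.abs_exp_sub_one_sub_id_le (by rw [abs_of_nonneg hl0]; exact hl1))
  have e2 : Real.exp (-l) - 1 - (-l) ≤ (-l) ^ 2 :=
    (le_abs_self _).trans (Real.abs_exp_sub_one_sub_id_le (by rw [abs_neg, abs_of_nonneg hl0]; exact hl1))
  have e3 : l ^ 2 * B - l * T = -(T ^ 2 / (4 * B)) := by
    rw [hl]
    field_simp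
    ring
  have e4 : l ^ 2 * M ≤ l ^ 2 * B := mul_le_mul_of_nonneg_left hM (sq_nonneg l)
  have h3 : {ω | T < |(cnt (A ω) n t : ℝ) - M|} ⊆ {ω | M + T ≤ num (Ioc n (n + t)) (fun m => {ω | m ∈ A ω}) ω} ∪
      {ω | num (Ioc n (n + t)) (fun m => {ω | m ∈ A ω}) ω ≤ M - T} := by
    intro ω hω
    have hω' : T < |(cnt (A ω) n t : ℝ) - M| := hω
    rcases lt_abs.1 hω' with h | h
    · left
      show M + T ≤ num (Ioc n (n + t)) (fun m => {ω | m ∈ A ω}) ω
      rw [num_cnt]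
      linarith
    · right
      show num (Ioc n (n + t)) (fun m => {ω | m ∈ A ω}) ω ≤ M - T
      rw [num_cnt]
      linarith
  refine (measureReal_mono h3 (measure_ne_top _ _)).trans ((measureReal_union_le _ _).trans ?_)
  have h4 : Real.exp ((Real.exp l - 1) * M - l * (M + T)) ≤ Real.exp (-(T ^ 2 / (4 * B))) := by
    rw [Real.exp_le_exp]
    nlinarith
  have h5 : Real.exp ((Real.exp (-l) - 1) * M + l * (M - T)) ≤ Real.exp (-(T ^ 2 / (4 * B))) := by
    rw [Real.exp_le_exp]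
    nlinarith
  linarith

theorem log_ev : ∀ᶠ k : ℕ in atTop, Real.log ((k : ℝ) + 1) ≤ 2 * Real.log k := by
  filter_upwards [eventually_ge_atTop 2] with k hk
  have hk2 : (2 : ℝ) ≤ k := by exact_mod_cast hk
  rw [← Real.log_rpow (by linarith)]
  refine Real.log_le_log (by linarith) ?_
  rw [Real.rpow_two]
  nlinarith

/-- The probabilities in the blocks `k` and `k + 1`. -/
theorem pr_bound (hz : ∀ᶠ k : ℕ in atTop, z k ≤ k) : ∃ C : ℝ, 0 < C ∧ ∀ᶠ k : ℕ in atTop, ∀ m : ℕ, 2 ^ k ≤ m → m < 2 ^ (k + 2) →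
    pr z m ≤ C * (Real.log k / k) := by
  obtain ⟨C, hC, h⟩ := Vf_ge
  refine ⟨4 * C, by positivity, ?_⟩
  have hs := (tendsto_add_atTop_nat 1)
  filter_upwards [h, hs.eventually h, hz, hs.eventually hz, log_ev, eventually_ge_atTop 2] with k h1 h2 h3 h4 h5 hk m hm1 hm2
  have hk2 : (2 : ℝ) ≤ k := by exact_mod_cast hk
  have hl2 := Real.log_two_gt_d9
  have hl20 : 0 < Real.log 2 := by linarith
  have hlk : 0 ≤ Real.log (k : ℝ) := Real.log_natCast_nonneg k
  have key : ∀ j : ℕ, 1 ≤ j → (k : ℝ) ≤ j → 1 / Vf (z j) ≤ C * (2 * Real.log k) → 2 ^ j ≤ m → m < 2 ^ (j + 1) →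
      pr z m ≤ 4 * C * (Real.log k / k) := by
    intro j hj hkj hV hj1 hj2
    refine (pr_le hj hj1 hj2).trans ?_
    have hVp := Vf_pos (z j)
    have hj0 : (0 : ℝ) < j := by exact_mod_cast hj
    have e1 : 1 / (Vf (z j) * (j * Real.log 2)) = 1 / Vf (z j) * (1 / (j * Real.log 2)) := by field_simp
    rw [e1]
    have e2 : 1 / ((j : ℝ) * Real.log 2) ≤ 2 / k := by
      rw [div_le_div_iff₀ (by positivity) (by linarith)]
      nlinarith
    calc 1 / Vf (z j) * (1 / ((j : ℝ) * Real.log 2)) ≤ C * (2 * Real.log k) * (2 / k) :=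
          mul_le_mul hV e2 (by positivity) (by positivity)
      _ = 4 * C * (Real.log k / k) := by ring
  rcases Nat.lt_or_ge m (2 ^ (k + 1)) with hc | hc
  · refine key k (by omega) le_rfl ?_ hm1 hc
    refine (h1 (z k) h3).trans ?_
    nlinarith
  · refine key (k + 1) (by omega) (by push_cast; linarith) ?_ hc hm2
    refine (h2 (z (k + 1)) h4).trans ?_
    push_cast
    nlinarith

/-- **Concentration**, uniformly in all windows. -/
theorem conc (hA : IsModel μ (pr z) A) (hz : ∀ᶠ k : ℕ in atTop, z k ≤ k) {η : ℝ} (hη : 0 < η) {ε : ℝ} (hε : 0 < ε) (hε1 : ε ≤ 1) :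
    ∀ᵐ ω ∂μ, ∀ᶠ k : ℕ in atTop, ∀ n : ℕ, 2 ^ k ≤ n → n < 2 ^ (k + 1) → ∀ t : ℕ, (k : ℝ) ^ (2 + η) ≤ t → t ≤ 2 ^ k →
      |(cnt (A ω) n t : ℝ) - ex z n t| ≤ ε * (t / k) := by
  classical
  obtain ⟨C, hC, hpr⟩ := pr_bound hz
  obtain ⟨J, hJ⟩ : ∃ J : ℕ → Finset (ℕ × ℕ), J = fun (k : ℕ) => ((Ico (2 ^ k) (2 ^ (k + 1))) ×ˢ (range (2 ^ k + 1))).filter
    (fun q : ℕ × ℕ => (k : ℝ) ^ (2 + η) ≤ (q.2 : ℝ)) := ⟨_, rfl⟩
  obtain ⟨B, hB⟩ : ∃ B : ℕ → Set Ω, B = fun (k : ℕ) => ⋃ q ∈ J k, {ω | ε * ((q.2 : ℝ) / k) < |(cnt (A ω) q.1 q.2 : ℝ) - ex z q.1 q.2|} :=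
    ⟨_, rfl⟩
  have hbound : ∀ᶠ k : ℕ in atTop, μ.real (B k) ≤ 4 * (Real.exp (-1)) ^ k := by
    have g1 : ∀ᶠ k : ℕ in atTop, 12 * C / ε ^ 2 * Real.log k ≤ (k : ℝ) ^ η := by
      have h1 := (isLittleO_log_rpow_atTop hη).bound (show 0 < 1 / (12 * C / ε ^ 2) by positivity)
      filter_upwards [hcast.eventually h1, eventually_ge_atTop 1] with k hk hk1
      have hk1' : (1 : ℝ) ≤ k := by exact_mod_cast hk1
      rw [Real.norm_of_nonneg (Real.log_nonneg hk1'), Real.norm_of_nonneg (by positivity)] at hk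
      have h2 : 0 < 12 * C / ε ^ 2 := by positivity
      calc 12 * C / ε ^ 2 * Real.log k ≤ 12 * C / ε ^ 2 * (1 / (12 * C / ε ^ 2) * (k : ℝ) ^ η) := mul_le_mul_of_nonneg_left hk h2.le
        _ = (k : ℝ) ^ η := by field_simp
    have g2 : ∀ᶠ k : ℕ in atTop, 1 ≤ C * Real.log k := by
      have h1 : Tendsto (fun k : ℕ => C * Real.log (k : ℝ)) atTop atTop :=
        Tendsto.const_mul_atTop hC (Real.tendsto_log_atTop.comp hcast)
      exact h1.eventually_ge_atTop 1
    filter_upwards [hpr, g1, g2, eventually_ge_atTop 2] with k h1 h2 h3 hk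
    have hk2 : (2 : ℝ) ≤ k := by exact_mod_cast hk
    have hk0 : (0 : ℝ) < k := by linarith
    have hlk : 0 < Real.log (k : ℝ) := Real.log_pos (by linarith)
    have hone : ∀ q ∈ J k, μ.real {ω | ε * ((q.2 : ℝ) / k) < |(cnt (A ω) q.1 q.2 : ℝ) - ex z q.1 q.2|} ≤ 2 * Real.exp (-(3 * k)) := by
      intro q hq
      obtain ⟨n, t⟩ := q
      rw [hJ, mem_filter, mem_product, mem_Ico, mem_range] at hq
      simp only [] at hq ⊢
      obtain ⟨⟨⟨hn1, hn2⟩, ht2⟩, ht1⟩ := hq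
      have ht0 : (0 : ℝ) < t := lt_of_lt_of_le (by positivity) ht1
      have hM : ∑ m ∈ Ioc n (n + t), pr z m ≤ C * (Real.log k / k) * t := by
        have e1 : ∀ m ∈ Ioc n (n + t), pr z m ≤ C * (Real.log k / k) := by
          intro m hm
          rw [mem_Ioc] at hm
          refine h1 m (by omega) ?_
          have : 2 ^ (k + 2) = 2 ^ (k + 1) + 2 ^ (k + 1) := by ring
          have : 2 ^ (k + 1) = 2 ^ k + 2 ^ k := by ring
          omega
        refine (sum_le_sum e1).trans (le_of_eq ?_)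
        rw [sum_const, Nat.card_Ioc, nsmul_eq_mul, Nat.add_sub_cancel_left]
        ring
      have hBpos : 0 < C * (Real.log k / k) * t := by positivity
      have h4 := dev_window hA n t (B := C * (Real.log k / k) * t) (T := ε * ((t : ℝ) / k)) hBpos (by positivity) (by
        have e1 : 2 * (C * (Real.log k / k) * t) = 2 * (C * Real.log k) * ((t : ℝ) / k) := by ring
        rw [e1]
        exact mul_le_mul_of_nonneg_right (by linarith) (by positivity)) hM
      refine h4.trans ?_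
      have e2 : 3 * (k : ℝ) ≤ (ε * ((t : ℝ) / k)) ^ 2 / (4 * (C * (Real.log k / k) * t)) := by
        have e3 : (ε * ((t : ℝ) / k)) ^ 2 / (4 * (C * (Real.log k / k) * t)) = ε ^ 2 * t / (4 * C * (k * Real.log k)) := by
          field_simp
        rw [e3, le_div_iff₀ (by positivity)]
        have e4 : (k : ℝ) ^ (2 + η) = (k : ℝ) ^ 2 * (k : ℝ) ^ η := by
          rw [Real.rpow_add hk0, Real.rpow_two]
        calc 3 * (k : ℝ) * (4 * C * (k * Real.log k)) = ε ^ 2 * ((k : ℝ) ^ 2 * (12 * C / ε ^ 2 * Real.log k)) := by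
              field_simp
              ring
          _ ≤ ε ^ 2 * ((k : ℝ) ^ 2 * (k : ℝ) ^ η) := by
            refine mul_le_mul_of_nonneg_left (mul_le_mul_of_nonneg_left h2 (by positivity)) (by positivity)
          _ = ε ^ 2 * (k : ℝ) ^ (2 + η) := by rw [e4]
          _ ≤ ε ^ 2 * t := mul_le_mul_of_nonneg_left ht1 (by positivity)
      have e5 : Real.exp (-((ε * ((t : ℝ) / k)) ^ 2 / (4 * (C * (Real.log k / k) * t)))) ≤ Real.exp (-(3 * k)) := by
        rw [Real.exp_le_exp]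
        linarith
      linarith
    rw [hB]
    refine (measureReal_biUnion_finset_le _ _).trans ((sum_le_sum hone).trans ?_)
    rw [sum_const, nsmul_eq_mul]
    have hcard : ((J k).card : ℝ) ≤ 2 * (2 : ℝ) ^ k * 2 ^ k := by
      have e1 : (J k).card ≤ 2 ^ k * (2 ^ k + 1) := by
        rw [hJ]
        refine (card_le_card (filter_subset _ _)).trans ?_
        rw [card_product, Nat.card_Ico, card_range]
        have : 2 ^ (k + 1) - 2 ^ k = 2 ^ k := by
          rw [pow_succ]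
          omega
        rw [this]
      have e2 : ((J k).card : ℝ) ≤ (2 : ℝ) ^ k * (2 ^ k + 1) := by exact_mod_cast e1
      have e3 : (1 : ℝ) ≤ 2 ^ k := one_le_pow₀ (by norm_num)
      nlinarith
    have h2e : (2 : ℝ) ^ k ≤ Real.exp k := by
      have : (2 : ℝ) ≤ Real.exp 1 := by linarith [Real.exp_one_gt_d9]
      calc (2 : ℝ) ^ k ≤ (Real.exp 1) ^ k := pow_le_pow_left₀ (by norm_num) this k
        _ = Real.exp k := by rw [← Real.exp_nat_mul, mul_one]
    have h3e : (2 : ℝ) ^ k * 2 ^ k ≤ Real.exp k * Real.exp k := mul_le_mul h2e h2e (by positivity) (Real.exp_pos _).le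
    have h4e : Real.exp (-(3 * (k : ℝ))) = Real.exp (-k) * Real.exp (-k) * Real.exp (-k) := by
      rw [← Real.exp_add, ← Real.exp_add]
      congr 1
      ring
    have h5e : Real.exp (k : ℝ) * Real.exp (-(k : ℝ)) = 1 := by
      rw [← Real.exp_add]
      simp
    have h6e : (Real.exp (-1)) ^ k = Real.exp (-(k : ℝ)) := by
      rw [← Real.exp_nat_mul]
      congr 1
      ring
    have hp := Real.exp_pos (-(k : ℝ))
    calc ((J k).card : ℝ) * (2 * Real.exp (-(3 * (k : ℝ)))) ≤ (2 * (2 : ℝ) ^ k * 2 ^ k) * (2 * Real.exp (-(3 * (k : ℝ)))) :=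
          mul_le_mul_of_nonneg_right hcard (by positivity)
      _ = 4 * ((2 : ℝ) ^ k * 2 ^ k) * Real.exp (-(3 * (k : ℝ))) := by ring
      _ ≤ 4 * (Real.exp k * Real.exp k) * Real.exp (-(3 * (k : ℝ))) := by
        refine mul_le_mul_of_nonneg_right (by linarith) (Real.exp_pos _).le
      _ = 4 * (Real.exp k * Real.exp (-k)) * (Real.exp k * Real.exp (-k)) * Real.exp (-k) := by
        rw [h4e]
        ring
      _ = 4 * (Real.exp (-1)) ^ k := by
        rw [h5e, h6e]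
        ring
  have hsm : Summable (fun k : ℕ => 4 * (Real.exp (-1)) ^ k) := by
    refine (summable_geometric_of_lt_one (Real.exp_pos _).le ?_).mul_left 4
    rw [Real.exp_lt_one_iff]
    norm_num
  filter_upwards [bc hsm hbound] with ω hω
  filter_upwards [hω] with k hk n hn1 hn2 t ht1 ht2
  rw [hB] at hk
  by_contra hcon
  push Not at hcon
  refine hk (Set.mem_biUnion (x := (n, t)) ?_ hcon)
  rw [hJ]
  exact mem_coe.2 (mem_filter.2 ⟨mem_product.2 ⟨mem_Ico.2 ⟨hn1, hn2⟩, mem_range.2 (Nat.lt_succ_of_le ht2)⟩, ht1⟩)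

end Pool.Agent.Q120.CL
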