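import Pool.Agent.Q120.CL.M2

/-!
# The densities of the windows of length `(log x) ^ a`
-/

set_option autoImplicit false

namespace Pool.Agent.Q120.CL

open Finset Filter Topology MeasureTheory Pool.Agent.Q120.MG Pool.Agent.Q120.GM

/-- The length of the window. -/
noncomputable def wl (a x : ℝ) : ℕ := ⌊x + Real.log x ^ a⌋₊ - ⌊x⌋₊

/-- The normalised number of elements of `S` in `(x, x + (log x) ^ a]`. -/
noncomputable def Ra (S : Set ℕ) (a x : ℝ) : ℝ :=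
  Real.log x / Real.log x ^ a * ((cnt S 0 ⌊x + Real.log x ^ a⌋₊ : ℝ) - (cnt S 0 ⌊x⌋₊ : ℝ))

/-- The normalised expected number of elements in `(x, x + (log x) ^ a]`. -/
noncomputable def Da (z : ℕ → ℕ) (a x : ℝ) : ℝ :=
  Real.log x / Real.log x ^ a * ∑ m ∈ Ioc ⌊x⌋₊ ⌊x + Real.log x ^ a⌋₊, pr z m

theorem kx_tendsto : Tendsto (fun x : ℝ => Nat.log 2 ⌊x⌋₊) atTop atTop := by
  rw [tendsto_atTop]
  intro K
  filter_upwards [eventually_ge_atTop ((2 : ℝ) ^ K)] with x hx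
  exact Nat.le_log_of_pow_le (by norm_num) (Nat.le_floor (by push_cast; exact hx))

/-- The basic inequalities for the window of `x`. -/
theorem basics {a x : ℝ} (hx : 2 ≤ x) :
    2 ^ (Nat.log 2 ⌊x⌋₊) ≤ ⌊x⌋₊ ∧ ⌊x⌋₊ < 2 ^ (Nat.log 2 ⌊x⌋₊ + 1) ∧
    ((Nat.log 2 ⌊x⌋₊ : ℕ) : ℝ) * Real.log 2 ≤ Real.log x ∧ Real.log x ≤ (((Nat.log 2 ⌊x⌋₊ : ℕ) : ℝ) + 1) * Real.log 2 ∧
    Real.log x ^ a - 1 ≤ wl a x ∧ (wl a x : ℝ) ≤ Real.log x ^ a + 1 ∧ ⌊x⌋₊ + wl a x = ⌊x + Real.log x ^ a⌋₊ := by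
  have h2 : 2 ≤ ⌊x⌋₊ := Nat.le_floor (by push_cast; exact hx)
  obtain ⟨k, hk⟩ : ∃ k, k = Nat.log 2 ⌊x⌋₊ := ⟨_, rfl⟩
  rw [← hk]
  have h3 : 2 ^ k ≤ ⌊x⌋₊ := by rw [hk]; exact Nat.pow_log_le_self 2 (by omega)
  have h4 : ⌊x⌋₊ < 2 ^ (k + 1) := by rw [hk]; exact Nat.lt_pow_succ_log_self (by norm_num) _
  have h5 := Nat.floor_le (by linarith : 0 ≤ x)
  have h6 := Nat.lt_floor_add_one x
  have h3' : (2 : ℝ) ^ k ≤ x := by
    have : ((2 ^ k : ℕ) : ℝ) ≤ ⌊x⌋₊ := by exact_mod_cast h3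
    push_cast at this
    linarith
  have h4' : x ≤ (2 : ℝ) ^ (k + 1) := by
    have : ((⌊x⌋₊ + 1 : ℕ) : ℝ) ≤ ((2 ^ (k + 1) : ℕ) : ℝ) := by exact_mod_cast h4
    push_cast at this
    linarith
  have hlx : 0 ≤ Real.log x := Real.log_nonneg (by linarith)
  have hh : 0 ≤ Real.log x ^ a := by positivity
  have h7 := Nat.floor_le (by linarith : 0 ≤ x + Real.log x ^ a)
  have h8 := Nat.lt_floor_add_one (x + Real.log x ^ a)
  have h9 : ⌊x⌋₊ ≤ ⌊x + Real.log x ^ a⌋₊ := Nat.floor_mono (by linarith)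
  have h10 : ⌊x⌋₊ + wl a x = ⌊x + Real.log x ^ a⌋₊ := by
    unfold wl
    omega
  have h11 : ((⌊x⌋₊ : ℕ) : ℝ) + wl a x = ((⌊x + Real.log x ^ a⌋₊ : ℕ) : ℝ) := by exact_mod_cast h10
  refine ⟨h3, h4, ?_, ?_, by linarith, by linarith, h10⟩
  · have := Real.log_le_log (by positivity) h3'
    rw [Real.log_pow] at this
    exact this
  · have := Real.log_le_log (by linarith) h4'
    rw [Real.log_pow] at this
    push_cast at this
    exact this

theorem Ra_eq (S : Set ℕ) {a x : ℝ} (hx : 2 ≤ x) : Ra S a x = Real.log x / Real.log x ^ a * cnt S ⌊x⌋₊ (wl a x) := by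
  obtain ⟨_, _, _, _, _, _, h⟩ := basics (a := a) hx
  unfold Ra
  rw [← h, cnt_add, zero_add]
  push_cast
  ring

theorem Da_eq (z : ℕ → ℕ) {a x : ℝ} (hx : 2 ≤ x) : Da z a x = Real.log x / Real.log x ^ a * ex z ⌊x⌋₊ (wl a x) := by
  obtain ⟨_, _, _, _, _, _, h⟩ := basics (a := a) hx
  unfold Da ex
  rw [h]

/-- The window is much longer than `k ^ b`, `b < a`. -/
theorem long_window {a b : ℝ} (ha : 0 < a) (hb : b < a) (C : ℝ) : ∀ᶠ k : ℕ in atTop, C * (k : ℝ) ^ b ≤ ((k : ℝ) * Real.log 2) ^ a := by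
  have hl2 : 0 < Real.log 2 := Real.log_pos (by norm_num)
  have h1 : Tendsto (fun k : ℕ => (k : ℝ) ^ (a - b)) atTop atTop := (tendsto_rpow_atTop (by linarith)).comp hcast
  filter_upwards [h1.eventually_ge_atTop (C / Real.log 2 ^ a), eventually_gt_atTop 0] with k hk hk0
  have hk0' : (0 : ℝ) < k := by exact_mod_cast hk0
  rw [Real.mul_rpow hk0'.le hl2.le]
  have h2 : (k : ℝ) ^ a = (k : ℝ) ^ (a - b) * (k : ℝ) ^ b := by
    rw [← Real.rpow_add hk0']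
    congr 1
    ring
  have h3 : 0 < Real.log 2 ^ a := by positivity
  have h4 : 0 ≤ (k : ℝ) ^ b := by positivity
  rw [div_le_iff₀ h3] at hk
  rw [h2]
  nlinarith

theorem short_window (a : ℝ) : ∀ᶠ k : ℕ in atTop, (((k : ℝ) + 1) * Real.log 2) ^ a + 1 ≤ 2 ^ k := by
  have hl2 : 0 < Real.log 2 := Real.log_pos (by norm_num)
  have hl21 : Real.log 2 ≤ 1 := by linarith [Real.log_two_lt_d9]
  obtain ⟨N, hN⟩ := exists_nat_ge a
  filter_upwards [ev_two (2 ^ N + 1) N (show (0 : ℝ) < 1 by norm_num), eventually_ge_atTop 1,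
    hcast.eventually_ge_atTop (1 / Real.log 2)] with k hk hk1 hk2
  have hk1' : (1 : ℝ) ≤ k := by exact_mod_cast hk1
  rw [Real.rpow_one] at hk
  have hbase : 1 ≤ ((k : ℝ) + 1) * Real.log 2 := by
    rw [div_le_iff₀ hl2] at hk2
    nlinarith
  have h1 : (((k : ℝ) + 1) * Real.log 2) ^ a ≤ (((k : ℝ) + 1) * Real.log 2) ^ (N : ℝ) :=
    Real.rpow_le_rpow_of_exponent_le hbase hN
  rw [Real.rpow_natCast] at h1
  have h2 : (((k : ℝ) + 1) * Real.log 2) ^ N ≤ (2 * (k : ℝ)) ^ N :=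
    pow_le_pow_left₀ (by positivity) (by nlinarith) N
  have h3 : 1 ≤ (k : ℝ) ^ N := one_le_pow₀ hk1'
  rw [mul_pow 2 (k : ℝ) N] at h2
  calc (((k : ℝ) + 1) * Real.log 2) ^ a + 1 ≤ 2 ^ N * (k : ℝ) ^ N + (k : ℝ) ^ N := by linarith
    _ = (2 ^ N + 1) * (k : ℝ) ^ N := by ring
    _ ≤ 2 ^ k := hk

theorem ratio_ev (a : ℝ) {ε : ℝ} (hε : 0 < ε) : ∀ᶠ k : ℕ in atTop,
    (((k : ℝ) + 1) * Real.log 2) ^ a + 2 ≤ (1 + ε) * ((k : ℝ) * Real.log 2) ^ a ∨ a ≤ 0 := by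
  rcases le_or_gt a 0 with ha | ha
  · exact Eventually.of_forall (fun _ => Or.inr ha)
  have hl2 : 0 < Real.log 2 := Real.log_pos (by norm_num)
  have h1 : Tendsto (fun k : ℕ => (1 + 1 / (k : ℝ)) ^ a) atTop (𝓝 1) := by
    have h5 : Tendsto (fun k : ℕ => 1 / (k : ℝ)) atTop (𝓝 0) := tendsto_const_nhds.div_atTop hcast
    have h6 := (h5.const_add 1).rpow_const (p := a) (Or.inl (by norm_num))
    simpa using h6
  filter_upwards [h1.eventually (ge_mem_nhds (show (1 : ℝ) < 1 + ε / 2 by linarith)), long_window ha ha (4 / ε),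
    eventually_gt_atTop 0] with k hk h2 hk0
  left
  have hk0' : (0 : ℝ) < k := by exact_mod_cast hk0
  have h3 : (((k : ℝ) + 1) * Real.log 2) ^ a = (1 + 1 / (k : ℝ)) ^ a * ((k : ℝ) * Real.log 2) ^ a := by
    rw [← Real.mul_rpow (by positivity) (by positivity)]
    congr 1
    field_simp
  have h4 : 0 ≤ ((k : ℝ) * Real.log 2) ^ a := by positivity
  rw [Real.rpow_zero, mul_one, div_le_iff₀ hε] at h2
  rw [h3]
  nlinarith

variable {Ω : Type*} [MeasurableSpace Ω] {μ : Measure Ω} [IsProbabilityMeasure μ] {A : Ω → Set ℕ} {z : ℕ → ℕ}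

/-- **The counts follow the expected numbers**, for all exponents `a > 2` simultaneously. -/
theorem Ra_Da (hA : IsModel μ (pr z) A) (hz : ∀ᶠ k : ℕ in atTop, z k ≤ k) :
    ∀ᵐ ω ∂μ, ∀ a : ℝ, 2 < a → Tendsto (fun x : ℝ => Ra (A ω) a x - Da z a x) atTop (𝓝 0) := by
  have h := ae_all_iff.2 (fun j : ℕ => ae_all_iff.2 (fun i : ℕ => conc hA hz (η := 1 / ((j : ℝ) + 1)) (by positivity)
    (ε := 1 / ((i : ℝ) + 1)) (by positivity) (by
      rw [div_le_one (by positivity)]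
      linarith [(Nat.cast_nonneg i : (0 : ℝ) ≤ i)])))
  filter_upwards [h] with ω hω a ha
  rw [Metric.tendsto_nhds]
  intro ε hε
  obtain ⟨j, hj⟩ := exists_nat_gt (1 / (a - 2))
  obtain ⟨i, hi⟩ := exists_nat_gt (8 / ε)
  have hj1 : 2 + 1 / ((j : ℝ) + 1) < a := by
    have h1 : 1 / ((j : ℝ) + 1) < a - 2 := by
      rw [div_lt_iff₀ (by positivity)]
      rw [div_lt_iff₀ (by linarith)] at hj
      nlinarith
    linarith
  have hi1 : 4 * (1 / ((i : ℝ) + 1)) < ε / 2 := by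
    rw [div_lt_iff₀ hε] at hi
    rw [mul_one_div, div_lt_iff₀ (by positivity)]
    nlinarith
  have hl2 : 0 < Real.log 2 := Real.log_pos (by norm_num)
  have hl21 : Real.log 2 ≤ 1 := by linarith [Real.log_two_lt_d9]
  filter_upwards [kx_tendsto.eventually (hω j i), kx_tendsto.eventually (long_window (by linarith) hj1 2),
    kx_tendsto.eventually (short_window a), kx_tendsto.eventually (eventually_ge_atTop 1), eventually_ge_atTop 2]
    with x h1 h2 h3 h4 hx2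
  obtain ⟨b1, b2, b3, b4, b5, b6, b7⟩ := basics (a := a) hx2
  obtain ⟨k, hk⟩ : ∃ k, k = Nat.log 2 ⌊x⌋₊ := ⟨_, rfl⟩
  rw [← hk] at h1 h2 h3 h4 b1 b2 b3 b4
  have hk1 : (1 : ℝ) ≤ k := by exact_mod_cast h4
  have hk0 : (0 : ℝ) < k := by linarith
  have hlx : 0 < Real.log x := lt_of_lt_of_le (by positivity) b3
  obtain ⟨H, hH⟩ : ∃ H, H = Real.log x ^ a := ⟨_, rfl⟩
  have hH0 : 0 < H := by rw [hH]; positivity
  have hHl : ((k : ℝ) * Real.log 2) ^ a ≤ H := by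
    rw [hH]
    exact Real.rpow_le_rpow (by positivity) b3 (by linarith)
  have hHu : H ≤ (((k : ℝ) + 1) * Real.log 2) ^ a := by
    rw [hH]
    exact Real.rpow_le_rpow hlx.le b4 (by linarith)
  rw [← hH] at b5 b6
  have hp1 : 1 ≤ (k : ℝ) ^ (2 + 1 / ((j : ℝ) + 1)) := Real.one_le_rpow hk1 (by positivity)
  have ht1 : (k : ℝ) ^ (2 + 1 / ((j : ℝ) + 1)) ≤ wl a x := by linarith
  have ht2 : wl a x ≤ 2 ^ k := by
    have : (wl a x : ℝ) ≤ 2 ^ k := by linarith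
    exact_mod_cast this
  have h5 := h1 ⌊x⌋₊ b1 b2 (wl a x) ht1 ht2
  rw [Real.dist_eq, sub_zero, Ra_eq _ hx2, Da_eq _ hx2, ← mul_sub, abs_mul, abs_of_nonneg (by positivity), ← hH]
  have h6 : Real.log x / H * |(cnt (A ω) ⌊x⌋₊ (wl a x) : ℝ) - ex z ⌊x⌋₊ (wl a x)| ≤
      Real.log x / H * (1 / ((i : ℝ) + 1) * ((wl a x : ℝ) / k)) := mul_le_mul_of_nonneg_left h5 (by positivity)
  refine lt_of_le_of_lt h6 ?_
  have h7 : Real.log x / k ≤ 2 := by
    rw [div_le_iff₀ hk0]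
    nlinarith
  have h8 : (wl a x : ℝ) / H ≤ 2 := by
    rw [div_le_iff₀ hH0]
    linarith
  have h9 : Real.log x / H * (1 / ((i : ℝ) + 1) * ((wl a x : ℝ) / k)) =
      1 / ((i : ℝ) + 1) * (Real.log x / k * ((wl a x : ℝ) / H)) := by
    field_simp
  rw [h9]
  have h10 : Real.log x / k * ((wl a x : ℝ) / H) ≤ 2 * 2 := mul_le_mul h7 h8 (by positivity) (by norm_num)
  have h11 : 0 ≤ 1 / ((i : ℝ) + 1) := by positivity
  nlinarith

/-- Expected numbers in windows inside a block. -/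
theorem ex_le {k : ℕ} (hk : 1 ≤ k) {n t : ℕ} (h1 : 2 ^ k ≤ n + 1) (h2 : n + t < 2 ^ (k + 1)) :
    ex z n t ≤ (Wf (z k) n t : ℝ) / Vf (z k) / (k * Real.log 2) := by
  classical
  have hl2 : 0 < Real.log 2 := Real.log_pos (by norm_num)
  have hk0 : (0 : ℝ) < k := by exact_mod_cast hk
  have hV := Vf_pos (z k)
  unfold ex
  have h3 : ∀ m ∈ Ioc n (n + t), pr z m ≤ (if Rough (z k) m then 1 / (Vf (z k) * (k * Real.log 2)) else 0) := by
    intro m hm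
    rw [mem_Ioc] at hm
    split_ifs with h
    · exact pr_le hk (by omega) (by omega)
    · rw [pr_zero (k := k) (by omega) (by omega) h]
  refine (sum_le_sum h3).trans (le_of_eq ?_)
  rw [rough_card]
  field_simp

theorem le_ex {k : ℕ} (hk : 1 ≤ k) (hq : 1 ≤ Vf (z k) * (k * Real.log 2)) {n t : ℕ} (h1 : 2 ^ k ≤ n + 1) (h2 : n + t < 2 ^ (k + 1)) :
    (Wf (z k) n t : ℝ) / Vf (z k) / (((k : ℝ) + 1) * Real.log 2) ≤ ex z n t := by
  classical
  have hl2 : 0 < Real.log 2 := Real.log_pos (by norm_num)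
  have hk0 : (0 : ℝ) < k := by exact_mod_cast hk
  have hV := Vf_pos (z k)
  unfold ex
  have h3 : ∀ m ∈ Ioc n (n + t), (if Rough (z k) m then 1 / (Vf (z k) * (((k : ℝ) + 1) * Real.log 2)) else 0) ≤ pr z m := by
    intro m hm
    rw [mem_Ioc] at hm
    split_ifs with h
    · exact le_pr hk hq (by omega) (by omega) h
    · exact pr_nonneg z m
  refine le_trans (le_of_eq ?_) (sum_le_sum h3)
  rw [rough_card]
  field_simp

theorem ex_nonneg (z : ℕ → ℕ) (n t : ℕ) : 0 ≤ ex z n t := sum_nonneg (fun m _ => pr_nonneg z m)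

theorem ex_mono (z : ℕ → ℕ) (n : ℕ) {s t : ℕ} (h : s ≤ t) : ex z n s ≤ ex z n t := by
  obtain ⟨r, rfl⟩ := Nat.exists_eq_add_of_le h
  rw [ex_add]
  have := ex_nonneg z (n + s) r
  linarith

theorem ex_zero (z : ℕ → ℕ) (n : ℕ) : ex z n 0 = 0 := by
  unfold ex
  simp

end Pool.Agent.Q120.CL
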