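import Pool.Agent.Q120.CL.M3

/-!
# Regular and irregular densities
-/

set_option autoImplicit false

namespace Pool.Agent.Q120.CL

open Finset Filter Topology MeasureTheory Pool.Agent.Q120.MG Pool.Agent.Q120.GM

theorem hq_ev {z : ℕ → ℕ} (hz : ∀ᶠ k : ℕ in atTop, z k ≤ k) : ∀ᶠ k : ℕ in atTop, 1 ≤ Vf (z k) * (k * Real.log 2) := by
  obtain ⟨C, hC, h⟩ := Vf_ge
  have hl2 : 0 < Real.log 2 := Real.log_pos (by norm_num)
  have h1 := (isLittleO_log_rpow_atTop (show (0 : ℝ) < 1 by norm_num)).bound (show 0 < Real.log 2 / C by positivity)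
  filter_upwards [h, hz, hcast.eventually h1, eventually_ge_atTop 1] with k h2 h3 h4 h5
  have hk1 : (1 : ℝ) ≤ k := by exact_mod_cast h5
  have hV := Vf_pos (z k)
  rw [Real.norm_of_nonneg (Real.log_nonneg hk1), Real.rpow_one, Real.norm_of_nonneg (by linarith)] at h4
  have h6 := h2 (z k) h3
  rw [div_le_iff₀ hV] at h6
  have h7 : C * Real.log k ≤ k * Real.log 2 := by
    calc C * Real.log k ≤ C * (Real.log 2 / C * k) := mul_le_mul_of_nonneg_left h4 hC.le
      _ = k * Real.log 2 := by field_simp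
  nlinarith

theorem nj_window' (z t a k j r : ℕ) : Wf z (nj z t a k j) r = Wf z a r := by
  have h1 : nj z t a k j = a % PQ z + PQ z * ((t + 1) * (2 ^ k / DD z t + 1 + j)) := by
    unfold nj
    rw [show DD z t * (2 ^ k / DD z t + 1 + j) = PQ z * ((t + 1) * (2 ^ k / DD z t + 1 + j)) by
      unfold DD
      ring]
  rw [h1, Wf_period', Wf_mod]

theorem DD_small {z : ℕ → ℕ} (hz : Tendsto (fun k : ℕ => (z k : ℝ) / k) atTop (𝓝 0)) (C : ℝ) (m : ℕ) :
    ∀ᶠ k : ℕ in atTop, ∀ t : ℕ, (t : ℝ) + 1 ≤ C * (k : ℝ) ^ m → 0 < 2 ^ k / DD (z k) t - 2 := by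
  filter_upwards [hz.eventually (ge_mem_nhds (show (0 : ℝ) < 1 / 8 by norm_num)), ev_two (3 * C) m (show (0 : ℝ) < 1 / 2 by norm_num),
    eventually_ge_atTop 1] with k h1 h2 h3 t ht
  have hk0 : (0 : ℝ) < k := by exact_mod_cast h3
  have hl2 : 0 < Real.log 2 := Real.log_pos (by norm_num)
  obtain ⟨X, hX⟩ : ∃ X : ℝ, X = 2 ^ k := ⟨_, rfl⟩
  have hX0 : 0 < X := by rw [hX]; positivity
  have hX1 : 1 ≤ X := by rw [hX]; exact one_le_pow₀ (by norm_num)
  rw [← hX] at h2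
  have hlX : Real.log X = k * Real.log 2 := by rw [hX, Real.log_pow]
  have e1 : (PQ (z k) : ℝ) ≤ X ^ ((1 : ℝ) / 4) := by
    have e2 : (PQ (z k) : ℝ) ≤ (4 : ℝ) ^ (z k) := by exact_mod_cast PQ_le (z k)
    refine e2.trans ?_
    rw [div_le_iff₀ hk0] at h1
    have e3 : (4 : ℝ) ^ (z k) = Real.exp ((z k) * Real.log 4) := by
      rw [← Real.rpow_natCast, Real.rpow_def_of_pos (by norm_num)]
      congr 1
      ring
    have e4 : Real.log 4 = 2 * Real.log 2 := by
      rw [show (4 : ℝ) = 2 ^ 2 by norm_num, Real.log_pow]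
      norm_num
    rw [e3, Real.rpow_def_of_pos hX0, Real.exp_le_exp, hlX, e4]
    nlinarith
  have e5 : (3 * DD (z k) t : ℝ) ≤ X := by
    unfold DD
    push_cast
    calc 3 * ((PQ (z k) : ℝ) * ((t : ℝ) + 1)) = (PQ (z k) : ℝ) * (3 * ((t : ℝ) + 1)) := by ring
      _ ≤ X ^ ((1 : ℝ) / 4) * X ^ ((1 : ℝ) / 2) := mul_le_mul e1 (by linarith) (by positivity) (by positivity)
      _ = X ^ ((3 : ℝ) / 4) := by
        rw [← Real.rpow_add hX0]
        norm_num
      _ ≤ X ^ (1 : ℝ) := Real.rpow_le_rpow_of_exponent_le hX1 (by norm_num)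
      _ = X := Real.rpow_one X
  have e6 : 3 * DD (z k) t ≤ 2 ^ k := by
    rw [hX] at e5
    exact_mod_cast e5
  have e7 : 3 ≤ 2 ^ k / DD (z k) t := (Nat.le_div_iff_mul_le (DD_pos _ _)).2 e6
  omega

/-- The two parts. -/
theorem part_bounds {κ : ℝ} {s B : ℕ} (hwf : ∀ z a t : ℕ, |(Wf z a t : ℝ) - Vf z * t| ≤ κ * (Vf z * t) + ((z : ℝ) ^ s + B))
    {z : ℕ → ℕ} {k : ℕ} (hk : 1 ≤ k) (hq : 1 ≤ Vf (z k) * (k * Real.log 2)) {E : ℝ} (hE : ((z k : ℝ) ^ s + B) / Vf (z k) ≤ E)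
    {n t : ℕ} (h1 : 2 ^ k ≤ n + 1) (h2 : n + t < 2 ^ (k + 1)) :
    ex z n t ≤ ((1 + κ) * t + E) / (k * Real.log 2) ∧
      (1 - κ) * t / (((k : ℝ) + 1) * Real.log 2) - E / (k * Real.log 2) ≤ ex z n t := by
  have hl2 : 0 < Real.log 2 := Real.log_pos (by norm_num)
  have hk0 : (0 : ℝ) < k := by exact_mod_cast hk
  have hV := Vf_pos (z k)
  have h3 := abs_le.1 (hwf (z k) n t)
  have hE0 : 0 ≤ E := le_trans (by positivity) hE
  have h4 : (Wf (z k) n t : ℝ) / Vf (z k) ≤ (1 + κ) * t + E := by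
    have h5 : (Wf (z k) n t : ℝ) / Vf (z k) ≤ (1 + κ) * t + ((z k : ℝ) ^ s + B) / Vf (z k) := by
      rw [div_le_iff₀ hV]
      have h6 : ((1 + κ) * t + ((z k : ℝ) ^ s + B) / Vf (z k)) * Vf (z k) = (1 + κ) * (Vf (z k) * t) + ((z k : ℝ) ^ s + B) := by
        field_simp
      rw [h6]
      linarith [h3.2]
    linarith
  have h5 : (1 - κ) * t - E ≤ (Wf (z k) n t : ℝ) / Vf (z k) := by
    have h5 : (1 - κ) * t - ((z k : ℝ) ^ s + B) / Vf (z k) ≤ (Wf (z k) n t : ℝ) / Vf (z k) := by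
      rw [le_div_iff₀ hV]
      have h6 : ((1 - κ) * t - ((z k : ℝ) ^ s + B) / Vf (z k)) * Vf (z k) = (1 - κ) * (Vf (z k) * t) - ((z k : ℝ) ^ s + B) := by
        field_simp
      rw [h6]
      linarith [h3.1]
    linarith
  constructor
  · exact (ex_le hk h1 h2).trans (div_le_div_of_nonneg_right h4 (by positivity))
  · refine le_trans ?_ (le_ex hk hq h1 h2)
    have h6 : ((1 - κ) * t - E) / (((k : ℝ) + 1) * Real.log 2) ≤ (Wf (z k) n t : ℝ) / Vf (z k) / (((k : ℝ) + 1) * Real.log 2) :=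
      div_le_div_of_nonneg_right h5 (by positivity)
    refine le_trans ?_ h6
    rw [sub_div]
    have h7 : E / (((k : ℝ) + 1) * Real.log 2) ≤ E / (k * Real.log 2) :=
      div_le_div_of_nonneg_left hE0 (by positivity) (by nlinarith)
    linarith

/-- Regular densities. -/
theorem Da_regular {κ : ℝ} (hκ : 0 < κ) (hκ1 : κ ≤ 1 / 4) : ∃ s : ℕ, 1 ≤ s ∧ ∀ (z : ℕ → ℕ) (a b : ℝ), 0 ≤ b → b < a →
    (∀ᶠ k : ℕ in atTop, z k ≤ k) → (∀ᶠ k : ℕ in atTop, (z k : ℝ) ^ s ≤ (k : ℝ) ^ b) →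
      ∀ᶠ x : ℝ in atTop, |Da z a x - 1| ≤ 4 * κ := by
  obtain ⟨s, B, hs, hwf⟩ := wf_all hκ (by linarith)
  refine ⟨s, hs, fun z a b hb hba hz hzs => ?_⟩
  have ha : 0 < a := by linarith
  obtain ⟨C, hC, hV⟩ := Vf_ge
  obtain ⟨b', hb'⟩ : ∃ b', b' = (a + b) / 2 := ⟨_, rfl⟩
  have hb'a : b' < a := by linarith
  have hb'b : b < b' := by linarith
  have hl2 : 0 < Real.log 2 := Real.log_pos (by norm_num)
  have hE : ∀ᶠ k : ℕ in atTop, ((z k : ℝ) ^ s + B) / Vf (z k) ≤ (k : ℝ) ^ b' := by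
    have h1 := (isLittleO_log_rpow_atTop (show (0 : ℝ) < b' - b by linarith)).bound
      (show 0 < 1 / (C * ((B : ℝ) + 1)) by positivity)
    filter_upwards [hV, hz, hzs, hcast.eventually h1, eventually_ge_atTop 1] with k h2 h3 h4 h5 h6
    have hk1 : (1 : ℝ) ≤ k := by exact_mod_cast h6
    have hk0 : (0 : ℝ) < k := by linarith
    have hVp := Vf_pos (z k)
    rw [Real.norm_of_nonneg (Real.log_nonneg hk1), Real.norm_of_nonneg (by positivity)] at h5
    have h7 := h2 (z k) h3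
    have h8 : 1 ≤ (k : ℝ) ^ b := Real.one_le_rpow hk1 hb
    have h9 : (k : ℝ) ^ b' = (k : ℝ) ^ (b' - b) * (k : ℝ) ^ b := by
      rw [← Real.rpow_add hk0]
      congr 1
      ring
    have hlk := Real.log_nonneg hk1
    calc ((z k : ℝ) ^ s + B) / Vf (z k) = ((z k : ℝ) ^ s + B) * (1 / Vf (z k)) := by ring
      _ ≤ (((B : ℝ) + 1) * (k : ℝ) ^ b) * (C * Real.log k) := by
        refine mul_le_mul ?_ h7 (by positivity) (by positivity)
        have : (0 : ℝ) ≤ B := Nat.cast_nonneg B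
        nlinarith
      _ = (C * ((B : ℝ) + 1)) * Real.log k * (k : ℝ) ^ b := by ring
      _ ≤ (C * ((B : ℝ) + 1)) * (1 / (C * ((B : ℝ) + 1)) * (k : ℝ) ^ (b' - b)) * (k : ℝ) ^ b := by
        refine mul_le_mul_of_nonneg_right (mul_le_mul_of_nonneg_left h5 (by positivity)) (by positivity)
      _ = (k : ℝ) ^ b' := by
        rw [h9]
        field_simp
  have hs1 := tendsto_add_atTop_nat 1
  have hbig : Tendsto (fun k : ℕ => (k : ℝ)) atTop atTop := hcast
  filter_upwards [kx_tendsto.eventually hE, kx_tendsto.eventually (hs1.eventually hE), kx_tendsto.eventually (hq_ev hz),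
    kx_tendsto.eventually (hs1.eventually (hq_ev hz)), kx_tendsto.eventually (long_window ha hb'a (2 * 2 ^ b' / κ)),
    kx_tendsto.eventually (long_window ha ha (8 / κ)), kx_tendsto.eventually (short_window a),
    kx_tendsto.eventually (hbig.eventually_ge_atTop (16 / κ)), kx_tendsto.eventually (eventually_ge_atTop 1),
    eventually_ge_atTop 2] with x h1 h2 h3 h4 h5 h6 h7 h8 h9 hx2
  obtain ⟨b1, b2, b3, b4, b5, b6, b7⟩ := basics (a := a) hx2
  obtain ⟨k, hk⟩ : ∃ k, k = Nat.log 2 ⌊x⌋₊ := ⟨_, rfl⟩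
  rw [← hk] at h1 h2 h3 h4 h5 h6 h7 h8 h9 b1 b2 b3 b4
  have hk1 : (1 : ℝ) ≤ k := by exact_mod_cast h9
  have hk0 : (0 : ℝ) < k := by linarith
  have hlx : 0 < Real.log x := lt_of_lt_of_le (by positivity) b3
  obtain ⟨H, hH⟩ : ∃ H, H = Real.log x ^ a := ⟨_, rfl⟩
  have hH0 : 0 < H := by rw [hH]; positivity
  have hHl : ((k : ℝ) * Real.log 2) ^ a ≤ H := by
    rw [hH]
    exact Real.rpow_le_rpow (by positivity) b3 (by linarith)
  have hHu : H ≤ (((k : ℝ) + 1) * Real.log 2) ^ a := by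
    rw [hH]
    exact Real.rpow_le_rpow hlx.le b4 (by linarith)
  rw [← hH] at b5 b6
  obtain ⟨n, hn⟩ : ∃ n, n = ⌊x⌋₊ := ⟨_, rfl⟩
  obtain ⟨t, ht⟩ : ∃ t, t = wl a x := ⟨_, rfl⟩
  rw [← hn] at b1 b2
  rw [← ht] at b5 b6
  have ht2 : t ≤ 2 ^ k := by
    have : (t : ℝ) ≤ 2 ^ k := by linarith
    exact_mod_cast this
  rw [Real.rpow_zero, mul_one] at h6
  -- the errors
  obtain ⟨l, hl⟩ : ∃ l, l = Real.log 2 := ⟨_, rfl⟩
  rw [← hl] at hl2 b3 b4 h3 h4
  have hE1 : (k : ℝ) ^ b' ≤ 2 ^ b' * (k : ℝ) ^ b' := by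
    have : 1 ≤ (2 : ℝ) ^ b' := Real.one_le_rpow (by norm_num) (by linarith)
    exact le_mul_of_one_le_left (by positivity) this
  have hE2 : (((k + 1 : ℕ) : ℝ)) ^ b' ≤ 2 ^ b' * (k : ℝ) ^ b' := by
    rw [← Real.mul_rpow (by norm_num) hk0.le]
    refine Real.rpow_le_rpow (by positivity) ?_ (by linarith)
    push_cast
    linarith
  have hEH : 2 * (2 ^ b' * (k : ℝ) ^ b') ≤ κ * H := by
    have e1 : 2 * 2 ^ b' / κ * (k : ℝ) ^ b' ≤ H := h5.trans hHl
    rw [div_mul_eq_mul_div, div_le_iff₀ hκ] at e1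
    linarith
  have hup : ex z n t ≤ ((1 + κ) * t + κ * H) / (k * l) ∧ (1 - κ) * t / (((k : ℝ) + 2) * l) - κ * H / (k * l) ≤ ex z n t := by
    rcases Nat.lt_or_ge (n + t) (2 ^ (k + 1)) with hc | hc
    · have hp := part_bounds hwf h9 (by rw [← hl]; exact h3) (h1.trans hE1) (n := n) (t := t) (by omega) hc
      rw [← hl] at hp
      have e0 : 0 ≤ 2 ^ b' * (k : ℝ) ^ b' := by positivity
      constructor
      · refine hp.1.trans (div_le_div_of_nonneg_right ?_ (by positivity))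
        linarith
      · refine le_trans ?_ hp.2
        have e1 : (1 - κ) * t / (((k : ℝ) + 2) * l) ≤ (1 - κ) * t / (((k : ℝ) + 1) * l) := by
          refine div_le_div_of_nonneg_left (mul_nonneg (by linarith) (Nat.cast_nonneg t)) (by positivity) ?_
          nlinarith
        have e2 : 2 ^ b' * (k : ℝ) ^ b' / (k * l) ≤ κ * H / (k * l) := div_le_div_of_nonneg_right (by linarith) (by positivity)
        linarith
    · obtain ⟨t₁, ht₁⟩ : ∃ t₁, t₁ = 2 ^ (k + 1) - 1 - n := ⟨_, rfl⟩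
      obtain ⟨t₂, ht₂⟩ : ∃ t₂, t₂ = t - t₁ := ⟨_, rfl⟩
      have e6 : 2 ^ (k + 1) = 2 * 2 ^ k := by rw [pow_succ]; ring
      have e7 : 2 ^ (k + 1 + 1) = 2 * 2 ^ (k + 1) := by rw [pow_succ]; ring
      have ett : t = t₁ + t₂ := by omega
      have hp1 := part_bounds hwf h9 (by rw [← hl]; exact h3) (h1.trans hE1) (n := n) (t := t₁) (by omega) (by omega)
      have hp2 := part_bounds hwf (k := k + 1) (by omega) (by rw [← hl]; exact h4) (h2.trans hE2) (n := n + t₁) (t := t₂)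
        (by omega) (by omega)
      rw [← hl] at hp1 hp2
      have e8 : ex z n t = ex z n t₁ + ex z (n + t₁) t₂ := by rw [ett, ex_add]
      have etr : (t : ℝ) = t₁ + t₂ := by exact_mod_cast ett
      have e0 : 0 ≤ 2 ^ b' * (k : ℝ) ^ b' := by positivity
      have ht₁0 : (0 : ℝ) ≤ t₁ := Nat.cast_nonneg _
      have ht₂0 : (0 : ℝ) ≤ t₂ := Nat.cast_nonneg _
      rw [e8]
      obtain ⟨G, hG⟩ : ∃ G, G = 2 ^ b' * (k : ℝ) ^ b' := ⟨_, rfl⟩
      rw [← hG] at hp1 hp2 hEH e0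
      have e10 : ((1 + κ) * t₂ + G) / (((k + 1 : ℕ) : ℝ) * l) ≤ ((1 + κ) * t₂ + G) / (k * l) := by
        refine div_le_div_of_nonneg_left (by positivity) (by positivity) ?_
        push_cast
        nlinarith
      constructor
      · have e9 : ex z n t₁ + ex z (n + t₁) t₂ ≤ ((1 + κ) * t₁ + G) / (k * l) + ((1 + κ) * t₂ + G) / (k * l) :=
          add_le_add hp1.1 (hp2.1.trans e10)
        refine e9.trans ?_
        rw [← add_div]
        refine div_le_div_of_nonneg_right ?_ (by positivity)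
        rw [etr]
        linarith
      · have e11 : (1 - κ) * t₁ / (((k : ℝ) + 2) * l) ≤ (1 - κ) * t₁ / (((k : ℝ) + 1) * l) := by
          refine div_le_div_of_nonneg_left (mul_nonneg (by linarith) ht₁0) (by positivity) ?_
          nlinarith
        have e12 : (1 - κ) * t₂ / (((k : ℝ) + 2) * l) = (1 - κ) * t₂ / ((((k + 1 : ℕ) : ℝ) + 1) * l) := by
          push_cast
          congr 2
          ring
        have e13 : G / (((k + 1 : ℕ) : ℝ) * l) ≤ G / (k * l) := by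
          refine div_le_div_of_nonneg_left e0 (by positivity) ?_
          push_cast
          nlinarith
        have e14 : (1 - κ) * t / (((k : ℝ) + 2) * l) = (1 - κ) * t₁ / (((k : ℝ) + 2) * l) + (1 - κ) * t₂ / (((k : ℝ) + 2) * l) := by
          rw [etr, ← add_div]
          congr 1
          ring
        have e15 : G / (k * l) + G / (k * l) ≤ κ * H / (k * l) := by
          rw [← add_div]
          exact div_le_div_of_nonneg_right (by linarith) (by positivity)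
        linarith [hp1.2, hp2.2]
  obtain ⟨hu1, hu2⟩ := hup
  rw [Da_eq z hx2, ← hH, ← hn, ← ht]
  have hHbig : 8 / κ ≤ H := h6.trans hHl
  rw [div_le_iff₀ hκ] at hHbig h8
  have hκk : 1 / (k : ℝ) ≤ κ / 16 := by
    rw [div_le_div_iff₀ hk0 (by norm_num)]
    linarith
  have hκH : 1 / H ≤ κ / 8 := by
    rw [div_le_div_iff₀ hH0 (by norm_num)]
    linarith
  rw [abs_le]
  constructor
  · -- lower bound
    have e1 : k * l * ((1 - κ) * t / (((k : ℝ) + 2) * l)) ≤ Real.log x * ((1 - κ) * t / (((k : ℝ) + 2) * l)) :=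
      mul_le_mul_of_nonneg_right b3 (div_nonneg (mul_nonneg (by linarith) (Nat.cast_nonneg t)) (by positivity))
    have e2 : Real.log x * (κ * H / (k * l)) ≤ (((k : ℝ) + 1) * l) * (κ * H / (k * l)) :=
      mul_le_mul_of_nonneg_right b4 (by positivity)
    have e3 : Real.log x * ((1 - κ) * t / (((k : ℝ) + 2) * l) - κ * H / (k * l)) ≤ Real.log x * ex z n t :=
      mul_le_mul_of_nonneg_left hu2 hlx.le
    have e4 : k * l * ((1 - κ) * t / (((k : ℝ) + 2) * l)) = (1 - κ) * t * (k / (k + 2)) := by field_simp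
    have e5 : (((k : ℝ) + 1) * l) * (κ * H / (k * l)) = κ * H * (1 + 1 / k) := by field_simp
    have e6 : 1 - κ / 8 ≤ (k : ℝ) / (k + 2) := by
      rw [le_div_iff₀ (by positivity)]
      nlinarith
    have e7 : (1 - κ / 8) * H ≤ t := by nlinarith
    have e8 : (1 - κ) * ((1 - κ / 8) * H) * (1 - κ / 8) ≤ (1 - κ) * t * (k / (k + 2)) := by
      refine mul_le_mul ?_ e6 (by linarith) (mul_nonneg (by linarith) (Nat.cast_nonneg t))
      exact mul_le_mul_of_nonneg_left e7 (by linarith)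
    have e9 : κ * H * (1 + 1 / k) ≤ κ * H * (1 + κ / 16) := mul_le_mul_of_nonneg_left (by linarith) (by positivity)
    have e10 : (1 - 4 * κ) * H ≤ Real.log x * ex z n t := by
      have e11 : (1 - 4 * κ) ≤ (1 - κ) * (1 - κ / 8) * (1 - κ / 8) - κ * (1 + κ / 16) := by nlinarith [mul_pos hκ hκ]
      have e12 := mul_le_mul_of_nonneg_right e11 hH0.le
      have e13 : ((1 - κ) * (1 - κ / 8) * (1 - κ / 8) - κ * (1 + κ / 16)) * H =
          (1 - κ) * ((1 - κ / 8) * H) * (1 - κ / 8) - κ * H * (1 + κ / 16) := by ring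
      rw [e13] at e12
      rw [mul_sub] at e3
      linarith
    have e11 : 1 - 4 * κ ≤ Real.log x / H * ex z n t := by
      rw [div_mul_eq_mul_div, le_div_iff₀ hH0]
      exact e10
    linarith
  · -- upper bound
    have e3 : Real.log x * ex z n t ≤ (((k : ℝ) + 1) * l) * (((1 + κ) * t + κ * H) / (k * l)) := by
      refine mul_le_mul b4 hu1 (ex_nonneg z n t) (by positivity)
    have e4 : (((k : ℝ) + 1) * l) * (((1 + κ) * t + κ * H) / (k * l)) = ((1 + κ) * t + κ * H) * (1 + 1 / k) := by field_simp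
    have e5 : (t : ℝ) ≤ (1 + κ / 8) * H := by nlinarith
    have e6 : ((1 + κ) * t + κ * H) * (1 + 1 / k) ≤ ((1 + κ) * ((1 + κ / 8) * H) + κ * H) * (1 + κ / 16) := by
      refine mul_le_mul ?_ (by linarith) (by positivity) (by positivity)
      have := mul_le_mul_of_nonneg_left e5 (by linarith : 0 ≤ 1 + κ)
      linarith
    have e7 : Real.log x / H * ex z n t ≤ 1 + 4 * κ := by
      rw [div_mul_eq_mul_div, div_le_iff₀ hH0]
      have e8 : ((1 + κ) * (1 + κ / 8) + κ) * (1 + κ / 16) ≤ 1 + 4 * κ := by nlinarith [mul_pos hκ hκ, mul_pos (mul_pos hκ hκ) hκ]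
      have e9 := mul_le_mul_of_nonneg_right e8 hH0.le
      have e10 : ((1 + κ) * (1 + κ / 8) + κ) * (1 + κ / 16) * H = ((1 + κ) * ((1 + κ / 8) * H) + κ * H) * (1 + κ / 16) := by ring
      linarith
    linarith

end Pool.Agent.Q120.CL
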