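import Pool.Agent.Q120.CL.M7

/-!
# Irregular densities of the models of large level
-/

set_option autoImplicit false

namespace Pool.Agent.Q120.CL

open Finset Filter Topology MeasureTheory Pool.Agent.Q120.MG Pool.Agent.Q120.GM

/-- The block contains windows that are too rich and windows that are too poor. -/
theorem irr_block {δ a : ℝ} (hδ : 0 < δ) (ha : 0 < a) : ∃ κ : ℝ, 0 < κ ∧ κ ≤ 1 / 4 ∧ ∀ z : ℕ → ℕ,
    (∀ᶠ k : ℕ in atTop, z k ≤ k) → ∀ᶠ k : ℕ in atTop, (k : ℝ) ^ δ ≤ z k →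
      (∃ n : ℕ, 2 ^ k ≤ n ∧ 1 + κ ≤ Da z a n) ∧ ∃ n : ℕ, 2 ^ k ≤ n ∧ Da z a n ≤ 1 - κ := by
  obtain ⟨κ₀, h0, h01, hirr⟩ := irr_win hδ (show 0 ≤ a + 1 by linarith)
  refine ⟨κ₀ / 4, by positivity, by linarith, fun z hz => ?_⟩
  have hl2 : 0 < Real.log 2 := Real.log_pos (by norm_num)
  have hl21 : Real.log 2 ≤ 1 := by linarith [Real.log_two_lt_d9]
  obtain ⟨N, hN⟩ := exists_nat_ge (a + 1)
  filter_upwards [hq_ev hz, hirr N, hz,
    long_window ha ha (16 / κ₀), ratio_ev a (show 0 < κ₀ / 8 by positivity), eventually_ge_atTop 2,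
    hcast.eventually_ge_atTop (8 / κ₀), hcast.eventually_ge_atTop (2 ^ N + 4), short_window a]
    with k h2 h3 h1 h4 h5 h6 h7 h8 h9 hkz
  have hk2 : (2 : ℝ) ≤ k := by exact_mod_cast h6
  have hk0 : (0 : ℝ) < k := by linarith
  rw [Real.rpow_zero, mul_one] at h4
  have h5' := h5.resolve_right (by linarith)
  obtain ⟨l, hl⟩ : ∃ l, l = Real.log 2 := ⟨_, rfl⟩
  rw [← hl] at hl2 hl21 h2 h4 h5' h9
  obtain ⟨P, hP⟩ : ∃ P, P = ((k : ℝ) * l) ^ a := ⟨_, rfl⟩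
  obtain ⟨Q, hQ⟩ : ∃ Q, Q = (((k : ℝ) + 1) * l) ^ a := ⟨_, rfl⟩
  rw [← hP] at h4 h5'
  rw [← hQ] at h5' h9
  have hP0 : 0 < P := by rw [hP]; positivity
  have hQ0 : 0 < Q := by rw [hQ]; positivity
  have hPQ : P ≤ Q := by
    rw [hP, hQ]
    exact Real.rpow_le_rpow (by positivity) (by nlinarith) ha.le
  have hPbig : 16 ≤ P := by
    rw [div_le_iff₀ h0] at h4
    nlinarith
  -- the two lengths
  obtain ⟨t₁, ht₁⟩ : ∃ t₁, t₁ = ⌊Q⌋₊ + 2 := ⟨_, rfl⟩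
  obtain ⟨t₀, ht₀⟩ : ∃ t₀, t₀ = ⌊P⌋₊ - 1 := ⟨_, rfl⟩
  have hf1 := Nat.floor_le hQ0.le
  have hf2 := Nat.lt_floor_add_one Q
  have hf3 := Nat.floor_le hP0.le
  have hf4 := Nat.lt_floor_add_one P
  have ht₁l : Q + 1 ≤ t₁ := by
    rw [ht₁]
    push_cast
    linarith
  have ht₁u : (t₁ : ℝ) ≤ Q + 2 := by
    rw [ht₁]
    push_cast
    linarith
  have hfP : 1 ≤ ⌊P⌋₊ := Nat.le_floor (by push_cast; linarith)
  have ht₀l : P - 2 ≤ t₀ := by
    rw [ht₀, Nat.cast_sub hfP]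
    push_cast
    linarith
  have ht₀u : (t₀ : ℝ) ≤ P - 1 := by
    rw [ht₀, Nat.cast_sub hfP]
    push_cast
    linarith
  have ht₀p : 0 < t₀ := by
    have : (0 : ℝ) < t₀ := by linarith
    exact_mod_cast this
  have hlen : Q + 2 ≤ (k : ℝ) ^ (a + 1) := by
    have e2 : (k : ℝ) ^ (a + 1) = k * (k : ℝ) ^ a := by
      rw [Real.rpow_add hk0, Real.rpow_one]
      ring
    have e3 : Q ≤ 2 ^ N * (k : ℝ) ^ a := by
      have e4 : Q ≤ (2 * (k : ℝ)) ^ a := by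
        rw [hQ]
        exact Real.rpow_le_rpow (by positivity) (by nlinarith) ha.le
      rw [Real.mul_rpow (by norm_num) hk0.le] at e4
      have e5 : (2 : ℝ) ^ a ≤ 2 ^ N := by
        rw [← Real.rpow_natCast]
        exact Real.rpow_le_rpow_of_exponent_le (by norm_num) (by linarith)
      exact e4.trans (mul_le_mul_of_nonneg_right e5 (by positivity))
    have e4 : 1 ≤ (k : ℝ) ^ a := Real.one_le_rpow (by linarith) ha.le
    calc Q + 2 ≤ (2 ^ N + 4) * (k : ℝ) ^ a := by nlinarith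
      _ ≤ k * (k : ℝ) ^ a := mul_le_mul_of_nonneg_right h8 (by positivity)
      _ = (k : ℝ) ^ (a + 1) := e2.symm
  have ht₁N : t₁ ≤ k ^ N := by
    have e1 : (k : ℝ) ^ (a + 1) ≤ (k : ℝ) ^ N := by
      rw [← Real.rpow_natCast]
      exact Real.rpow_le_rpow_of_exponent_le (by linarith) hN
    have e2 : (t₁ : ℝ) ≤ (k : ℝ) ^ N := by linarith
    exact_mod_cast e2
  obtain ⟨⟨n₁, hn₁, hn₁', ha₁⟩, _⟩ := h3 (z k) h1 hkz t₁ (by omega) (ht₁u.trans hlen)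
  obtain ⟨_, ⟨n₂, hn₂, hn₂', ha₂⟩⟩ := h3 (z k) h1 hkz t₀ ht₀p (by linarith)
  have hV := Vf_pos (z k)
  have hdata : ∀ n : ℕ, 2 ^ k ≤ n → n + t₁ < 2 ^ (k + 1) →
      k * l ≤ Real.log n ∧ Real.log n ≤ ((k : ℝ) + 1) * l ∧ P ≤ Real.log n ^ a ∧ Real.log n ^ a ≤ Q ∧
      t₀ ≤ wl a n ∧ wl a n ≤ t₁ ∧ Da z a n = Real.log n / Real.log n ^ a * ex z n (wl a n) := by
    intro n hn1 hn2
    have hn2' : (2 : ℝ) ≤ n := by
      have e1 : 2 ^ 1 ≤ 2 ^ k := Nat.pow_le_pow_right (by norm_num) (by omega)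
      have : 2 ≤ n := by omega
      exact_mod_cast this
    have hfl : ⌊(n : ℝ)⌋₊ = n := Nat.floor_natCast n
    have hlog : Nat.log 2 n = k := Nat.log_eq_of_pow_le_of_lt_pow hn1 (by omega)
    obtain ⟨b1, b2, b3, b4, b5, b6, b7⟩ := basics (a := a) hn2'
    rw [hfl, hlog, ← hl] at b3 b4
    have hln : 0 < Real.log n := lt_of_lt_of_le (by positivity) b3
    have c1 : P ≤ Real.log n ^ a := by
      rw [hP]
      exact Real.rpow_le_rpow (by positivity) b3 ha.le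
    have c2 : Real.log n ^ a ≤ Q := by
      rw [hQ]
      exact Real.rpow_le_rpow hln.le b4 ha.le
    have c3 : Da z a n = Real.log n / Real.log n ^ a * ex z n (wl a n) := by
      rw [Da_eq z hn2', hfl]
    refine ⟨b3, b4, c1, c2, ?_, ?_, c3⟩
    · have : (t₀ : ℝ) ≤ wl a n := by linarith
      exact_mod_cast this
    · have : (wl a n : ℝ) ≤ t₁ := by linarith
      exact_mod_cast this
  have hκ8 : 1 / (k : ℝ) ≤ κ₀ / 8 := by
    rw [div_le_iff₀ h0] at h7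
    rw [div_le_div_iff₀ hk0 (by norm_num)]
    linarith
  rw [div_le_iff₀ h0] at h4
  constructor
  · obtain ⟨n, hn⟩ : ∃ n, n = n₂ := ⟨_, rfl⟩
    have hn1 : 2 ^ k ≤ n := by omega
    have hn2 : n + t₁ < 2 ^ (k + 1) := by omega
    rw [← hn] at ha₂
    obtain ⟨b3, b4, c1, c2, c4, c5, c6⟩ := hdata n hn1 hn2
    refine ⟨n, hn1, ?_⟩
    rw [c6]
    obtain ⟨H, hH⟩ : ∃ H, H = Real.log n ^ a := ⟨_, rfl⟩
    rw [← hH] at c1 c2 ⊢
    have hH0 : 0 < H := lt_of_lt_of_le hP0 c1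
    have hln : 0 < Real.log n := lt_of_lt_of_le (by positivity) b3
    have d1 : (Wf (z k) n t₀ : ℝ) / Vf (z k) / (((k : ℝ) + 1) * l) ≤ ex z n (wl a n) := by
      rw [hl]
      exact (le_ex (z := z) (by omega) (by rw [← hl]; exact h2) (by omega) (by omega)).trans (ex_mono z n c4)
    have d3 : (1 + κ₀) * t₀ ≤ (Wf (z k) n t₀ : ℝ) / Vf (z k) := by
      rw [le_div_iff₀ hV]
      linarith
    have d4 : (1 + κ₀) * t₀ / (((k : ℝ) + 1) * l) ≤ ex z n (wl a n) :=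
      (div_le_div_of_nonneg_right d3 (by positivity)).trans d1
    rw [div_mul_eq_mul_div, le_div_iff₀ hH0]
    have d5 : (1 + κ₀) * t₀ * (k / (k + 1)) ≤ Real.log n * ex z n (wl a n) := by
      calc (1 + κ₀) * t₀ * (k / (k + 1)) = k * l * ((1 + κ₀) * t₀ / (((k : ℝ) + 1) * l)) := by field_simp
        _ ≤ Real.log n * ex z n (wl a n) := mul_le_mul b3 d4 (by positivity) hln.le
    have d6 : 1 - κ₀ / 8 ≤ (k : ℝ) / (k + 1) := by
      rw [le_div_iff₀ (by positivity)]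
      rw [div_le_div_iff₀ hk0 (by norm_num)] at hκ8
      nlinarith
    have d7 : (1 - κ₀ / 8) * P ≤ t₀ := by nlinarith
    have d8 : (1 + κ₀) * ((1 - κ₀ / 8) * P) * (1 - κ₀ / 8) ≤ (1 + κ₀) * t₀ * (k / (k + 1)) := by
      refine mul_le_mul ?_ d6 (by linarith) (by positivity)
      exact mul_le_mul_of_nonneg_left d7 (by linarith)
    have d9 : H ≤ (1 + κ₀ / 8) * P := by linarith
    have d10 : (1 + κ₀ / 4) * H ≤ (1 + κ₀ / 4) * ((1 + κ₀ / 8) * P) := mul_le_mul_of_nonneg_left d9 (by linarith)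
    have d11 : (1 + κ₀ / 4) * (1 + κ₀ / 8) ≤ (1 + κ₀) * (1 - κ₀ / 8) * (1 - κ₀ / 8) := by nlinarith [mul_pos h0 h0, mul_pos (mul_pos h0 h0) h0]
    have d12 := mul_le_mul_of_nonneg_right d11 hP0.le
    linarith
  · obtain ⟨n, hn⟩ : ∃ n, n = n₁ := ⟨_, rfl⟩
    have hn1 : 2 ^ k ≤ n := by omega
    have hn2 : n + t₁ < 2 ^ (k + 1) := by omega
    rw [← hn] at ha₁
    obtain ⟨b3, b4, c1, c2, c4, c5, c6⟩ := hdata n hn1 hn2
    refine ⟨n, hn1, ?_⟩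
    rw [c6]
    obtain ⟨H, hH⟩ : ∃ H, H = Real.log n ^ a := ⟨_, rfl⟩
    rw [← hH] at c1 c2 ⊢
    have hH0 : 0 < H := lt_of_lt_of_le hP0 c1
    have hln : 0 < Real.log n := lt_of_lt_of_le (by positivity) b3
    have d1 : ex z n (wl a n) ≤ (Wf (z k) n t₁ : ℝ) / Vf (z k) / ((k : ℝ) * l) := by
      rw [hl]
      exact (ex_mono z n c5).trans (ex_le (z := z) (by omega) (by omega) (by omega))
    have d3 : (Wf (z k) n t₁ : ℝ) / Vf (z k) ≤ (1 - κ₀) * t₁ := by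
      rw [div_le_iff₀ hV]
      linarith
    have d4 : ex z n (wl a n) ≤ (1 - κ₀) * t₁ / ((k : ℝ) * l) := d1.trans (div_le_div_of_nonneg_right d3 (by positivity))
    rw [div_mul_eq_mul_div, div_le_iff₀ hH0]
    have d5 : Real.log n * ex z n (wl a n) ≤ (1 - κ₀) * t₁ * (1 + 1 / k) := by
      calc Real.log n * ex z n (wl a n) ≤ (((k : ℝ) + 1) * l) * ((1 - κ₀) * t₁ / ((k : ℝ) * l)) :=
            mul_le_mul b4 d4 (ex_nonneg z n _) (by positivity)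
        _ = (1 - κ₀) * t₁ * (1 + 1 / k) := by field_simp
    have d7 : (t₁ : ℝ) ≤ (1 + κ₀ / 8) * P := by linarith
    have d8 : (1 - κ₀) * t₁ * (1 + 1 / k) ≤ (1 - κ₀) * ((1 + κ₀ / 8) * P) * (1 + κ₀ / 8) := by
      refine mul_le_mul ?_ (by linarith) (by positivity) (mul_nonneg (by linarith) (by positivity))
      exact mul_le_mul_of_nonneg_left d7 (by linarith)
    have d11 : (1 - κ₀) * (1 + κ₀ / 8) * (1 + κ₀ / 8) ≤ 1 - κ₀ / 4 := by nlinarith [mul_pos h0 h0, mul_pos (mul_pos h0 h0) h0]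
    have d12 := mul_le_mul_of_nonneg_right d11 hP0.le
    have d13 : (1 - κ₀ / 4) * P ≤ (1 - κ₀ / 4) * H := mul_le_mul_of_nonneg_left c1 (by linarith)
    linarith

/-- Irregular densities. -/
theorem Da_irregular {δ a : ℝ} (hδ : 0 < δ) (ha : 0 < a) : ∃ κ : ℝ, 0 < κ ∧ κ ≤ 1 / 4 ∧ ∀ z : ℕ → ℕ,
    (∀ᶠ k : ℕ in atTop, z k ≤ k) → (∃ᶠ k : ℕ in atTop, (k : ℝ) ^ δ ≤ z k) →
      (∃ᶠ x : ℝ in atTop, 1 + κ ≤ Da z a x) ∧ ∃ᶠ x : ℝ in atTop, Da z a x ≤ 1 - κ := by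
  obtain ⟨κ, h1, h2, h3⟩ := irr_block hδ ha
  refine ⟨κ, h1, h2, fun z hz hf => ?_⟩
  have hf' := hf.and_eventually (h3 z hz)
  have hbig : ∀ (X : ℝ), ∀ᶠ k : ℕ in atTop, X ≤ 2 ^ k := by
    intro X
    obtain ⟨N, hN⟩ := exists_nat_ge X
    filter_upwards [eventually_ge_atTop N] with k hk
    have e1 : (N : ℝ) < 2 ^ N := by exact_mod_cast Nat.lt_two_pow_self
    have e2 : (2 : ℝ) ^ N ≤ 2 ^ k := pow_le_pow_right₀ (by norm_num) hk
    linarith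
  constructor
  · rw [frequently_atTop]
    intro X
    obtain ⟨k, ⟨e1, e2⟩, e3⟩ := (hf'.and_eventually (hbig X)).exists
    obtain ⟨⟨n, hn1, hn2⟩, _⟩ := e2 e1
    refine ⟨n, ?_, hn2⟩
    have : ((2 ^ k : ℕ) : ℝ) ≤ n := by exact_mod_cast hn1
    push_cast at this
    linarith
  · rw [frequently_atTop]
    intro X
    obtain ⟨k, ⟨e1, e2⟩, e3⟩ := (hf'.and_eventually (hbig X)).exists
    obtain ⟨_, ⟨n, hn1, hn2⟩⟩ := e2 e1
    refine ⟨n, ?_, hn2⟩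
    have : ((2 ^ k : ℕ) : ℝ) ≤ n := by exact_mod_cast hn1
    push_cast at this
    linarith

end Pool.Agent.Q120.CL
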