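import Pool.Agent.Q120.CL.M4

/-!
# Irregular windows at the levels up to the logarithm
-/

set_option autoImplicit false

namespace Pool.Agent.Q120.CL

open Finset Filter Topology MeasureTheory Pool.Agent.Q120.MG Pool.Agent.Q120.GM

theorem Vf_anti {w z : ℕ} (h : w ≤ z) : Vf z ≤ Vf w := by
  unfold Vf
  refine prod_le_prod_of_subset_of_le_one ?_ ?_ ?_
  · exact filter_subset_filter _ (range_subset_range.2 h)
  · intro p hp
    have h4 : (1 : ℝ) < p := by exact_mod_cast (mem_filter.1 hp).2.one_lt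
    have h5 : 1 / (p : ℝ) < 1 := by rw [div_lt_one (by linarith)]; exact h4
    linarith
  · intro p _ _
    have : 0 ≤ 1 / (p : ℝ) := by positivity
    linarith

/-- The number of shifts divisible by a prime. -/
theorem shift_count {p D c J : ℕ} (hp : p.Prime) (hD : Nat.Coprime D p) :
    (((range J).filter (fun j => p ∣ c + D * j)).card : ℝ) ≤ (J : ℝ) / p + 1 := by
  classical
  rcases ((range J).filter (fun j => p ∣ c + D * j)).eq_empty_or_nonempty with h | ⟨j₀, h⟩
  · rw [h, card_empty, Nat.cast_zero]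
    positivity
  · rw [mem_filter] at h
    have h1 : (range J).filter (fun j => p ∣ c + D * j) ⊆ (range J).filter (fun j => j ≡ j₀ [MOD p]) := by
      intro j hj
      rw [mem_filter] at hj ⊢
      refine ⟨hj.1, ?_⟩
      have e1 : c + D * j ≡ c + D * j₀ [MOD p] :=
        ((Nat.modEq_zero_iff_dvd.2 hj.2).trans (Nat.modEq_zero_iff_dvd.2 h.2).symm)
      have e2 : D * j ≡ D * j₀ [MOD p] := Nat.ModEq.add_left_cancel' c e1
      exact Nat.ModEq.cancel_left_of_coprime (by rw [Nat.gcd_comm]; exact hD) e2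
    have h2 : ((range J).filter (fun j => j ≡ j₀ [MOD p])).card ≤ J / p + 1 := by
      rw [← Nat.count_eq_card_filter_range, Nat.count_modEq_card J hp.pos]
      split_ifs <;> omega
    have h3 : ((J / p : ℕ) : ℝ) ≤ (J : ℝ) / p := Nat.cast_div_le
    have h4 : (((range J).filter (fun j => p ∣ c + D * j)).card : ℝ) ≤ ((J / p + 1 : ℕ) : ℝ) := by
      exact_mod_cast (card_le_card h1).trans h2
    push_cast at h4
    linarith

/-- Few elements are lost in some shift. -/
theorem shift_exists {w z D c t J : ℕ} (hDw : PQ w ∣ D)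
    (hD : ∀ p : ℕ, p.Prime → w ≤ p → p < z → Nat.Coprime D p) (hJ : 0 < J) :
    ∃ j : ℕ, j < J ∧ (Wf w c t : ℝ) * (1 - ∑ p ∈ (Ico w z).filter Nat.Prime, (1 / (p : ℝ) + 1 / J)) ≤ Wf z (c + D * j) t := by
  classical
  by_contra hcon
  push Not at hcon
  obtain ⟨P, hP⟩ : ∃ P, P = (Ico w z).filter Nat.Prime := ⟨_, rfl⟩
  obtain ⟨R, hR⟩ : ∃ R, R = (Ioc c (c + t)).filter (fun n => ∀ p : ℕ, p.Prime → p < w → ¬ p ∣ n) := ⟨_, rfl⟩
  rw [← hP] at hcon
  have hRc : Wf w c t = R.card := by rw [hR]; rfl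
  have hJ0 : (0 : ℝ) < J := by exact_mod_cast hJ
  have hdvd : ∀ p : ℕ, p.Prime → p < w → ∀ j, p ∣ D * j := by
    intro p hp hpw j
    have h1 : p ∣ PQ w := dvd_prod_of_mem _ (mem_filter.2 ⟨mem_range.2 hpw, hp⟩)
    exact dvd_mul_of_dvd_left (h1.trans hDw) j
  have h1 : ∀ j, R.card ≤ Wf z (c + D * j) t + ∑ p ∈ P, (R.filter (fun m => p ∣ m + D * j)).card := by
    intro j
    have e1 : Wf z (c + D * j) t = ((Ioc c (c + t)).filter (fun n => ∀ p : ℕ, p.Prime → p < z → ¬ p ∣ n + D * j)).card := by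
      unfold Wf
      symm
      refine card_bij (fun n _ => n + D * j) ?_ ?_ ?_
      · intro n hn
        rw [mem_filter, mem_Ioc] at hn ⊢
        exact ⟨by omega, hn.2⟩
      · intro n _ m _ h
        exact Nat.add_right_cancel h
      · intro m hm
        rw [mem_filter, mem_Ioc] at hm
        refine ⟨m - D * j, ?_, by omega⟩
        rw [mem_filter, mem_Ioc]
        refine ⟨by omega, ?_⟩
        have h1 : m - D * j + D * j = m := by omega
        rw [h1]
        exact hm.2
    have e2 : R ⊆ ((Ioc c (c + t)).filter (fun n => ∀ p : ℕ, p.Prime → p < z → ¬ p ∣ n + D * j)) ∪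
        P.biUnion (fun p => R.filter (fun m => p ∣ m + D * j)) := by
      intro m hm
      have hm' := hm
      rw [hR, mem_filter] at hm'
      rw [mem_union]
      by_cases h : ∀ p : ℕ, p.Prime → p < z → ¬ p ∣ m + D * j
      · left
        rw [mem_filter]
        exact ⟨hm'.1, h⟩
      · right
        push Not at h
        obtain ⟨p, hp, hpz, hpm⟩ := h
        rw [mem_biUnion]
        refine ⟨p, ?_, mem_filter.2 ⟨hm, hpm⟩⟩
        rw [hP, mem_filter, mem_Ico]
        refine ⟨⟨?_, hpz⟩, hp⟩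
        by_contra hlt
        have e3 := hdvd p hp (by omega) j
        exact hm'.2 p hp (by omega) ((Nat.dvd_add_left e3).1 hpm)
    rw [e1]
    exact (card_le_card e2).trans ((card_union_le _ _).trans (Nat.add_le_add_left card_biUnion_le _))
  have h2 : ∀ j ∈ range J, (R.card : ℝ) ≤ Wf z (c + D * j) t + ∑ p ∈ P, ((R.filter (fun m => p ∣ m + D * j)).card : ℝ) := by
    intro j _
    have := h1 j
    have h3 : (R.card : ℝ) ≤ ((Wf z (c + D * j) t + ∑ p ∈ P, (R.filter (fun m => p ∣ m + D * j)).card : ℕ) : ℝ) := by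
      exact_mod_cast this
    push_cast at h3
    exact h3
  have h3 := sum_le_sum h2
  rw [sum_const, card_range, nsmul_eq_mul, sum_add_distrib, sum_comm] at h3
  have h4 : ∀ p ∈ P, ∑ j ∈ range J, ((R.filter (fun m => p ∣ m + D * j)).card : ℝ) ≤ R.card * ((J : ℝ) / p + 1) := by
    intro p hp
    rw [hP, mem_filter, mem_Ico] at hp
    have e1 : ∀ j, ((R.filter (fun m => p ∣ m + D * j)).card : ℝ) = ∑ m ∈ R, (if p ∣ m + D * j then (1 : ℝ) else 0) := by
      intro j
      rw [sum_boole]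
    have e2 : ∀ m, ∑ j ∈ range J, (if p ∣ m + D * j then (1 : ℝ) else 0) ≤ (J : ℝ) / p + 1 := by
      intro m
      rw [sum_boole]
      exact shift_count hp.2 (hD p hp.2 hp.1.1 hp.1.2)
    simp only [e1]
    rw [sum_comm]
    refine (sum_le_sum (fun m _ => e2 m)).trans (le_of_eq ?_)
    rw [sum_const, nsmul_eq_mul]
  have h5 := sum_le_sum h4
  rw [← mul_sum] at h5
  have h6 : ∑ j ∈ range J, (Wf z (c + D * j) t : ℝ) <
      ∑ j ∈ range J, (R.card : ℝ) * (1 - ∑ p ∈ P, (1 / (p : ℝ) + 1 / J)) := by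
    refine sum_lt_sum_of_nonempty ⟨0, mem_range.2 hJ⟩ (fun j hj => ?_)
    have := hcon j (mem_range.1 hj)
    rw [hRc] at this
    exact this
  rw [sum_const, card_range, nsmul_eq_mul] at h6
  have h7 : ∑ p ∈ P, ((J : ℝ) / p + 1) = J * ∑ p ∈ P, (1 / (p : ℝ) + 1 / J) := by
    rw [mul_sum]
    refine sum_congr rfl (fun p _ => ?_)
    field_simp
  rw [h7] at h5
  nlinarith

/-- Mertens: the primes between `k / 8` and `k` do not matter. -/
theorem ratio_one {ε : ℝ} (hε : 0 < ε) : ∀ᶠ k : ℕ in atTop, ∀ z : ℕ, z ≤ k → Vf (min z (k / 8)) ≤ (1 + ε) * Vf z := by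
  obtain ⟨c, hc⟩ : ∃ c, c = Real.exp (-Real.eulerMascheroniConstant) := ⟨_, rfl⟩
  have hc0 : 0 < c := by rw [hc]; exact Real.exp_pos _
  have h1 := Vf_lim
  rw [← hc] at h1
  have hdiv : Tendsto (fun k : ℕ => k / 8) atTop atTop := by
    rw [tendsto_atTop]
    intro K
    filter_upwards [eventually_ge_atTop (8 * K)] with k hk
    omega
  have h2 := h1.comp hdiv
  have h3 : Tendsto (fun k : ℕ => Real.log 16 / Real.log k) atTop (𝓝 0) :=
    tendsto_const_nhds.div_atTop (Real.tendsto_log_atTop.comp hcast)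
  obtain ⟨η, hη⟩ : ∃ η, η = min (ε / 8) (1 / 8) := ⟨_, rfl⟩
  have hη0 : 0 < η := by rw [hη]; exact lt_min (by linarith) (by norm_num)
  have hη1 : η ≤ ε / 8 := by rw [hη]; exact min_le_left _ _
  have hη2 : η ≤ 1 / 8 := by rw [hη]; exact min_le_right _ _
  filter_upwards [h2.eventually (ge_mem_nhds (show c < (1 + η) * c by nlinarith)),
    h1.eventually (le_mem_nhds (show (1 - η) * c < c by nlinarith)), h3.eventually (ge_mem_nhds hη0), eventually_ge_atTop 32]
    with k h4 h5 h6 h7 z hz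
  rcases Nat.lt_or_ge z (k / 8) with h8 | h8
  · rw [min_eq_left h8.le]
    have := Vf_pos z
    nlinarith
  · rw [min_eq_right h8]
    have hk : (32 : ℝ) ≤ k := by exact_mod_cast h7
    have hlk : 0 < Real.log (k : ℝ) := Real.log_pos (by linarith)
    rw [div_le_iff₀ hlk] at h6
    have e1 : (k : ℝ) / 16 ≤ ((k / 8 : ℕ) : ℝ) := by
      have : k ≤ 16 * (k / 8) := by omega
      have h9 : (k : ℝ) ≤ ((16 * (k / 8) : ℕ) : ℝ) := by exact_mod_cast this
      push_cast at h9
      linarith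
    have e2 : Real.log (k : ℝ) - Real.log 16 ≤ Real.log ((k / 8 : ℕ) : ℝ) := by
      rw [← Real.log_div (by linarith) (by norm_num)]
      exact Real.log_le_log (by linarith) e1
    have hV8 := Vf_pos (k / 8)
    have hVk := Vf_pos k
    have e3 : Vf (k / 8) * ((1 - η) * Real.log k) ≤ (1 + η) * c := by
      refine le_trans (mul_le_mul_of_nonneg_left ?_ hV8.le) h4
      linarith
    have e4 : (1 + η) * ((1 - η) * c) ≤ (1 + η) * (Vf k * Real.log k) := mul_le_mul_of_nonneg_left h5 (by linarith)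
    have e5 : (1 - η) * (Vf (k / 8) * ((1 - η) * Real.log k)) ≤ (1 - η) * ((1 + η) * c) := mul_le_mul_of_nonneg_left e3 (by linarith)
    have e6 : (1 - η) * (1 - η) * Vf (k / 8) ≤ (1 + η) * Vf k := by
      have e7 : (1 - η) * (1 - η) * Vf (k / 8) * Real.log k ≤ (1 + η) * Vf k * Real.log k := by linarith
      exact le_of_mul_le_mul_right e7 hlk
    have e7 : Vf k ≤ Vf z := Vf_anti hz
    have e8 : 1 + η ≤ (1 - η) * (1 - η) * (1 + 8 * η) := by nlinarith [mul_pos hη0 hη0, mul_pos (mul_pos hη0 hη0) hη0]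
    have e9 : (1 - η) * (1 - η) * Vf (k / 8) ≤ (1 - η) * (1 - η) * ((1 + 8 * η) * Vf k) := by
      have := mul_le_mul_of_nonneg_right e8 hVk.le
      linarith
    have e10 : 0 < (1 - η) * (1 - η) := mul_pos (by linarith) (by linarith)
    have e11 := le_of_mul_le_mul_left e9 e10
    have e12 : (1 + 8 * η) * Vf k ≤ (1 + ε) * Vf z := mul_le_mul (by linarith) e7 hVk.le (by linarith)
    linarith

/-- The reciprocals of the primes between the levels. -/
theorem sum_inv_le {w z : ℕ} (hwz : w ≤ z) {ε : ℝ} (hε : 0 ≤ ε) (h : Vf w ≤ (1 + ε) * Vf z) :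
    ∑ p ∈ (Ico w z).filter Nat.Prime, 1 / (p : ℝ) ≤ ε := by
  have h1 : Vf z = Vf w * ∏ p ∈ (Ico w z).filter Nat.Prime, (1 - 1 / (p : ℝ)) := by
    unfold Vf
    rw [← prod_union]
    · congr 1
      rw [← filter_union]
      congr 1
      ext n
      simp only [mem_union, mem_range, mem_Ico]
      omega
    · rw [Finset.disjoint_left]
      intro n hn hn'
      rw [mem_filter, mem_range] at hn
      rw [mem_filter, mem_Ico] at hn'
      omega
  have h2 : ∏ p ∈ (Ico w z).filter Nat.Prime, (1 - 1 / (p : ℝ)) ≤ Real.exp (-∑ p ∈ (Ico w z).filter Nat.Prime, 1 / (p : ℝ)) := by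
    rw [← sum_neg_distrib, Real.exp_sum]
    refine prod_le_prod (fun p hp => ?_) (fun p hp => ?_)
    · have h4 : (1 : ℝ) < p := by exact_mod_cast (mem_filter.1 hp).2.one_lt
      have h5 : 1 / (p : ℝ) < 1 := by rw [div_lt_one (by linarith)]; exact h4
      linarith
    · have := Real.add_one_le_exp (-(1 / (p : ℝ)))
      linarith
  obtain ⟨S, hS⟩ : ∃ S, S = ∑ p ∈ (Ico w z).filter Nat.Prime, 1 / (p : ℝ) := ⟨_, rfl⟩
  rw [← hS] at h2 ⊢
  have hw := Vf_pos w
  have h3 : Vf w ≤ (1 + ε) * (Vf w * Real.exp (-S)) := by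
    refine h.trans (mul_le_mul_of_nonneg_left ?_ (by linarith))
    rw [h1]
    exact mul_le_mul_of_nonneg_left h2 hw.le
  have h4 : Real.exp S ≤ 1 + ε := by
    have e1 : Vf w * Real.exp S ≤ (1 + ε) * (Vf w * Real.exp (-S)) * Real.exp S := mul_le_mul_of_nonneg_right h3 (Real.exp_pos _).le
    have e2 : (1 + ε) * (Vf w * Real.exp (-S)) * Real.exp S = Vf w * (1 + ε) := by
      rw [mul_assoc, mul_assoc, ← Real.exp_add]
      simp
      ring
    rw [e2] at e1
    exact le_of_mul_le_mul_left e1 hw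
  have h5 := Real.add_one_le_exp S
  linarith

end Pool.Agent.Q120.CL
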