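import Pool.Agent.Q120.CL.M6

/-!
# Irregular windows in the blocks, for all levels up to `k`
-/

set_option autoImplicit false

namespace Pool.Agent.Q120.CL

open Finset Filter Topology MeasureTheory Pool.Agent.Q120.MG Pool.Agent.Q120.GM

/-- The period is small. -/
theorem PQ_small (N : ℕ) : ∀ᶠ k : ℕ in atTop, ∀ w : ℕ, w ≤ k / 8 → (k ^ N + k ^ 2 + 2) * PQ w ≤ 2 ^ k := by
  filter_upwards [ev_two 4 (N + 2) (show (0 : ℝ) < 1 / 2 by norm_num), eventually_ge_atTop 1] with k h2 h3 w hw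
  have hk0 : (0 : ℝ) < k := by exact_mod_cast h3
  have hk1 : (1 : ℝ) ≤ k := by exact_mod_cast h3
  have hl2 : 0 < Real.log 2 := Real.log_pos (by norm_num)
  obtain ⟨X, hX⟩ : ∃ X : ℝ, X = 2 ^ k := ⟨_, rfl⟩
  have hX0 : 0 < X := by rw [hX]; positivity
  have hX1 : 1 ≤ X := by rw [hX]; exact one_le_pow₀ (by norm_num)
  rw [← hX] at h2
  have hlX : Real.log X = k * Real.log 2 := by rw [hX, Real.log_pow]
  have hw' : (w : ℝ) ≤ k / 8 := by
    have e1 : 8 * w ≤ k := by omega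
    have e2 : ((8 * w : ℕ) : ℝ) ≤ k := by exact_mod_cast e1
    push_cast at e2
    linarith
  have e1 : (PQ w : ℝ) ≤ X ^ ((1 : ℝ) / 4) := by
    have e2 : (PQ w : ℝ) ≤ (4 : ℝ) ^ w := by exact_mod_cast PQ_le w
    refine e2.trans ?_
    have e3 : (4 : ℝ) ^ w = Real.exp (w * Real.log 4) := by
      rw [← Real.rpow_natCast, Real.rpow_def_of_pos (by norm_num)]
      congr 1
      ring
    have e4 : Real.log 4 = 2 * Real.log 2 := by
      rw [show (4 : ℝ) = 2 ^ 2 by norm_num, Real.log_pow]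
      norm_num
    rw [e3, Real.rpow_def_of_pos hX0, Real.exp_le_exp, hlX, e4]
    nlinarith
  have e5 : ((k : ℝ) ^ N + (k : ℝ) ^ 2 + 2) ≤ 4 * (k : ℝ) ^ (N + 2) := by
    have f1 : (k : ℝ) ^ N ≤ (k : ℝ) ^ (N + 2) := pow_le_pow_right₀ hk1 (by omega)
    have f2 : (k : ℝ) ^ 2 ≤ (k : ℝ) ^ (N + 2) := pow_le_pow_right₀ hk1 (by omega)
    have f3 : 1 ≤ (k : ℝ) ^ (N + 2) := one_le_pow₀ hk1
    linarith
  have e6 : ((k : ℝ) ^ N + (k : ℝ) ^ 2 + 2) * PQ w ≤ X := by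
    calc ((k : ℝ) ^ N + (k : ℝ) ^ 2 + 2) * PQ w ≤ X ^ ((1 : ℝ) / 2) * X ^ ((1 : ℝ) / 4) :=
          mul_le_mul (e5.trans h2) e1 (by positivity) (by positivity)
      _ = X ^ ((3 : ℝ) / 4) := by
        rw [← Real.rpow_add hX0]
        norm_num
      _ ≤ X ^ (1 : ℝ) := Real.rpow_le_rpow_of_exponent_le hX1 (by norm_num)
      _ = X := Real.rpow_one X
  rw [hX] at e6
  exact_mod_cast e6

/-- Irregular windows in the block `k`. -/
theorem irr_win {δ u : ℝ} (hδ : 0 < δ) (hu : 0 ≤ u) : ∃ κ : ℝ, 0 < κ ∧ κ < 1 ∧ ∀ N : ℕ, ∀ᶠ k : ℕ in atTop, ∀ z : ℕ, z ≤ k →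
    (k : ℝ) ^ δ ≤ z → ∀ t : ℕ, 0 < t → (t : ℝ) ≤ (k : ℝ) ^ u →
      (∃ n : ℕ, 2 ^ k ≤ n ∧ n + k ^ N < 2 ^ (k + 1) ∧ (Wf z n t : ℝ) ≤ (1 - κ) * (Vf z * t)) ∧
      ∃ n : ℕ, 2 ^ k ≤ n ∧ n + k ^ N < 2 ^ (k + 1) ∧ (1 + κ) * (Vf z * t) ≤ Wf z n t := by
  obtain ⟨d, hd⟩ : ∃ d, d = min δ (1 / 2) := ⟨_, rfl⟩
  have hd0 : 0 < d := by rw [hd]; exact lt_min hδ (by norm_num)
  have hd1 : d ≤ δ := by rw [hd]; exact min_le_left _ _
  have hd2 : d ≤ 1 / 2 := by rw [hd]; exact min_le_right _ _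
  obtain ⟨v, hv⟩ : ∃ v, v = max 1 ((u + 1) / d) := ⟨_, rfl⟩
  have hv1 : 1 ≤ v := by rw [hv]; exact le_max_left _ _
  have huv : u + 1 ≤ d * v := by
    have : (u + 1) / d ≤ v := by rw [hv]; exact le_max_right _ _
    rw [div_le_iff₀ hd0] at this
    linarith
  obtain ⟨κ, h0, h01, z₀, hirr⟩ := irregular hv1
  refine ⟨κ / 4, by positivity, by linarith, fun N => ?_⟩
  have hkd : Tendsto (fun k : ℕ => (k : ℝ) ^ d) atTop atTop := (tendsto_rpow_atTop hd0).comp hcast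
  filter_upwards [hkd.eventually_ge_atTop (z₀ : ℝ), hcast.eventually_ge_atTop (1 / κ), PQ_small N, eventually_ge_atTop 256,
    ratio_one (show 0 < κ / 8 by positivity), hcast.eventually_ge_atTop (8 / κ)] with k h1 h2 h3 h4 h5 h6 z hz hzd t ht htu
  have hk256 : (256 : ℝ) ≤ k := by exact_mod_cast h4
  have hk0 : (0 : ℝ) < k := by linarith
  obtain ⟨w, hw⟩ : ∃ w, w = min z (k / 8) := ⟨_, rfl⟩
  have hwz : w ≤ z := by rw [hw]; exact min_le_left _ _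
  have hwk : w ≤ k / 8 := by rw [hw]; exact min_le_right _ _
  have hwd : (k : ℝ) ^ d ≤ w := by
    have e1 : (k : ℝ) ^ d ≤ z := (Real.rpow_le_rpow_of_exponent_le (by linarith) hd1).trans hzd
    have e2 : (k : ℝ) ^ d ≤ ((k / 8 : ℕ) : ℝ) := by
      have e3 : (k : ℝ) ^ d ≤ (k : ℝ) ^ ((1 : ℝ) / 2) := Real.rpow_le_rpow_of_exponent_le (by linarith) hd2
      have e4 : (k : ℝ) ^ ((1 : ℝ) / 2) ≤ k / 16 := by
        rw [← Real.sqrt_eq_rpow, Real.sqrt_le_left (by positivity)]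
        nlinarith
      have e5 : (k : ℝ) / 16 ≤ ((k / 8 : ℕ) : ℝ) := by
        have : k ≤ 16 * (k / 8) := by omega
        have h9 : (k : ℝ) ≤ ((16 * (k / 8) : ℕ) : ℝ) := by exact_mod_cast this
        push_cast at h9
        linarith
      linarith
    rw [hw, Nat.cast_min]
    exact le_min e1 e2
  have hwz₀ : z₀ ≤ w := by
    have : (z₀ : ℝ) ≤ w := h1.trans hwd
    exact_mod_cast this
  have hVw := h5 z hz
  rw [← hw] at hVw
  have hVz := Vf_pos z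
  have hVwp := Vf_pos w
  have hanti := Vf_anti hwz
  have hlen : (t : ℝ) ≤ κ * (w : ℝ) ^ v := by
    have e1 : (k : ℝ) ^ (u + 1) ≤ (w : ℝ) ^ v := by
      calc (k : ℝ) ^ (u + 1) ≤ (k : ℝ) ^ (d * v) := Real.rpow_le_rpow_of_exponent_le (by linarith) huv
        _ = ((k : ℝ) ^ d) ^ v := by rw [Real.rpow_mul hk0.le]
        _ ≤ (w : ℝ) ^ v := Real.rpow_le_rpow (by positivity) hwd (by linarith)
    have e2 : (k : ℝ) ^ (u + 1) = k * (k : ℝ) ^ u := by
      rw [Real.rpow_add hk0, Real.rpow_one]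
      ring
    rw [div_le_iff₀ h0] at h2
    have e3 : 0 ≤ (k : ℝ) ^ u := by positivity
    calc (t : ℝ) ≤ 1 * (k : ℝ) ^ u := by linarith
      _ ≤ (k * κ) * (k : ℝ) ^ u := mul_le_mul_of_nonneg_right (by linarith) e3
      _ = κ * (k : ℝ) ^ (u + 1) := by rw [e2]; ring
      _ ≤ κ * (w : ℝ) ^ v := mul_le_mul_of_nonneg_left e1 h0.le
  obtain ⟨⟨a₁, ha₁⟩, ⟨a₂, ha₂⟩⟩ := hirr w hwz₀ t ht hlen
  have ht0 : (0 : ℝ) < t := by exact_mod_cast ht
  -- the shifts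
  have hP := PQ_pos w
  obtain ⟨q, hq⟩ : ∃ q, q = 2 ^ k / PQ w := ⟨_, rfl⟩
  have hq1 : k ^ N + k ^ 2 + 2 ≤ q := by
    rw [hq]
    exact (Nat.le_div_iff_mul_le hP).2 (h3 w hwk)
  have hq2 : PQ w * q ≤ 2 ^ k := by
    rw [hq]
    exact Nat.mul_div_le _ _
  have hq3 : 2 ^ k < PQ w * q + PQ w := by
    rw [hq]
    exact Nat.lt_mul_div_succ _ hP
  obtain ⟨J, hJ⟩ : ∃ J, J = q - k ^ N - 2 := ⟨_, rfl⟩
  have hJk : k ^ 2 ≤ J := by omega
  have hpos : ∀ a j : ℕ, j < J + 1 → 2 ^ k ≤ a % PQ w + PQ w * (q + 1) + PQ w * j ∧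
      a % PQ w + PQ w * (q + 1) + PQ w * j + k ^ N < 2 ^ (k + 1) := by
    intro a j hj
    have e1 : a % PQ w < PQ w := Nat.mod_lt _ hP
    have e2 : PQ w * (q + 1) = PQ w * q + PQ w := by ring
    refine ⟨by omega, ?_⟩
    have e3 : PQ w * (q + 2 + j + k ^ N) ≤ PQ w * (2 * q) := Nat.mul_le_mul_left _ (by omega)
    have e4 : PQ w * (q + 2 + j + k ^ N) = PQ w * q + PQ w + PQ w + PQ w * j + PQ w * k ^ N := by ring
    have e5 : PQ w * (2 * q) = 2 * (PQ w * q) := by ring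
    have e6 : k ^ N ≤ PQ w * k ^ N := Nat.le_mul_of_pos_left _ hP
    have e7 : 2 ^ (k + 1) = 2 * 2 ^ k := by rw [pow_succ]; ring
    omega
  have hper : ∀ a j : ℕ, Wf w (a % PQ w + PQ w * (q + 1) + PQ w * j) t = Wf w a t := by
    intro a j
    rw [Wf_period', Wf_period', Wf_mod]
  constructor
  · refine ⟨a₁ % PQ w + PQ w * (q + 1) + PQ w * 0, (hpos a₁ 0 (by omega)).1, (hpos a₁ 0 (by omega)).2, ?_⟩
    have e1 : (Wf z (a₁ % PQ w + PQ w * (q + 1) + PQ w * 0) t : ℝ) ≤ Wf w a₁ t := by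
      rw [← hper a₁ 0]
      exact_mod_cast Wf_anti hwz _ _
    refine e1.trans (ha₁.trans ?_)
    have e2 : (1 - κ) * (Vf w * t) ≤ (1 - κ) * ((1 + κ / 8) * Vf z * t) :=
      mul_le_mul_of_nonneg_left (mul_le_mul_of_nonneg_right hVw ht0.le) (by linarith)
    refine e2.trans ?_
    have e3 : (1 - κ) * (1 + κ / 8) ≤ 1 - κ / 4 := by nlinarith
    have e4 := mul_le_mul_of_nonneg_right e3 (mul_pos hVz ht0).le
    linarith
  · have hJ0 : 0 < J := by
      have : 0 < k ^ 2 := by positivity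
      omega
    have hcop : ∀ p : ℕ, p.Prime → w ≤ p → p < z → Nat.Coprime (PQ w) p := by
      intro p hp hwp _
      rw [Nat.coprime_comm, hp.coprime_iff_not_dvd]
      unfold PQ
      intro hdvd
      obtain ⟨r, hr, hr'⟩ := (hp.prime.dvd_finset_prod_iff _).1 hdvd
      rw [mem_filter, mem_range] at hr
      have := (Nat.prime_dvd_prime_iff_eq hp hr.2).1 hr'
      omega
    obtain ⟨j, hj, hj'⟩ := shift_exists (w := w) (z := z) (D := PQ w) (c := a₂ % PQ w + PQ w * (q + 1)) (t := t) (J := J)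
      dvd_rfl hcop hJ0
    have hj1 : j < J + 1 := by omega
    refine ⟨a₂ % PQ w + PQ w * (q + 1) + PQ w * j, (hpos a₂ j hj1).1, (hpos a₂ j hj1).2, le_trans ?_ hj'⟩
    have e0 : Wf w (a₂ % PQ w + PQ w * (q + 1)) t = Wf w a₂ t := by
      have := hper a₂ 0
      rw [mul_zero, add_zero] at this
      exact this
    rw [e0]
    have e1 : ∑ p ∈ (Ico w z).filter Nat.Prime, (1 / (p : ℝ) + 1 / J) ≤ κ / 4 := by
      rw [sum_add_distrib, sum_const, nsmul_eq_mul]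
      have f1 := sum_inv_le hwz (by positivity) hVw
      have f2 : (((Ico w z).filter Nat.Prime).card : ℝ) ≤ k := by
        have : ((Ico w z).filter Nat.Prime).card ≤ k := by
          refine (card_filter_le _ _).trans ?_
          rw [Nat.card_Ico]
          omega
        exact_mod_cast this
      have hJr : (k : ℝ) ^ 2 ≤ J := by exact_mod_cast hJk
      have hJr0 : (0 : ℝ) < J := by exact_mod_cast hJ0
      have f3 : (((Ico w z).filter Nat.Prime).card : ℝ) * (1 / J) ≤ κ / 8 := by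
        rw [div_le_iff₀ h0] at h6
        rw [mul_one_div, div_le_iff₀ hJr0]
        have : (k : ℝ) ≤ κ / 8 * (k : ℝ) ^ 2 := by nlinarith
        nlinarith
      linarith
    have e2 : (1 + κ / 4) ≤ (1 + κ) * (1 - κ / 4) := by nlinarith
    have e3 : 0 ≤ Vf z * t := by positivity
    have e4 : (1 + κ) * (Vf z * t) ≤ Wf w a₂ t := by
      refine le_trans ?_ ha₂
      exact mul_le_mul_of_nonneg_left (mul_le_mul_of_nonneg_right hanti ht0.le) (by linarith)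
    calc (1 + κ / 4) * (Vf z * t) ≤ (1 + κ) * (1 - κ / 4) * (Vf z * t) := mul_le_mul_of_nonneg_right e2 e3
      _ = (1 + κ) * (Vf z * t) * (1 - κ / 4) := by ring
      _ ≤ Wf w a₂ t * (1 - κ / 4) := mul_le_mul_of_nonneg_right e4 (by linarith)
      _ ≤ _ := mul_le_mul_of_nonneg_left (by linarith) (Nat.cast_nonneg _)

end Pool.Agent.Q120.CL
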