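import Pool.Agent.Q120.CL.U1

/-!
# Gaps in the models whose level is a power of the logarithm
-/

set_option autoImplicit false

namespace Pool.Agent.Q120.CL

open Finset Filter Topology MeasureTheory Pool.Agent.Q120.MG Pool.Agent.Q120.GM

theorem q_small' {z : ℕ → ℕ} (hz : HV z) : Tendsto (fun k : ℕ => 1 / (Vf (z k) * (k * Real.log 2))) atTop (𝓝 0) := by
  obtain ⟨D, hD, h⟩ := hz
  have hl2 : 0 < Real.log 2 := Real.log_pos (by norm_num)
  rw [Metric.tendsto_nhds]
  intro ε hε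
  have h1 := (isLittleO_log_rpow_atTop (show (0 : ℝ) < 1 by norm_num)).bound (show 0 < ε * Real.log 2 / (2 * D) by positivity)
  filter_upwards [h, hcast.eventually h1, eventually_ge_atTop 1] with k h2 h3 h4
  have hk1 : (1 : ℝ) ≤ k := by exact_mod_cast h4
  have hk0 : (0 : ℝ) < k := by linarith
  have hV := Vf_pos (z k)
  rw [Real.norm_of_nonneg (Real.log_nonneg hk1), Real.rpow_one, Real.norm_of_nonneg hk0.le] at h3
  rw [Real.dist_eq, sub_zero, abs_of_nonneg (by positivity)]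
  have e1 : 1 / (Vf (z k) * (k * Real.log 2)) = 1 / Vf (z k) * (1 / (k * Real.log 2)) := by field_simp
  rw [e1]
  have e2 : D * Real.log k ≤ ε / 2 * (k * Real.log 2) := by
    calc D * Real.log k ≤ D * (ε * Real.log 2 / (2 * D) * k) := mul_le_mul_of_nonneg_left h3 hD.le
      _ = ε / 2 * (k * Real.log 2) := by field_simp
  have e3 : 0 < 1 / ((k : ℝ) * Real.log 2) := by positivity
  calc 1 / Vf (z k) * (1 / (k * Real.log 2)) ≤ ε / 2 * (k * Real.log 2) * (1 / (k * Real.log 2)) :=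
        mul_le_mul_of_nonneg_right (h2.trans e2) e3.le
    _ = ε / 2 := by field_simp
    _ < ε := by linarith

theorem pow_lt_two {T : ℝ} (C : ℝ) : ∀ᶠ k : ℕ in atTop, C * (k : ℝ) ^ T + 2 ≤ 2 ^ k := by
  obtain ⟨N, hN⟩ := exists_nat_ge T
  filter_upwards [ev_two (|C| + 2) N (show (0 : ℝ) < 1 by norm_num), eventually_ge_atTop 1] with k hk hk1
  have hk1' : (1 : ℝ) ≤ k := by exact_mod_cast hk1
  rw [Real.rpow_one] at hk
  have h1 : (k : ℝ) ^ T ≤ (k : ℝ) ^ (N : ℝ) := Real.rpow_le_rpow_of_exponent_le hk1' hN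
  rw [Real.rpow_natCast] at h1
  have h3 : 1 ≤ (k : ℝ) ^ N := one_le_pow₀ hk1'
  have h4 : C * (k : ℝ) ^ T ≤ |C| * (k : ℝ) ^ N := by
    have h5 : 0 ≤ (k : ℝ) ^ T := by positivity
    calc C * (k : ℝ) ^ T ≤ |C| * (k : ℝ) ^ T := mul_le_mul_of_nonneg_right (le_abs_self C) h5
      _ ≤ |C| * (k : ℝ) ^ N := mul_le_mul_of_nonneg_left h1 (abs_nonneg C)
  linarith

variable {Ω : Type*} [MeasurableSpace Ω] {μ : Measure Ω} [IsProbabilityMeasure μ] {A : Ω → Set ℕ} {z : ℕ → ℕ}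

/-- Upper bound for the gaps at the level `(log x) ^ α`. -/
theorem hit (low : LOW) (hA : IsModel μ (pr z) A) {α T : ℝ} (hα : 1 ≤ α) (hT : 2 * α < T)
    (hz : ∀ᶠ k : ℕ in atTop, (z k : ℝ) ≤ (k : ℝ) ^ α) (hHV : HV z) :
    ∀ᵐ ω ∂μ, ∀ᶠ k : ℕ in atTop, ∀ n : ℕ, 2 ^ k ≤ n → n < 2 ^ (k + 1) →
      ∃ m ∈ A ω, n < m ∧ (m : ℝ) ≤ n + 4 * 2 ^ T * (k : ℝ) ^ T := by
  classical
  have hl2 : 0 < Real.log 2 := Real.log_pos (by norm_num)
  have hl21 : Real.log 2 ≤ 1 := by linarith [Real.log_two_lt_d9]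
  have hα0 : 0 < α := by linarith
  obtain ⟨c, hc, Y, hlow⟩ := low' low (s := T / α) (by rw [lt_div_iff₀ hα0]; linarith)
  obtain ⟨h, hh⟩ : ∃ h : ℕ → ℕ, h = fun (k : ℕ) => ⌈(k : ℝ) ^ T⌉₊ := ⟨_, rfl⟩
  obtain ⟨J, hJ⟩ : ∃ J : ℕ → Finset ℕ, J = fun k => (Ico (2 ^ k) (2 ^ (k + 1))).filter (fun n => n + h k < 2 ^ (k + 1)) := ⟨_, rfl⟩
  obtain ⟨B, hB⟩ : ∃ B : ℕ → Set Ω, B = fun k => ⋃ n ∈ J k, free A (Ioc n (n + h k)) := ⟨_, rfl⟩
  have hpowT : Tendsto (fun k : ℕ => (k : ℝ) ^ T) atTop atTop := (tendsto_rpow_atTop (by linarith)).comp hcast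
  have hpow2 : Tendsto (fun k : ℕ => (k : ℝ) ^ (T - 2)) atTop atTop := (tendsto_rpow_atTop (by linarith)).comp hcast
  have hh1 : ∀ k : ℕ, (k : ℝ) ^ T ≤ h k := by
    intro k
    rw [hh]
    exact Nat.le_ceil _
  have hh2 : ∀ k : ℕ, 1 ≤ k → (h k : ℝ) ≤ 2 * (k : ℝ) ^ T := by
    intro k hk
    have hk1 : (1 : ℝ) ≤ k := by exact_mod_cast hk
    have e1 : 1 ≤ (k : ℝ) ^ T := Real.one_le_rpow hk1 (by linarith)
    have e2 := Nat.ceil_lt_add_one (show 0 ≤ (k : ℝ) ^ T by positivity)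
    rw [hh]
    simp only []
    linarith
  have hbound : ∀ᶠ k : ℕ in atTop, μ.real (B k) ≤ (Real.exp (-1)) ^ k := by
    filter_upwards [hz, hq_ev' hHV, hpowT.eventually_ge_atTop (Y : ℝ), hpow2.eventually_ge_atTop (4 / c), eventually_ge_atTop 1]
      with k h1 h2 h3 h4 hk
    have hk1 : (1 : ℝ) ≤ k := by exact_mod_cast hk
    have hk0 : (0 : ℝ) < k := by linarith
    have hone : ∀ n ∈ J k, μ.real (free A (Ioc n (n + h k))) ≤ Real.exp (-(2 * k)) := by
      intro n hn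
      rw [hJ] at hn
      simp only [] at hn
      rw [mem_filter, mem_Ico] at hn
      refine (free_le hA hk h2 (a := n) (t := h k) (by omega) hn.2).trans ?_
      rw [Real.exp_le_exp, neg_le_neg_iff]
      have hV := Vf_pos (z k)
      have e1 : c * (Vf (z k) * h k) ≤ Wf (z k) n (h k) := by
        refine hlow (z k) n (h k) ?_ ?_
        · refine le_trans ?_ (hh1 k)
          calc (z k : ℝ) ^ (T / α) ≤ ((k : ℝ) ^ α) ^ (T / α) := Real.rpow_le_rpow (Nat.cast_nonneg _) h1 (div_nonneg (by linarith) hα0.le)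
            _ = (k : ℝ) ^ T := by
              rw [← Real.rpow_mul hk0.le]
              congr 1
              field_simp
        · have : (Y : ℝ) ≤ h k := h3.trans (hh1 k)
          exact_mod_cast this
      rw [le_div_iff₀ (by positivity)]
      refine le_trans ?_ e1
      have e2 : c * (Vf (z k) * (k : ℝ) ^ T) ≤ c * (Vf (z k) * h k) :=
        mul_le_mul_of_nonneg_left (mul_le_mul_of_nonneg_left (hh1 k) hV.le) hc.le
      refine le_trans ?_ e2
      have e3 : (k : ℝ) ^ T = (k : ℝ) ^ (T - 2) * (k : ℝ) ^ 2 := by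
        rw [← Real.rpow_natCast (k : ℝ) 2, ← Real.rpow_add hk0]
        congr 1
        push_cast
        ring
      rw [div_le_iff₀ hc] at h4
      have e4 : 4 * (k : ℝ) ^ 2 ≤ c * (k : ℝ) ^ T := by
        rw [e3]
        nlinarith [sq_nonneg (k : ℝ)]
      have e5 : 2 * (k : ℝ) * (((k : ℝ) + 1) * Real.log 2) ≤ 4 * (k : ℝ) ^ 2 := by
        have e6 : ((k : ℝ) + 1) * Real.log 2 ≤ 2 * k := by nlinarith
        nlinarith
      calc 2 * (k : ℝ) * (Vf (z k) * (((k : ℝ) + 1) * Real.log 2)) = Vf (z k) * (2 * (k : ℝ) * (((k : ℝ) + 1) * Real.log 2)) := by ring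
        _ ≤ Vf (z k) * (c * (k : ℝ) ^ T) := mul_le_mul_of_nonneg_left (e5.trans e4) hV.le
        _ = c * (Vf (z k) * (k : ℝ) ^ T) := by ring
    rw [hB]
    refine (measureReal_biUnion_finset_le _ _).trans ((sum_le_sum hone).trans ?_)
    rw [sum_const, nsmul_eq_mul]
    have e1 : ((J k).card : ℝ) ≤ (2 : ℝ) ^ k := by
      have e2 : (J k).card ≤ 2 ^ k := by
        rw [hJ]
        refine (card_filter_le _ _).trans ?_
        rw [Nat.card_Ico, pow_succ]
        omega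
      exact_mod_cast e2
    have h2e : (2 : ℝ) ^ k ≤ Real.exp k := by
      have : (2 : ℝ) ≤ Real.exp 1 := by linarith [Real.exp_one_gt_d9]
      calc (2 : ℝ) ^ k ≤ (Real.exp 1) ^ k := pow_le_pow_left₀ (by norm_num) this k
        _ = Real.exp k := by rw [← Real.exp_nat_mul, mul_one]
    calc ((J k).card : ℝ) * Real.exp (-(2 * (k : ℝ))) ≤ Real.exp k * Real.exp (-(2 * (k : ℝ))) :=
          mul_le_mul_of_nonneg_right (e1.trans h2e) (Real.exp_pos _).le
      _ = (Real.exp (-1)) ^ k := by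
        rw [← Real.exp_add, ← Real.exp_nat_mul]
        congr 1
        ring
  have hsm : Summable (fun k : ℕ => (Real.exp (-1)) ^ k) := by
    refine summable_geometric_of_lt_one (Real.exp_pos _).le ?_
    rw [Real.exp_lt_one_iff]
    norm_num
  have hs1 := tendsto_add_atTop_nat 1
  filter_upwards [bc hsm hbound] with ω hω
  have hin : ∀ᶠ k : ℕ in atTop, ∀ n : ℕ, 2 ^ k ≤ n → n + h k < 2 ^ (k + 1) → ∃ m ∈ A ω, n < m ∧ m ≤ n + h k := by
    filter_upwards [hω] with k hk n hn1 hn2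
    by_contra hcon
    push Not at hcon
    rw [hB] at hk
    apply hk
    refine Set.mem_biUnion (x := n) ?_ ?_
    · rw [hJ]
      exact mem_coe.2 (mem_filter.2 ⟨mem_Ico.2 ⟨hn1, by omega⟩, hn2⟩)
    · intro m hm hmA
      rw [mem_Ioc] at hm
      have := hcon m hmA hm.1
      omega
  filter_upwards [hin, hs1.eventually hin, hs1.eventually (pow_lt_two (T := T) 2), eventually_ge_atTop 1] with k h1 h2 h3 hk n hn1 hn2
  have hk1 : (1 : ℝ) ≤ k := by exact_mod_cast hk
  have hk0 : (0 : ℝ) < k := by linarith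
  have f1 := hh2 k hk
  have f2 := hh2 (k + 1) (by omega)
  have f3 : (((k + 1 : ℕ) : ℝ)) ^ T ≤ 2 ^ T * (k : ℝ) ^ T := by
    rw [← Real.mul_rpow (by norm_num) hk0.le]
    refine Real.rpow_le_rpow (by positivity) ?_ (by linarith)
    push_cast
    linarith
  have f4 : 0 ≤ (k : ℝ) ^ T := by positivity
  have f5 : 1 ≤ (2 : ℝ) ^ T := Real.one_le_rpow (by norm_num) (by linarith)
  have f6 : (k : ℝ) ^ T ≤ 2 ^ T * (k : ℝ) ^ T := le_mul_of_one_le_left f4 f5
  rcases Nat.lt_or_ge (n + h k) (2 ^ (k + 1)) with hc1 | hc1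
  · obtain ⟨m, hm1, hm2, hm3⟩ := h1 n hn1 hc1
    refine ⟨m, hm1, hm2, ?_⟩
    have : (m : ℝ) ≤ n + h k := by exact_mod_cast hm3
    linarith
  · have e1 : 2 ^ (k + 1) + h (k + 1) < 2 ^ (k + 1 + 1) := by
      have e2 : (h (k + 1) : ℝ) < 2 ^ (k + 1) := by linarith
      have e3 : h (k + 1) < 2 ^ (k + 1) := by exact_mod_cast e2
      rw [pow_succ 2 (k + 1)]
      omega
    obtain ⟨m, hm1, hm2, hm3⟩ := h2 (2 ^ (k + 1)) le_rfl e1
    refine ⟨m, hm1, by omega, ?_⟩
    have e2 : m ≤ n + h k + h (k + 1) := by omega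
    have : (m : ℝ) ≤ n + h k + h (k + 1) := by exact_mod_cast e2
    linarith

/-- Lower bound for the gaps at all levels. -/
theorem lower_all (hA : IsModel μ (pr z) A) {C : ℕ} (hC : 0 < C) (hz : ∀ᶠ k : ℕ in atTop, z k ≤ k ^ C) {ε : ℝ} (hε : 0 < ε)
    (hε1 : ε < 1) : ∀ᵐ ω ∂μ, ∀ᶠ k : ℕ in atTop, ∃ n : ℕ, 2 ^ k ≤ n ∧ n + ⌊(1 - ε) * bud k⌋₊ < 2 ^ (k + 1) ∧
      ∀ m ∈ A ω, n < m → n + ⌊(1 - ε) * bud k⌋₊ < m := by
  classical
  have hHV := HV_of_pow hC hz
  obtain ⟨s, B₀, hs, hwf⟩ := wf_all (show 0 < ε / 16 by positivity) (by linarith)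
  obtain ⟨t, ht⟩ : ∃ t : ℕ → ℕ, t = fun k => ⌊(1 - ε) * bud k⌋₊ := ⟨_, rfl⟩
  obtain ⟨n, hn⟩ : ∃ n : ℕ → ℕ → ℕ, n = fun k j => 2 ^ k + (t k + 1) * j := ⟨_, rfl⟩
  obtain ⟨J, hJ⟩ : ∃ J : ℕ → ℕ, J = fun k => 2 ^ k / (t k + 1) := ⟨_, rfl⟩
  obtain ⟨E, hE⟩ : ∃ E : ℕ → ℕ → Set Ω, E = fun k j => free A (Ioc (n k j) (n k j + t k)) := ⟨_, rfl⟩
  obtain ⟨B, hB⟩ : ∃ B : ℕ → Set Ω, B = fun k => ⋂ j ∈ range (J k), (E k j)ᶜ := ⟨_, rfl⟩
  have hl2 : 0 < Real.log 2 := Real.log_pos (by norm_num)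
  have hl21 : Real.log 2 ≤ 1 := by linarith [Real.log_two_lt_d9]
  have hpos : ∀ k j, j < J k → n k j + t k < 2 ^ (k + 1) := by
    intro k j hj
    rw [hJ] at hj
    simp only [] at hj
    rw [hn]
    simp only []
    have e1 : (t k + 1) * (j + 1) ≤ (t k + 1) * (2 ^ k / (t k + 1)) := Nat.mul_le_mul_left _ hj
    have e2 := Nat.mul_div_le (2 ^ k) (t k + 1)
    have e3 : (t k + 1) * (j + 1) = (t k + 1) * j + t k + 1 := by ring
    rw [pow_succ]
    omega
  have hbound : ∀ᶠ k : ℕ in atTop, μ.real (B k) ≤ (Real.exp (-1)) ^ k := by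
    have g1 := (q_small' hHV).eventually (ge_mem_nhds (show (0 : ℝ) < ε / 8 by linarith))
    have g4 := ev_two 4 3 (show 0 < ε / 4 by linarith)
    have g5 : ∀ᶠ k : ℕ in atTop, 32 / ε * ((k : ℝ) ^ C + 1) ^ s * ((B₀ : ℝ) + 1) * ((k : ℝ) ^ C + 1) ≤ 2 ^ k := by
      filter_upwards [ev_two (32 / ε * 2 ^ s * ((B₀ : ℝ) + 1) * 2) (C * s + C) (show (0 : ℝ) < 1 by norm_num), eventually_ge_atTop 1]
        with k h1 h2
      have hk1 : (1 : ℝ) ≤ k := by exact_mod_cast h2
      rw [Real.rpow_one] at h1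
      refine le_trans ?_ h1
      have e1 : 1 ≤ (k : ℝ) ^ C := one_le_pow₀ hk1
      have e2 : (k : ℝ) ^ C + 1 ≤ 2 * (k : ℝ) ^ C := by linarith
      have e3 : ((k : ℝ) ^ C + 1) ^ s ≤ (2 * (k : ℝ) ^ C) ^ s := pow_le_pow_left₀ (by positivity) e2 s
      calc 32 / ε * ((k : ℝ) ^ C + 1) ^ s * ((B₀ : ℝ) + 1) * ((k : ℝ) ^ C + 1)
          ≤ 32 / ε * (2 * (k : ℝ) ^ C) ^ s * ((B₀ : ℝ) + 1) * (2 * (k : ℝ) ^ C) := by
            refine mul_le_mul ?_ e2 (by positivity) (by positivity)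
            exact mul_le_mul_of_nonneg_right (mul_le_mul_of_nonneg_left e3 (by positivity)) (by positivity)
        _ = 32 / ε * 2 ^ s * ((B₀ : ℝ) + 1) * 2 * (k : ℝ) ^ (C * s + C) := by
          rw [mul_pow, pow_add, pow_mul]
          ring
    have g6 : ∀ᶠ k : ℕ in atTop, 64 / ε ^ 2 ≤ bud k := bud_tendsto.eventually_ge_atTop _
    filter_upwards [g1, hz, g4, g5, g6, eventually_ge_atTop 4] with k h1 h2 h4 h5 h6 hk4
    have hk4' : (4 : ℝ) ≤ k := by exact_mod_cast hk4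
    have hk0 : (0 : ℝ) < k := by linarith
    have hk1 : 1 ≤ k := by omega
    have hV := Vf_pos (z k)
    obtain ⟨X, hX⟩ : ∃ X : ℝ, X = 2 ^ k := ⟨_, rfl⟩
    have hX0 : 0 < X := by rw [hX]; positivity
    rw [← hX] at h4 h5
    obtain ⟨L, hL⟩ : ∃ L, L = (k : ℝ) * Real.log 2 := ⟨_, rfl⟩
    have hL0 : 0 < L := by rw [hL]; positivity
    have hlX : Real.log X = L := by rw [hX, Real.log_pow, hL]
    have hbud : bud k = L ^ 2 := by rw [hL]; rfl
    have htL : (t k : ℝ) ≤ (1 - ε) * L ^ 2 := by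
      rw [ht, ← hbud]
      exact Nat.floor_le (mul_nonneg (by linarith) (bud_nonneg k))
    have htk : (t k : ℝ) + 1 ≤ (k : ℝ) ^ 2 := by
      have e1 : (1 - ε) * L ^ 2 + ε * L ^ 2 = L ^ 2 := by ring
      have e2 : 1 ≤ ε * L ^ 2 := by
        rw [← hbud]
        rw [div_le_iff₀ (by positivity)] at h6
        nlinarith
      have e3 : L ^ 2 ≤ (k : ℝ) ^ 2 := by
        rw [← hbud]
        exact bud_upper k
      linarith
    have ht0 : (0 : ℝ) < (t k : ℝ) + 1 := by positivity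
    -- number of windows
    have hJl : X / (2 * ((t k : ℝ) + 1)) ≤ J k := by
      have e2 := Nat.lt_mul_div_succ (2 ^ k) (Nat.succ_pos (t k))
      have e3 : ((2 ^ k : ℕ) : ℝ) < (((t k + 1) * (2 ^ k / (t k + 1) + 1) : ℕ) : ℝ) := by exact_mod_cast e2
      have e4 : X < ((t k : ℝ) + 1) * ((J k : ℝ) + 1) := by
        rw [hJ, hX]
        push_cast at e3 ⊢
        exact e3
      have e5 : (t k : ℝ) + 1 ≤ X / 2 := by
        have e6 : 4 * (k : ℝ) ^ 3 ≤ X := by
          refine h4.trans ?_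
          calc X ^ (ε / 4) ≤ X ^ (1 : ℝ) := by
                refine Real.rpow_le_rpow_of_exponent_le ?_ (by linarith)
                rw [hX]
                exact one_le_pow₀ (by norm_num)
            _ = X := Real.rpow_one X
        nlinarith [pow_pos hk0 2]
      rw [div_le_iff₀ (by positivity)]
      nlinarith
    have hJu : ((t k : ℝ) + 1) * J k ≤ X := by
      have e2 := Nat.mul_div_le (2 ^ k) (t k + 1)
      have e3 : (((t k + 1) * (2 ^ k / (t k + 1)) : ℕ) : ℝ) ≤ ((2 ^ k : ℕ) : ℝ) := by exact_mod_cast e2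
      rw [hJ, hX]
      push_cast at e3 ⊢
      exact e3
    have hJ0 : (0 : ℝ) < J k := lt_of_lt_of_le (by positivity) hJl
    -- average of the windows
    have hsum : ∑ j ∈ range (J k), (Wf (z k) (n k j) (t k) : ℝ) ≤ J k * ((1 + ε / 8) * (Vf (z k) * ((t k : ℝ) + 1))) := by
      have e1 : ∀ N : ℕ, ∑ j ∈ range N, Wf (z k) (n k j) (t k) ≤ Wf (z k) (2 ^ k) ((t k + 1) * N) := by
        intro N
        induction N with
        | zero => simp
        | succ N ih =>
          rw [sum_range_succ, mul_add, mul_one, Wf_add]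
          refine Nat.add_le_add ih ?_
          rw [hn]
          exact Wf_mono _ _ (by omega)
      have e2 : (∑ j ∈ range (J k), (Wf (z k) (n k j) (t k) : ℝ)) ≤ Wf (z k) (2 ^ k) ((t k + 1) * J k) := by
        exact_mod_cast e1 (J k)
      refine e2.trans ?_
      have e3 := (abs_le.1 (hwf (z k) (2 ^ k) ((t k + 1) * J k))).2
      push_cast at e3
      have e4 : ((z k : ℝ) ^ s + B₀) ≤ ε / 16 * (Vf (z k) * (((t k : ℝ) + 1) * J k)) := by
        have f1 : (z k : ℝ) ≤ (k : ℝ) ^ C := by exact_mod_cast h2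
        have f2 : (z k : ℝ) ^ s ≤ ((k : ℝ) ^ C + 1) ^ s := pow_le_pow_left₀ (Nat.cast_nonneg _) (by linarith) s
        have f3 : 1 / ((k : ℝ) ^ C + 1) ≤ Vf (z k) :=
          (one_div_le_one_div_of_le (by positivity) (by linarith)).trans (le_Vf2 (z k))
        have f4 : X / 2 ≤ ((t k : ℝ) + 1) * J k := by
          rw [div_le_iff₀ (by positivity)] at hJl
          linarith
        have f5 : 1 ≤ ((k : ℝ) ^ C + 1) ^ s := one_le_pow₀ (by linarith [show 0 ≤ (k : ℝ) ^ C by positivity])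
        have f6 : (z k : ℝ) ^ s + B₀ ≤ ((k : ℝ) ^ C + 1) ^ s * ((B₀ : ℝ) + 1) := by
          have : (0 : ℝ) ≤ B₀ := Nat.cast_nonneg _
          nlinarith
        have f7 : ((k : ℝ) ^ C + 1) ^ s * ((B₀ : ℝ) + 1) * ((k : ℝ) ^ C + 1) ≤ ε / 32 * X := by
          have : 32 / ε * (((k : ℝ) ^ C + 1) ^ s * ((B₀ : ℝ) + 1) * ((k : ℝ) ^ C + 1)) ≤ X := by
            refine le_trans (le_of_eq ?_) h5
            ring
          rw [div_mul_eq_mul_div, div_le_iff₀ hε] at this
          linarith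
        have hKpos : 0 < (k : ℝ) ^ C + 1 := by positivity
        have f8 : ((k : ℝ) ^ C + 1) ^ s * ((B₀ : ℝ) + 1) ≤ ε / 32 * X * (1 / ((k : ℝ) ^ C + 1)) := by
          rw [mul_one_div, le_div_iff₀ hKpos]
          exact f7
        calc (z k : ℝ) ^ s + B₀ ≤ ε / 32 * X * (1 / ((k : ℝ) ^ C + 1)) := f6.trans f8
          _ ≤ ε / 32 * X * Vf (z k) := mul_le_mul_of_nonneg_left f3 (by positivity)
          _ = ε / 16 * (Vf (z k) * (X / 2)) := by ring
          _ ≤ ε / 16 * (Vf (z k) * (((t k : ℝ) + 1) * J k)) :=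
            mul_le_mul_of_nonneg_left (mul_le_mul_of_nonneg_left f4 hV.le) (by positivity)
      have e5 : J k * ((1 + ε / 8) * (Vf (z k) * ((t k : ℝ) + 1))) = (1 + ε / 8) * (Vf (z k) * (((t k : ℝ) + 1) * J k)) := by ring
      rw [e5]
      linarith
    -- the probabilities
    obtain ⟨β, hβ⟩ : ∃ β, β = (1 + 2 * (ε / 8)) * (1 / (Vf (z k) * (k * Real.log 2))) := ⟨_, rfl⟩
    have hβ0 : 0 < β := by rw [hβ]; positivity
    obtain ⟨M, hM⟩ : ∃ M, M = (1 + ε / 8) * (Vf (z k) * ((t k : ℝ) + 1)) := ⟨_, rfl⟩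
    rw [← hM] at hsum
    have hfac : ∀ j ∈ range (J k), Real.exp (-(β * M)) * (1 - β * (Wf (z k) (n k j) (t k) - M)) ≤ μ.real (E k j) := by
      intro j hj
      rw [mem_range] at hj
      have e3 := le_free hA hk1 h1 (by linarith) (a := n k j) (t := t k) (by rw [hn]; simp only []; omega) (hpos k j hj)
      rw [hE]
      refine le_trans ?_ e3
      have e4 := Real.add_one_le_exp (-(β * (Wf (z k) (n k j) (t k) - M)))
      calc Real.exp (-(β * M)) * (1 - β * (Wf (z k) (n k j) (t k) - M))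
          ≤ Real.exp (-(β * M)) * Real.exp (-(β * (Wf (z k) (n k j) (t k) - M))) :=
            mul_le_mul_of_nonneg_left (by linarith) (Real.exp_pos _).le
        _ = Real.exp (-((1 + 2 * (ε / 8)) * ((Wf (z k) (n k j) (t k) : ℝ) * (1 / (Vf (z k) * (k * Real.log 2)))))) := by
          rw [← Real.exp_add]
          congr 1
          rw [hβ]
          ring
    have hS : (k : ℝ) ≤ ∑ j ∈ range (J k), μ.real (E k j) := by
      have e1 := sum_le_sum hfac
      refine le_trans ?_ e1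
      rw [← mul_sum, sum_sub_distrib, sum_const, card_range, nsmul_eq_mul, mul_one, ← mul_sum, sum_sub_distrib, sum_const,
        card_range, nsmul_eq_mul]
      have e2 : (J k : ℝ) ≤ (J k : ℝ) - β * (∑ j ∈ range (J k), (Wf (z k) (n k j) (t k) : ℝ) - J k * M) := by
        have : β * (∑ j ∈ range (J k), (Wf (z k) (n k j) (t k) : ℝ) - J k * M) ≤ 0 :=
          mul_nonpos_of_nonneg_of_nonpos hβ0.le (by linarith)
        linarith
      have e3 : β * M ≤ (1 - ε / 4) * L := by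
        have e4 : β * M = (1 + 2 * (ε / 8)) * (1 + ε / 8) * (((t k : ℝ) + 1) / L) := by
          rw [hβ, hM, hL]
          field_simp
        rw [e4]
        have e5 : ((t k : ℝ) + 1) / L ≤ (1 - ε) * L + 1 / L := by
          rw [div_le_iff₀ hL0, add_mul, one_div, inv_mul_cancel₀ hL0.ne']
          nlinarith
        have e6 : 1 / L ≤ ε ^ 2 / 64 * L := by
          rw [div_le_iff₀ hL0]
          rw [hbud, div_le_iff₀ (by positivity)] at h6
          nlinarith
        have e7 : (1 + 2 * (ε / 8)) * (1 + ε / 8) * (((t k : ℝ) + 1) / L) ≤ (1 + 2 * (ε / 8)) * (1 + ε / 8) * ((1 - ε + ε ^ 2 / 64) * L) := by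
          refine mul_le_mul_of_nonneg_left ?_ (by positivity)
          linarith
        refine e7.trans ?_
        rw [← mul_assoc]
        refine mul_le_mul_of_nonneg_right ?_ hL0.le
        nlinarith [mul_pos hε hε, mul_pos (mul_pos hε hε) hε]
      have e4 : Real.exp (-((1 - ε / 4) * L)) ≤ Real.exp (-(β * M)) := by
        rw [Real.exp_le_exp]
        linarith
      have e5 : (k : ℝ) ≤ Real.exp (-((1 - ε / 4) * L)) * J k := by
        have f1 : Real.exp (-((1 - ε / 4) * L)) = X ^ (ε / 4) / X := by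
          rw [Real.rpow_def_of_pos hX0, hlX]
          have : X = Real.exp L := by rw [← hlX, Real.exp_log hX0]
          rw [this, ← Real.exp_sub]
          congr 1
          ring
        rw [f1, div_mul_eq_mul_div, le_div_iff₀ hX0]
        have f2 : (k : ℝ) * X ≤ 4 * (k : ℝ) ^ 3 * (X / (2 * ((t k : ℝ) + 1))) := by
          rw [mul_div_assoc', le_div_iff₀ (by positivity)]
          have f3 : (k : ℝ) * (2 * ((t k : ℝ) + 1)) ≤ 4 * (k : ℝ) ^ 3 := by nlinarith
          calc (k : ℝ) * X * (2 * ((t k : ℝ) + 1)) = (k : ℝ) * (2 * ((t k : ℝ) + 1)) * X := by ring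
            _ ≤ 4 * (k : ℝ) ^ 3 * X := mul_le_mul_of_nonneg_right f3 hX0.le
        refine f2.trans ?_
        exact mul_le_mul h4 hJl (by positivity) (by positivity)
      calc (k : ℝ) ≤ Real.exp (-((1 - ε / 4) * L)) * J k := e5
        _ ≤ Real.exp (-(β * M)) * J k := mul_le_mul_of_nonneg_right e4 hJ0.le
        _ ≤ _ := mul_le_mul_of_nonneg_left e2 (Real.exp_pos _).le
    rw [hB]
    simp only []
    have hmeas : ∀ j ∈ range (J k), MeasurableSet[F A (Set.Ioc (n k j) (n k j + t k))] ((E k j)ᶜ) := by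
      intro j _
      apply MeasurableSet.compl
      rw [hE]
      refine F_free (fun m hm => ?_)
      rw [mem_Ioc] at hm
      exact hm
    have hlt : ∀ i j : ℕ, i < j → n k i + t k < n k j := by
      intro i j hij
      rw [hn]
      simp only []
      have e1 : (t k + 1) * (i + 1) ≤ (t k + 1) * j := Nat.mul_le_mul_left _ hij
      have e3 : (t k + 1) * (i + 1) = (t k + 1) * i + t k + 1 := by ring
      omega
    have hdis : ∀ i ∈ range (J k), ∀ j ∈ range (J k), i ≠ j →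
        Disjoint (Set.Ioc (n k i) (n k i + t k)) (Set.Ioc (n k j) (n k j + t k)) := by
      intro i _ j _ hij
      rw [Set.disjoint_left]
      intro m hm hm'
      rw [Set.mem_Ioc] at hm hm'
      rcases Nat.lt_or_gt_of_ne hij with h | h
      · have := hlt i j h
        omega
      · have := hlt j i h
        omega
    rw [indep_many hA (range (J k)) (fun j => Set.Ioc (n k j) (n k j + t k)) hdis (fun j => (E k j)ᶜ) hmeas]
    have hfac2 : ∀ j ∈ range (J k), μ.real ((E k j)ᶜ) ≤ Real.exp (-μ.real (E k j)) := by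
      intro j hj
      have e1 : MeasurableSet (E k j) := by rw [hE]; exact meas_free hA _
      rw [measureReal_compl e1, probReal_univ]
      have e3 := Real.add_one_le_exp (-μ.real (E k j))
      linarith
    refine (prod_le_prod (fun j _ => measureReal_nonneg) hfac2).trans ?_
    rw [← Real.exp_sum, ← Real.exp_nat_mul, Real.exp_le_exp, sum_neg_distrib]
    linarith
  have hsm : Summable (fun k : ℕ => (Real.exp (-1)) ^ k) := by
    refine summable_geometric_of_lt_one (Real.exp_pos _).le ?_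
    rw [Real.exp_lt_one_iff]
    norm_num
  filter_upwards [bc hsm hbound] with ω hω
  filter_upwards [hω] with k hk
  rw [hB] at hk
  simp only [Set.mem_iInter₂, Set.mem_compl_iff] at hk
  push Not at hk
  obtain ⟨j, hj, h1⟩ := hk
  rw [mem_range] at hj
  rw [hE] at h1
  have htk : ⌊(1 - ε) * bud k⌋₊ = t k := by rw [ht]
  rw [htk]
  refine ⟨n k j, ?_, hpos k j hj, fun m hm hnm => ?_⟩
  · rw [hn]
    simp only []
    omega
  · by_contra hcon
    exact h1 m (mem_Ioc.2 ⟨hnm, by omega⟩) hm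

end Pool.Agent.Q120.CL
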