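import Pool.Agent.Q120.CL.M5

/-!
# Concentration of the counts for the levels up to a power of the logarithm
-/

set_option autoImplicit false

namespace Pool.Agent.Q120.CL

open Finset Filter Topology MeasureTheory Pool.Agent.Q120.MG Pool.Agent.Q120.GM Pool.Agent.Q112.LE

/-- The density of the level is at least a multiple of `1 / log k`. -/
def HV (z : ℕ → ℕ) : Prop := ∃ D : ℝ, 0 < D ∧ ∀ᶠ k : ℕ in atTop, 1 / Vf (z k) ≤ D * Real.log k

theorem HV_of_pow {z : ℕ → ℕ} {C : ℕ} (hC : 0 < C) (hz : ∀ᶠ k : ℕ in atTop, z k ≤ k ^ C) : HV z := by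
  obtain ⟨D, hD, h⟩ := Vf_ge
  have hC0 : (0 : ℝ) < C := by exact_mod_cast hC
  refine ⟨D * C, by positivity, ?_⟩
  have hp : Tendsto (fun k : ℕ => k ^ C) atTop atTop := tendsto_pow_atTop (by omega)
  filter_upwards [hz, hp.eventually h] with k h1 h2
  refine (h2 (z k) h1).trans (le_of_eq ?_)
  push_cast
  rw [Real.log_pow]
  ring

theorem HV_of_le {z : ℕ → ℕ} (hz : ∀ᶠ k : ℕ in atTop, z k ≤ k) : HV z :=
  HV_of_pow (C := 1) one_pos (by simpa using hz)

theorem hq_ev' {z : ℕ → ℕ} (hz : HV z) : ∀ᶠ k : ℕ in atTop, 1 ≤ Vf (z k) * (k * Real.log 2) := by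
  obtain ⟨C, hC, h⟩ := hz
  have hl2 : 0 < Real.log 2 := Real.log_pos (by norm_num)
  have h1 := (isLittleO_log_rpow_atTop (show (0 : ℝ) < 1 by norm_num)).bound (show 0 < Real.log 2 / C by positivity)
  filter_upwards [h, hcast.eventually h1, eventually_ge_atTop 1] with k h6 h4 h5
  have hk1 : (1 : ℝ) ≤ k := by exact_mod_cast h5
  have hV := Vf_pos (z k)
  rw [Real.norm_of_nonneg (Real.log_nonneg hk1), Real.rpow_one, Real.norm_of_nonneg (by linarith)] at h4
  rw [div_le_iff₀ hV] at h6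
  have h7 : C * Real.log k ≤ k * Real.log 2 := by
    calc C * Real.log k ≤ C * (Real.log 2 / C * k) := mul_le_mul_of_nonneg_left h4 hC.le
      _ = k * Real.log 2 := by field_simp
  nlinarith

variable {Ω : Type*} [MeasurableSpace Ω] {μ : Measure Ω} [IsProbabilityMeasure μ] {A : Ω → Set ℕ} {z : ℕ → ℕ}

/-- The probabilities in the blocks `k` and `k + 1`. -/
theorem pr_bound' (hz : HV z) : ∃ C : ℝ, 0 < C ∧ ∀ᶠ k : ℕ in atTop, ∀ m : ℕ, 2 ^ k ≤ m → m < 2 ^ (k + 2) →
    pr z m ≤ C * (Real.log k / k) := by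
  obtain ⟨C, hC, h⟩ := hz
  refine ⟨4 * C, by positivity, ?_⟩
  have hs := (tendsto_add_atTop_nat 1)
  filter_upwards [h, hs.eventually h, log_ev, eventually_ge_atTop 2] with k h1 h2 h5 hk m hm1 hm2
  have hk2 : (2 : ℝ) ≤ k := by exact_mod_cast hk
  have hl2 := Real.log_two_gt_d9
  have hl20 : 0 < Real.log 2 := by linarith
  have hlk : 0 ≤ Real.log (k : ℝ) := Real.log_natCast_nonneg k
  have key : ∀ j : ℕ, 1 ≤ j → (k : ℝ) ≤ j → 1 / Vf (z j) ≤ C * (2 * Real.log k) → 2 ^ j ≤ m → m < 2 ^ (j + 1) →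
      pr z m ≤ 4 * C * (Real.log k / k) := by
    intro j hj hkj hV hj1 hj2
    refine (pr_le hj hj1 hj2).trans ?_
    have hVp := Vf_pos (z j)
    have hj0 : (0 : ℝ) < j := by exact_mod_cast hj
    have e1 : 1 / (Vf (z j) * (j * Real.log 2)) = 1 / Vf (z j) * (1 / (j * Real.log 2)) := by field_simp
    rw [e1]
    have e2 : 1 / ((j : ℝ) * Real.log 2) ≤ 2 / k := by
      rw [div_le_div_iff₀ (by positivity) (by linarith)]
      nlinarith
    calc 1 / Vf (z j) * (1 / ((j : ℝ) * Real.log 2)) ≤ C * (2 * Real.log k) * (2 / k) :=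
          mul_le_mul hV e2 (by positivity) (by positivity)
      _ = 4 * C * (Real.log k / k) := by ring
  rcases Nat.lt_or_ge m (2 ^ (k + 1)) with hc | hc
  · refine key k (by omega) le_rfl ?_ hm1 hc
    refine h1.trans ?_
    nlinarith
  · refine key (k + 1) (by omega) (by push_cast; linarith) ?_ hc hm2
    refine h2.trans ?_
    push_cast
    nlinarith

/-- **Concentration**, uniformly in all windows. -/
theorem conc' (hA : IsModel μ (pr z) A) (hz : HV z) {η : ℝ} (hη : 0 < η) {ε : ℝ} (hε : 0 < ε) (hε1 : ε ≤ 1) :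
    ∀ᵐ ω ∂μ, ∀ᶠ k : ℕ in atTop, ∀ n : ℕ, 2 ^ k ≤ n → n < 2 ^ (k + 1) → ∀ t : ℕ, (k : ℝ) ^ (2 + η) ≤ t → t ≤ 2 ^ (k + 1) →
      |(cnt (A ω) n t : ℝ) - ex z n t| ≤ ε * (t / k) := by
  classical
  obtain ⟨C, hC, hpr⟩ := pr_bound' hz
  obtain ⟨J, hJ⟩ : ∃ J : ℕ → Finset (ℕ × ℕ), J = fun (k : ℕ) => ((Ico (2 ^ k) (2 ^ (k + 1))) ×ˢ (range (2 ^ (k + 1) + 1))).filter
    (fun q : ℕ × ℕ => (k : ℝ) ^ (2 + η) ≤ (q.2 : ℝ)) := ⟨_, rfl⟩
  obtain ⟨B, hB⟩ : ∃ B : ℕ → Set Ω, B = fun (k : ℕ) => ⋃ q ∈ J k, {ω | ε * ((q.2 : ℝ) / k) < |(cnt (A ω) q.1 q.2 : ℝ) - ex z q.1 q.2|} :=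
    ⟨_, rfl⟩
  have hbound : ∀ᶠ k : ℕ in atTop, μ.real (B k) ≤ 6 * (Real.exp (-1)) ^ k := by
    have g1 : ∀ᶠ k : ℕ in atTop, 12 * C / ε ^ 2 * Real.log k ≤ (k : ℝ) ^ η := by
      have h1 := (isLittleO_log_rpow_atTop hη).bound (show 0 < 1 / (12 * C / ε ^ 2) by positivity)
      filter_upwards [hcast.eventually h1, eventually_ge_atTop 1] with k hk hk1
      have hk1' : (1 : ℝ) ≤ k := by exact_mod_cast hk1
      rw [Real.norm_of_nonneg (Real.log_nonneg hk1'), Real.norm_of_nonneg (by positivity)] at hk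
      have h2 : 0 < 12 * C / ε ^ 2 := by positivity
      calc 12 * C / ε ^ 2 * Real.log k ≤ 12 * C / ε ^ 2 * (1 / (12 * C / ε ^ 2) * (k : ℝ) ^ η) := mul_le_mul_of_nonneg_left hk h2.le
        _ = (k : ℝ) ^ η := by field_simp
    have g2 : ∀ᶠ k : ℕ in atTop, 1 ≤ C * Real.log k := by
      have h1 : Tendsto (fun k : ℕ => C * Real.log (k : ℝ)) atTop atTop :=
        Tendsto.const_mul_atTop hC (Real.tendsto_log_atTop.comp hcast)
      exact h1.eventually_ge_atTop 1
    filter_upwards [hpr, g1, g2, eventually_ge_atTop 2] with k h1 h2 h3 hk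
    have hk2 : (2 : ℝ) ≤ k := by exact_mod_cast hk
    have hk0 : (0 : ℝ) < k := by linarith
    have hlk : 0 < Real.log (k : ℝ) := Real.log_pos (by linarith)
    have hone : ∀ q ∈ J k, μ.real {ω | ε * ((q.2 : ℝ) / k) < |(cnt (A ω) q.1 q.2 : ℝ) - ex z q.1 q.2|} ≤ 2 * Real.exp (-(3 * k)) := by
      intro q hq
      obtain ⟨n, t⟩ := q
      rw [hJ, mem_filter, mem_product, mem_Ico, mem_range] at hq
      simp only [] at hq ⊢
      obtain ⟨⟨⟨hn1, hn2⟩, ht2⟩, ht1⟩ := hq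
      have ht0 : (0 : ℝ) < t := lt_of_lt_of_le (by positivity) ht1
      have hM : ∑ m ∈ Ioc n (n + t), pr z m ≤ C * (Real.log k / k) * t := by
        have e1 : ∀ m ∈ Ioc n (n + t), pr z m ≤ C * (Real.log k / k) := by
          intro m hm
          rw [mem_Ioc] at hm
          refine h1 m (by omega) ?_
          have : 2 ^ (k + 2) = 2 ^ (k + 1) + 2 ^ (k + 1) := by ring
          have : 2 ^ (k + 1) = 2 ^ k + 2 ^ k := by ring
          omega
        refine (sum_le_sum e1).trans (le_of_eq ?_)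
        rw [sum_const, Nat.card_Ioc, nsmul_eq_mul, Nat.add_sub_cancel_left]
        ring
      have hBpos : 0 < C * (Real.log k / k) * t := by positivity
      have h4 := dev_window hA n t (B := C * (Real.log k / k) * t) (T := ε * ((t : ℝ) / k)) hBpos (by positivity) (by
        have e1 : 2 * (C * (Real.log k / k) * t) = 2 * (C * Real.log k) * ((t : ℝ) / k) := by ring
        rw [e1]
        exact mul_le_mul_of_nonneg_right (by linarith) (by positivity)) hM
      refine h4.trans ?_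
      have e2 : 3 * (k : ℝ) ≤ (ε * ((t : ℝ) / k)) ^ 2 / (4 * (C * (Real.log k / k) * t)) := by
        have e3 : (ε * ((t : ℝ) / k)) ^ 2 / (4 * (C * (Real.log k / k) * t)) = ε ^ 2 * t / (4 * C * (k * Real.log k)) := by
          field_simp
        rw [e3, le_div_iff₀ (by positivity)]
        have e4 : (k : ℝ) ^ (2 + η) = (k : ℝ) ^ 2 * (k : ℝ) ^ η := by
          rw [Real.rpow_add hk0, Real.rpow_two]
        calc 3 * (k : ℝ) * (4 * C * (k * Real.log k)) = ε ^ 2 * ((k : ℝ) ^ 2 * (12 * C / ε ^ 2 * Real.log k)) := by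
              field_simp
              ring
          _ ≤ ε ^ 2 * ((k : ℝ) ^ 2 * (k : ℝ) ^ η) := by
            refine mul_le_mul_of_nonneg_left (mul_le_mul_of_nonneg_left h2 (by positivity)) (by positivity)
          _ = ε ^ 2 * (k : ℝ) ^ (2 + η) := by rw [e4]
          _ ≤ ε ^ 2 * t := mul_le_mul_of_nonneg_left ht1 (by positivity)
      have e5 : Real.exp (-((ε * ((t : ℝ) / k)) ^ 2 / (4 * (C * (Real.log k / k) * t)))) ≤ Real.exp (-(3 * k)) := by
        rw [Real.exp_le_exp]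
        linarith
      linarith
    rw [hB]
    refine (measureReal_biUnion_finset_le _ _).trans ((sum_le_sum hone).trans ?_)
    rw [sum_const, nsmul_eq_mul]
    have hcard : ((J k).card : ℝ) ≤ 3 * (2 : ℝ) ^ k * 2 ^ k := by
      have e1 : (J k).card ≤ 2 ^ k * (2 * 2 ^ k + 1) := by
        rw [hJ]
        refine (card_le_card (filter_subset _ _)).trans ?_
        rw [card_product, Nat.card_Ico, card_range]
        have : 2 ^ (k + 1) - 2 ^ k = 2 ^ k := by
          rw [pow_succ]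
          omega
        rw [this, pow_succ, mul_comm (2 ^ k) 2]
      have e2 : ((J k).card : ℝ) ≤ (2 : ℝ) ^ k * (2 * 2 ^ k + 1) := by exact_mod_cast e1
      have e3 : (1 : ℝ) ≤ 2 ^ k := one_le_pow₀ (by norm_num)
      nlinarith
    have h2e : (2 : ℝ) ^ k ≤ Real.exp k := by
      have : (2 : ℝ) ≤ Real.exp 1 := by linarith [Real.exp_one_gt_d9]
      calc (2 : ℝ) ^ k ≤ (Real.exp 1) ^ k := pow_le_pow_left₀ (by norm_num) this k
        _ = Real.exp k := by rw [← Real.exp_nat_mul, mul_one]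
    have h3e : (2 : ℝ) ^ k * 2 ^ k ≤ Real.exp k * Real.exp k := mul_le_mul h2e h2e (by positivity) (Real.exp_pos _).le
    have h4e : Real.exp (-(3 * (k : ℝ))) = Real.exp (-k) * Real.exp (-k) * Real.exp (-k) := by
      rw [← Real.exp_add, ← Real.exp_add]
      congr 1
      ring
    have h5e : Real.exp (k : ℝ) * Real.exp (-(k : ℝ)) = 1 := by
      rw [← Real.exp_add]
      simp
    have h6e : (Real.exp (-1)) ^ k = Real.exp (-(k : ℝ)) := by
      rw [← Real.exp_nat_mul]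
      congr 1
      ring
    have hp := Real.exp_pos (-(k : ℝ))
    calc ((J k).card : ℝ) * (2 * Real.exp (-(3 * (k : ℝ)))) ≤ (3 * (2 : ℝ) ^ k * 2 ^ k) * (2 * Real.exp (-(3 * (k : ℝ)))) :=
          mul_le_mul_of_nonneg_right hcard (by positivity)
      _ = 6 * ((2 : ℝ) ^ k * 2 ^ k) * Real.exp (-(3 * (k : ℝ))) := by ring
      _ ≤ 6 * (Real.exp k * Real.exp k) * Real.exp (-(3 * (k : ℝ))) := by
        refine mul_le_mul_of_nonneg_right (by linarith) (Real.exp_pos _).le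
      _ = 6 * (Real.exp k * Real.exp (-k)) * (Real.exp k * Real.exp (-k)) * Real.exp (-k) := by
        rw [h4e]
        ring
      _ = 6 * (Real.exp (-1)) ^ k := by
        rw [h5e, h6e]
        ring
  have hsm : Summable (fun k : ℕ => 6 * (Real.exp (-1)) ^ k) := by
    refine (summable_geometric_of_lt_one (Real.exp_pos _).le ?_).mul_left 6
    rw [Real.exp_lt_one_iff]
    norm_num
  filter_upwards [bc hsm hbound] with ω hω
  filter_upwards [hω] with k hk n hn1 hn2 t ht1 ht2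
  rw [hB] at hk
  by_contra hcon
  push Not at hcon
  refine hk (Set.mem_biUnion (x := (n, t)) ?_ hcon)
  rw [hJ]
  exact mem_coe.2 (mem_filter.2 ⟨mem_product.2 ⟨mem_Ico.2 ⟨hn1, hn2⟩, mem_range.2 (Nat.lt_succ_of_le ht2)⟩, ht1⟩)

end Pool.Agent.Q120.CL
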