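import Pool.Agent.Q120.CL.U1

/-!
# Uniform densities
-/

set_option autoImplicit false

namespace Pool.Agent.Q120.CL

open Finset Filter Topology MeasureTheory Pool.Agent.Q120.MG Pool.Agent.Q120.GM

/-- Regular densities in all long windows of the blocks. -/
theorem ex_uniform {κ : ℝ} (hκ : 0 < κ) (hκ1 : κ ≤ 1 / 4) : ∃ s : ℕ, 1 ≤ s ∧ ∀ (z : ℕ → ℕ) (b b' : ℝ), 0 ≤ b → b < b' → HV z →
    (∀ᶠ k : ℕ in atTop, (z k : ℝ) ^ s ≤ (k : ℝ) ^ b) → ∀ᶠ k : ℕ in atTop, ∀ n t : ℕ, 2 ^ k ≤ n → n < 2 ^ (k + 1) →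
      (k : ℝ) ^ b' ≤ t → t ≤ 2 ^ (k + 1) → |ex z n t - t / (k * Real.log 2)| ≤ 4 * κ * (t / (k * Real.log 2)) := by
  obtain ⟨s, B, hs, hwf⟩ := wf_all hκ (by linarith)
  refine ⟨s, hs, fun z b b' hb hbb hHV hzs => ?_⟩
  obtain ⟨C, hC, hV⟩ := id hHV
  have hl2 : 0 < Real.log 2 := Real.log_pos (by norm_num)
  have hE : ∀ᶠ k : ℕ in atTop, ((z k : ℝ) ^ s + B) / Vf (z k) ≤ κ / 2 ^ b' * (k : ℝ) ^ b' := by
    have h1 := (isLittleO_log_rpow_atTop (show (0 : ℝ) < b' - b by linarith)).bound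
      (show 0 < κ / 2 ^ b' / (C * ((B : ℝ) + 1)) by positivity)
    filter_upwards [hV, hzs, hcast.eventually h1, eventually_ge_atTop 1] with k h7 h4 h5 h6
    have hk1 : (1 : ℝ) ≤ k := by exact_mod_cast h6
    have hk0 : (0 : ℝ) < k := by linarith
    have hVp := Vf_pos (z k)
    rw [Real.norm_of_nonneg (Real.log_nonneg hk1), Real.norm_of_nonneg (by positivity)] at h5
    have h8 : 1 ≤ (k : ℝ) ^ b := Real.one_le_rpow hk1 hb
    have h9 : (k : ℝ) ^ b' = (k : ℝ) ^ (b' - b) * (k : ℝ) ^ b := by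
      rw [← Real.rpow_add hk0]
      congr 1
      ring
    have hlk := Real.log_nonneg hk1
    calc ((z k : ℝ) ^ s + B) / Vf (z k) = ((z k : ℝ) ^ s + B) * (1 / Vf (z k)) := by ring
      _ ≤ (((B : ℝ) + 1) * (k : ℝ) ^ b) * (C * Real.log k) := by
        refine mul_le_mul ?_ h7 (by positivity) (by positivity)
        have : (0 : ℝ) ≤ B := Nat.cast_nonneg B
        nlinarith
      _ = (C * ((B : ℝ) + 1)) * Real.log k * (k : ℝ) ^ b := by ring
      _ ≤ (C * ((B : ℝ) + 1)) * (κ / 2 ^ b' / (C * ((B : ℝ) + 1)) * (k : ℝ) ^ (b' - b)) * (k : ℝ) ^ b := by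
        refine mul_le_mul_of_nonneg_right (mul_le_mul_of_nonneg_left h5 (by positivity)) (by positivity)
      _ = κ / 2 ^ b' * (k : ℝ) ^ b' := by
        rw [h9]
        field_simp
  have hs1 := tendsto_add_atTop_nat 1
  filter_upwards [hE, hs1.eventually hE, hq_ev' hHV, hs1.eventually (hq_ev' hHV), hcast.eventually_ge_atTop (2 / κ),
    eventually_ge_atTop 1] with k h1 h2 h3 h4 h8 h9 n t hn1 hn2 ht1 ht2
  have hk1 : (1 : ℝ) ≤ k := by exact_mod_cast h9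
  have hk0 : (0 : ℝ) < k := by linarith
  obtain ⟨l, hl⟩ : ∃ l, l = Real.log 2 := ⟨_, rfl⟩
  rw [← hl] at hl2 h3 h4 ⊢
  have ht0 : (0 : ℝ) < t := lt_of_lt_of_le (by positivity) ht1
  have h2b : 1 ≤ (2 : ℝ) ^ b' := Real.one_le_rpow (by norm_num) (by linarith)
  have hE1 : κ / 2 ^ b' * (k : ℝ) ^ b' ≤ κ * t := by
    have : κ / 2 ^ b' ≤ κ := div_le_self hκ.le h2b
    exact mul_le_mul this ht1 (by positivity) hκ.le
  have hE2 : κ / 2 ^ b' * (((k + 1 : ℕ) : ℝ)) ^ b' ≤ κ * t := by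
    have e1 : (((k + 1 : ℕ) : ℝ)) ^ b' ≤ 2 ^ b' * (k : ℝ) ^ b' := by
      rw [← Real.mul_rpow (by norm_num) hk0.le]
      refine Real.rpow_le_rpow (by positivity) ?_ (by linarith)
      push_cast
      linarith
    calc κ / 2 ^ b' * (((k + 1 : ℕ) : ℝ)) ^ b' ≤ κ / 2 ^ b' * (2 ^ b' * (k : ℝ) ^ b') := mul_le_mul_of_nonneg_left e1 (by positivity)
      _ = κ * (k : ℝ) ^ b' := by field_simp
      _ ≤ κ * t := mul_le_mul_of_nonneg_left ht1 hκ.le
  have hup : ex z n t ≤ (1 + 3 * κ) * t / (k * l) ∧ (1 - κ) * t / (((k : ℝ) + 2) * l) - 2 * κ * t / (k * l) ≤ ex z n t := by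
    rcases Nat.lt_or_ge (n + t) (2 ^ (k + 1)) with hc | hc
    · have hp := part_bounds hwf h9 (by rw [← hl]; exact h3) (h1.trans hE1) (n := n) (t := t) (by omega) hc
      rw [← hl] at hp
      constructor
      · refine hp.1.trans (div_le_div_of_nonneg_right ?_ (by positivity))
        nlinarith
      · refine le_trans ?_ hp.2
        have e1 : (1 - κ) * t / (((k : ℝ) + 2) * l) ≤ (1 - κ) * t / (((k : ℝ) + 1) * l) := by
          refine div_le_div_of_nonneg_left (mul_nonneg (by linarith) ht0.le) (by positivity) ?_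
          nlinarith
        have e2 : κ * t / (k * l) ≤ 2 * κ * t / (k * l) := div_le_div_of_nonneg_right (by nlinarith) (by positivity)
        linarith
    · obtain ⟨t₁, ht₁⟩ : ∃ t₁, t₁ = 2 ^ (k + 1) - 1 - n := ⟨_, rfl⟩
      obtain ⟨t₂, ht₂⟩ : ∃ t₂, t₂ = t - t₁ := ⟨_, rfl⟩
      have e6 : 2 ^ (k + 1) = 2 * 2 ^ k := by rw [pow_succ]; ring
      have e7 : 2 ^ (k + 1 + 1) = 2 * 2 ^ (k + 1) := by rw [pow_succ]; ring
      have ett : t = t₁ + t₂ := by omega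
      have hp1 := part_bounds hwf h9 (by rw [← hl]; exact h3) (h1.trans hE1) (n := n) (t := t₁) (by omega) (by omega)
      have hp2 := part_bounds hwf (k := k + 1) (by omega) (by rw [← hl]; exact h4) (h2.trans hE2) (n := n + t₁) (t := t₂)
        (by omega) (by omega)
      rw [← hl] at hp1 hp2
      have e8 : ex z n t = ex z n t₁ + ex z (n + t₁) t₂ := by rw [ett, ex_add]
      have etr : (t : ℝ) = t₁ + t₂ := by exact_mod_cast ett
      have ht₁0 : (0 : ℝ) ≤ t₁ := Nat.cast_nonneg _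
      have ht₂0 : (0 : ℝ) ≤ t₂ := Nat.cast_nonneg _
      rw [e8]
      obtain ⟨G, hG⟩ : ∃ G, G = κ * (t : ℝ) := ⟨_, rfl⟩
      rw [← hG] at hp1 hp2
      have e0 : 0 ≤ G := by rw [hG]; positivity
      have e10 : ((1 + κ) * t₂ + G) / (((k + 1 : ℕ) : ℝ) * l) ≤ ((1 + κ) * t₂ + G) / (k * l) := by
        refine div_le_div_of_nonneg_left (by positivity) (by positivity) ?_
        push_cast
        nlinarith
      constructor
      · have e9 : ex z n t₁ + ex z (n + t₁) t₂ ≤ ((1 + κ) * t₁ + G) / (k * l) + ((1 + κ) * t₂ + G) / (k * l) :=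
          add_le_add hp1.1 (hp2.1.trans e10)
        refine e9.trans ?_
        rw [← add_div]
        refine div_le_div_of_nonneg_right ?_ (by positivity)
        rw [etr] at hG ⊢
        rw [hG]
        linarith
      · have e11 : (1 - κ) * t₁ / (((k : ℝ) + 2) * l) ≤ (1 - κ) * t₁ / (((k : ℝ) + 1) * l) := by
          refine div_le_div_of_nonneg_left (mul_nonneg (by linarith) ht₁0) (by positivity) ?_
          nlinarith
        have e12 : (1 - κ) * t₂ / (((k : ℝ) + 2) * l) = (1 - κ) * t₂ / ((((k + 1 : ℕ) : ℝ) + 1) * l) := by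
          push_cast
          congr 2
          ring
        have e13 : G / (((k + 1 : ℕ) : ℝ) * l) ≤ G / (k * l) := by
          refine div_le_div_of_nonneg_left e0 (by positivity) ?_
          push_cast
          nlinarith
        have e14 : (1 - κ) * t / (((k : ℝ) + 2) * l) = (1 - κ) * t₁ / (((k : ℝ) + 2) * l) + (1 - κ) * t₂ / (((k : ℝ) + 2) * l) := by
          rw [etr, ← add_div]
          congr 1
          ring
        have e15 : G / (k * l) + G / (k * l) = 2 * κ * t / (k * l) := by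
          rw [← add_div, hG]
          congr 1
          ring
        linarith [hp1.2, hp2.2]
  obtain ⟨hu1, hu2⟩ := hup
  obtain ⟨T, hT⟩ : ∃ T, T = (t : ℝ) / (k * l) := ⟨_, rfl⟩
  have hT0 : 0 < T := by rw [hT]; positivity
  rw [← hT]
  have f1 : (1 + 3 * κ) * t / (k * l) = (1 + 3 * κ) * T := by rw [hT]; ring
  have f2 : 2 * κ * t / (k * l) = 2 * κ * T := by rw [hT]; ring
  have f3 : (1 - κ) * ((1 - κ) * T) ≤ (1 - κ) * t / (((k : ℝ) + 2) * l) := by
    have e1 : (1 - κ) * T ≤ (t : ℝ) / (((k : ℝ) + 2) * l) := by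
      rw [hT, mul_div_assoc', div_le_div_iff₀ (by positivity) (by positivity)]
      rw [div_le_iff₀ hκ] at h8
      have e2 : (1 - κ) * (k + 2) ≤ (k : ℝ) := by nlinarith
      have e3 : 0 < (t : ℝ) * l := by positivity
      calc (1 - κ) * (t : ℝ) * ((k + 2) * l) = ((1 - κ) * (k + 2)) * (t * l) := by ring
        _ ≤ (k : ℝ) * (t * l) := mul_le_mul_of_nonneg_right e2 e3.le
        _ = t * (k * l) := by ring
    calc (1 - κ) * ((1 - κ) * T) ≤ (1 - κ) * ((t : ℝ) / (((k : ℝ) + 2) * l)) := mul_le_mul_of_nonneg_left e1 (by linarith)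
      _ = (1 - κ) * t / (((k : ℝ) + 2) * l) := by ring
  rw [f1] at hu1
  rw [f2] at hu2
  rw [abs_le]
  constructor
  · nlinarith [mul_pos (mul_pos hκ hκ) hT0]
  · nlinarith [mul_pos hκ hT0]

/-- `log x / y` times the number of elements of `S` in `(x, x + y]`. -/
noncomputable def RR (S : Set ℕ) (x y : ℝ) : ℝ := ((cnt S 0 ⌊x + y⌋₊ : ℝ) - (cnt S 0 ⌊x⌋₊ : ℝ)) / (y / Real.log x)

variable {Ω : Type*} [MeasurableSpace Ω] {μ : Measure Ω} [IsProbabilityMeasure μ] {A : Ω → Set ℕ} {z : ℕ → ℕ}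

/-- The deterministic step. -/
theorem RR_near {S : Set ℕ} {z : ℕ → ℕ} {κ : ℝ} (hκ : 0 < κ) (hκ1 : κ ≤ 1 / 4) {η b : ℝ} (hη : 0 < η)
    (h1 : ∀ᶠ k : ℕ in atTop, ∀ n : ℕ, 2 ^ k ≤ n → n < 2 ^ (k + 1) → ∀ t : ℕ, (k : ℝ) ^ (2 + η) ≤ t → t ≤ 2 ^ (k + 1) →
      |(cnt S n t : ℝ) - ex z n t| ≤ κ * (t / k))
    (h2 : ∀ᶠ k : ℕ in atTop, ∀ n t : ℕ, 2 ^ k ≤ n → n < 2 ^ (k + 1) →
      (k : ℝ) ^ b ≤ t → t ≤ 2 ^ (k + 1) → |ex z n t - t / (k * Real.log 2)| ≤ 4 * κ * (t / (k * Real.log 2)))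
    {a : ℝ} (ha : 2 + η < a) (hab : b < a) : ∀ᶠ x : ℝ in atTop, ∀ y : ℝ, Real.log x ^ a ≤ y → y ≤ x → |RR S x y - 1| ≤ 8 * κ := by
  have hl2 : 0 < Real.log 2 := Real.log_pos (by norm_num)
  have hl21 : Real.log 2 ≤ 1 := by linarith [Real.log_two_lt_d9]
  filter_upwards [kx_tendsto.eventually h1, kx_tendsto.eventually h2, kx_tendsto.eventually (long_window (by linarith) ha 2),
    kx_tendsto.eventually (long_window (by linarith) hab 2), kx_tendsto.eventually (long_window (a := a) (by linarith) (show 0 < a by linarith) (16 / κ)),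
    kx_tendsto.eventually (hcast.eventually_ge_atTop (8 / κ)), kx_tendsto.eventually (eventually_ge_atTop 1), eventually_ge_atTop 2]
    with x h1 h2 h3 h4 h5 h6 h7 hx2 y hy1 hy2
  obtain ⟨b1, b2, b3, b4, _, _, _⟩ := basics (a := a) hx2
  obtain ⟨k, hk⟩ : ∃ k, k = Nat.log 2 ⌊x⌋₊ := ⟨_, rfl⟩
  rw [← hk] at h1 h2 h3 h4 h5 h6 h7 b1 b2 b3 b4
  have hk1 : (1 : ℝ) ≤ k := by exact_mod_cast h7
  have hk0 : (0 : ℝ) < k := by linarith
  obtain ⟨l, hl⟩ : ∃ l, l = Real.log 2 := ⟨_, rfl⟩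
  rw [← hl] at hl2 hl21 h2 h3 h4 h5 b3 b4
  have hlx : 0 < Real.log x := lt_of_lt_of_le (by positivity) b3
  have hHl : ((k : ℝ) * l) ^ a ≤ y := (Real.rpow_le_rpow (by positivity) b3 (by linarith)).trans hy1
  rw [Real.rpow_zero, mul_one, div_le_iff₀ hκ] at h5
  have hy16 : 16 ≤ κ * y := by nlinarith
  have hy0 : 0 < y := by nlinarith
  obtain ⟨n, hn⟩ : ∃ n, n = ⌊x⌋₊ := ⟨_, rfl⟩
  obtain ⟨t, ht⟩ : ∃ t, t = ⌊x + y⌋₊ - ⌊x⌋₊ := ⟨_, rfl⟩
  rw [← hn] at b1 b2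
  have g1 := Nat.floor_le (show 0 ≤ x by linarith)
  have g2 := Nat.lt_floor_add_one x
  have g3 := Nat.floor_le (show 0 ≤ x + y by linarith)
  have g4 := Nat.lt_floor_add_one (x + y)
  have g5 : ⌊x⌋₊ ≤ ⌊x + y⌋₊ := Nat.floor_mono (by linarith)
  have g6 : ⌊x + y⌋₊ = n + t := by omega
  rw [← hn] at g1 g2
  rw [g6] at g3 g4
  push_cast at g3 g4
  have ht1 : y - 1 ≤ t := by linarith
  have ht2 : (t : ℝ) ≤ y + 1 := by linarith
  have ht3 : t ≤ 2 ^ (k + 1) := by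
    have e1 : (t : ℝ) < n + 2 := by linarith
    have e2 : t < n + 2 := by exact_mod_cast e1
    omega
  have hp1 : 1 ≤ (k : ℝ) ^ (2 + η) := Real.one_le_rpow hk1 (by linarith)
  have hy2' : 2 * 1 ≤ y := by nlinarith
  have hA := h1 n b1 b2 t (by linarith) ht3
  have hB := h2 n t b1 b2 (by
    have : (0 : ℝ) ≤ (k : ℝ) ^ b := by positivity
    by_cases hb1 : 1 ≤ (k : ℝ) ^ b
    · linarith
    · push Not at hb1
      linarith) ht3
  have hRR : RR S x y = Real.log x / y * cnt S n t := by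
    unfold RR
    rw [g6, ← hn, cnt_add, zero_add]
    push_cast
    field_simp
    ring
  rw [hRR]
  have ht0 : (0 : ℝ) < t := by linarith
  obtain ⟨T, hT⟩ : ∃ T, T = (t : ℝ) / (k * l) := ⟨_, rfl⟩
  have hT0 : 0 < T := by rw [hT]; positivity
  rw [← hT] at hB
  have hA2 : κ * ((t : ℝ) / k) ≤ κ * T := by
    refine mul_le_mul_of_nonneg_left ?_ hκ.le
    rw [hT]
    refine div_le_div_of_nonneg_left ht0.le (by positivity) ?_
    nlinarith
  rw [abs_le] at hA hB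
  have hup : (cnt S n t : ℝ) ≤ (1 + 5 * κ) * T := by linarith [hA.2, hB.2]
  have hlo : (1 - 5 * κ) * T ≤ (cnt S n t : ℝ) := by linarith [hA.1, hB.1]
  have hkκ : 1 / (k : ℝ) ≤ κ / 8 := by
    rw [div_le_iff₀ hκ] at h6
    rw [div_le_div_iff₀ hk0 (by norm_num)]
    linarith
  have hc0 : (0 : ℝ) ≤ cnt S n t := Nat.cast_nonneg _
  have hTy : T * (k * l) = t := by rw [hT]; field_simp
  rw [div_mul_eq_mul_div, abs_le]
  constructor
  · rw [neg_le_sub_iff_le_add, ← sub_le_iff_le_add, le_div_iff₀ hy0]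
    rcases le_or_gt (1 - 5 * κ) 0 with hneg | hpos
    · have : (1 - 8 * κ) * y ≤ 0 := by nlinarith
      have : 0 ≤ Real.log x * cnt S n t := by positivity
      linarith
    · have e1 : (k * l) * ((1 - 5 * κ) * T) ≤ Real.log x * cnt S n t := mul_le_mul b3 hlo (by positivity) hlx.le
      have e2 : (k * l) * ((1 - 5 * κ) * T) = (1 - 5 * κ) * t := by rw [← hTy]; ring
      have e3 : (1 - 5 * κ) * (y - 1) ≤ (1 - 5 * κ) * t := mul_le_mul_of_nonneg_left ht1 hpos.le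
      nlinarith
  · rw [sub_le_iff_le_add, div_le_iff₀ hy0]
    have e1 : Real.log x * cnt S n t ≤ (((k : ℝ) + 1) * l) * ((1 + 5 * κ) * T) := mul_le_mul b4 hup hc0 (by positivity)
    have e2 : (((k : ℝ) + 1) * l) * ((1 + 5 * κ) * T) = (1 + 1 / k) * ((1 + 5 * κ) * t) := by
      rw [← hTy]
      field_simp
    have e3 : (1 + 1 / (k : ℝ)) * ((1 + 5 * κ) * t) ≤ (1 + κ / 8) * ((1 + 5 * κ) * ((1 + κ / 16) * y)) := by
      refine mul_le_mul (by linarith) (mul_le_mul_of_nonneg_left (by linarith) (by linarith)) (by positivity) (by positivity)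
    have e4 : (1 + κ / 8) * ((1 + 5 * κ) * (1 + κ / 16)) ≤ 8 * κ + 1 := by nlinarith [mul_pos hκ hκ, mul_pos (mul_pos hκ hκ) hκ]
    have e5 := mul_le_mul_of_nonneg_right e4 hy0.le
    linarith

end Pool.Agent.Q120.CL
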